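import Pool.Agent.Helper638.Light.Defs

set_option autoImplicit false

open MeasureTheory Set Filter Topology

namespace Pool.Light


variable {n : ℕ}

theorem hits_unique (C : Cfg n) {i j j' : Fin n} {θ b : ℝ} (h : C.Hits i j θ b)
    (h' : C.Hits i j' θ b) : j = j' := by
  by_contra hne
  have h1 := h.2.2.2 j' (Ne.symm h'.1) (Ne.symm hne) h'.2.1 h'.2.2.1.le
  have h2 := h'.2.2.2 j (Ne.symm h.1) hne h.2.1 h.2.2.1.le
  exact lt_asymm h1 h2

end Pool.Light
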