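import Pool.Agent.Helper638.Light.Defs
import Pool.Agent.Helper638.Light.P_hits_unique

set_option autoImplicit false

open MeasureTheory Set Filter Topology

namespace Pool.Light


variable {n : ℕ}

theorem T_of_hits (C : Cfg n) {i j : Fin n} {θ b : ℝ} (h : C.Hits i j θ b) :
    C.T (i, θ, b) = (j, C.Tj i j θ b) := by
  have hex : ∃ j, C.Hits ((i, θ, b) : St n).1 j ((i, θ, b) : St n).2.1 ((i, θ, b) : St n).2.2 := ⟨j, h⟩
  unfold Cfg.T
  rw [dif_pos hex]
  have hj : hex.choose = j := hits_unique C hex.choose_spec h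
  rw [hj]

end Pool.Light
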