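import Pool.Agent.Helper638.Light.Defs

set_option autoImplicit false

open MeasureTheory Set Filter Topology

namespace Pool.Light


variable {n : ℕ}

theorem basics_cs (x y θ : ℝ) : |x * Real.cos θ + y * Real.sin θ| ≤ Real.sqrt (x ^ 2 + y ^ 2) := by
  apply Real.abs_le_sqrt
  have h := Real.sin_sq_add_cos_sq θ
  have h1 : (x * Real.cos θ + y * Real.sin θ) ^ 2 + (x * Real.sin θ - y * Real.cos θ) ^ 2 =
      (x ^ 2 + y ^ 2) * (Real.sin θ ^ 2 + Real.cos θ ^ 2) := by ring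
  rw [h, mul_one] at h1
  nlinarith [sq_nonneg (x * Real.sin θ - y * Real.cos θ)]

/-- elementary facts. -/
theorem basics (C : Cfg n) (i k : Fin n) (θ b : ℝ) :
    |C.dv i k θ| ≤ C.K ∧ |C.dn i k θ| ≤ C.K ∧ C.dv i k (θ + Real.pi) = -C.dv i k θ ∧
    C.dn i k (θ + Real.pi) = -C.dn i k θ ∧ C.dv k i θ = -C.dv i k θ ∧ C.dn k i θ = -C.dn i k θ ∧
    (∀ m : ℤ, C.dv i k (θ + 2 * Real.pi * m) = C.dv i k θ) ∧
    (∀ m : ℤ, C.dn i k (θ + 2 * Real.pi * m) = C.dn i k θ) ∧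
    (∀ j, C.dv i j θ = C.dv i k θ + C.dv k j θ) ∧ (∀ j, C.dn i j θ = C.dn i k θ + C.dn k j θ) ∧
    HasDerivAt (fun t => C.dv i k t) (C.dn i k θ) θ ∧
    HasDerivAt (fun t => C.dn i k t) (-C.dv i k θ) θ ∧
    (0 < C.K) ∧ (0 < C.lam) ∧ (C.lam < 1) := by
  have hK : 0 < C.K := by
    have h1 := C.hK2 i
    have h2 := C.hr i
    have h3 := C.htau
    linarith
  refine ⟨?_, ?_, ?_, ?_, ?_, ?_, ?_, ?_, ?_, ?_, ?_, ?_, hK, ?_, ?_⟩
  · exact (basics_cs _ _ θ).trans (C.hK1 i k)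
  · have h := basics_cs (C.cy k - C.cy i) (-(C.cx k - C.cx i)) θ
    have h1 : C.dn i k θ = (C.cy k - C.cy i) * Real.cos θ + -(C.cx k - C.cx i) * Real.sin θ := by
      unfold Cfg.dn; ring
    rw [h1]
    refine h.trans ?_
    have h2 : (C.cy k - C.cy i) ^ 2 + (-(C.cx k - C.cx i)) ^ 2 =
        (C.cx k - C.cx i) ^ 2 + (C.cy k - C.cy i) ^ 2 := by ring
    rw [h2]
    exact C.hK1 i k
  · unfold Cfg.dv
    rw [Real.cos_add_pi, Real.sin_add_pi]; ring
  · unfold Cfg.dn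
    rw [Real.cos_add_pi, Real.sin_add_pi]; ring
  · unfold Cfg.dv; ring
  · unfold Cfg.dn; ring
  · intro m
    unfold Cfg.dv
    rw [mul_comm (2 * Real.pi) (m : ℝ), Real.cos_add_int_mul_two_pi, Real.sin_add_int_mul_two_pi]
  · intro m
    unfold Cfg.dn
    rw [mul_comm (2 * Real.pi) (m : ℝ), Real.cos_add_int_mul_two_pi, Real.sin_add_int_mul_two_pi]
  · intro j
    unfold Cfg.dv; ring
  · intro j
    unfold Cfg.dn; ring
  · unfold Cfg.dv
    refine (((Real.hasDerivAt_cos θ).const_mul (C.cx k - C.cx i)).fun_add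
      ((Real.hasDerivAt_sin θ).const_mul (C.cy k - C.cy i))).congr_deriv ?_
    unfold Cfg.dn; ring
  · unfold Cfg.dn
    refine (((Real.hasDerivAt_sin θ).const_mul (-(C.cx k - C.cx i))).fun_add
      ((Real.hasDerivAt_cos θ).const_mul (C.cy k - C.cy i))).congr_deriv ?_
    unfold Cfg.dv; ring
  · unfold Cfg.lam
    have := C.htau
    positivity
  · unfold Cfg.lam
    have := C.htau
    rw [div_lt_one (by positivity)]
    linarith

end Pool.Light

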