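import Pool.Agent.Helper638.Light.Defs
import Pool.Agent.Helper638.Light.P_gap
import Pool.Agent.Helper638.Light.P_basics

set_option autoImplicit false

open MeasureTheory Set Filter Topology

namespace Pool.Light


variable {n : ℕ}

theorem isOpen_hits_dv (C : Cfg n) (i j : Fin n) : Continuous (fun p : ℝ × ℝ => C.dv i j p.1) := by
  unfold Cfg.dv
  fun_prop

theorem isOpen_hits_bp (C : Cfg n) (i j : Fin n) :
    Continuous (fun p : ℝ × ℝ => |C.bp i j p.1 p.2|) := by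
  unfold Cfg.bp Cfg.dn
  fun_prop

theorem isOpen_hits (C : Cfg n) (i j : Fin n) :
    IsOpen {p : ℝ × ℝ | |p.2| < C.r i ∧ C.Hits i j p.1 p.2} := by
  by_cases hij : i = j
  · have h : {p : ℝ × ℝ | |p.2| < C.r i ∧ C.Hits i j p.1 p.2} = ∅ := by
      rw [Set.eq_empty_iff_forall_notMem]
      rintro p ⟨-, h, -⟩
      exact h hij
    rw [h]
    exact isOpen_empty
  have h : {p : ℝ × ℝ | |p.2| < C.r i ∧ C.Hits i j p.1 p.2} =
      ({p : ℝ × ℝ | |p.2| < C.r i} ∩ {p : ℝ × ℝ | 0 < C.dv i j p.1} ∩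
        {p : ℝ × ℝ | |C.bp i j p.1 p.2| < C.r j}) ∩
      ⋂ k : Fin n, {p : ℝ × ℝ | k ≠ i ∧ k ≠ j ∧ C.tau ≤ C.dv i k p.1 ∧ |C.bp i k p.1 p.2| ≤ C.r k ∧
        C.dv i k p.1 ≤ C.dv i j p.1}ᶜ := by
    ext p
    constructor
    · rintro ⟨h1, h2, h3, h4, h5⟩
      refine ⟨⟨⟨h1, h3⟩, h4⟩, ?_⟩
      rw [Set.mem_iInter]
      rintro k ⟨h6, h7, h8, h9, h10⟩
      have := h5 k h6 h7 (lt_of_lt_of_le C.htau h8) h9
      linarith
    · rintro ⟨⟨⟨h1, h3⟩, h4⟩, h5⟩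
      rw [Set.mem_iInter] at h5
      refine ⟨h1, hij, h3, h4, ?_⟩
      intro k h6 h7 h8 h9
      by_contra h10
      apply h5 k
      refine ⟨h6, h7, ?_, h9, not_lt.mp h10⟩
      have h11 := gap C h6 (le_of_lt h1) h9
      rw [abs_of_pos h8] at h11
      have h12 : 0 ≤ C.hc i p.2 := Real.sqrt_nonneg _
      have h13 : 0 ≤ C.hc k (C.bp i k p.1 p.2) := Real.sqrt_nonneg _
      linarith
  rw [h]
  apply IsOpen.inter
  · apply IsOpen.inter
    · apply IsOpen.inter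
      · exact isOpen_lt (by fun_prop) continuous_const
      · exact isOpen_lt continuous_const (isOpen_hits_dv C i j)
    · exact isOpen_lt (isOpen_hits_bp C i j) continuous_const
  · apply isOpen_iInter_of_finite
    intro k
    rw [isOpen_compl_iff]
    by_cases hk : k ≠ i ∧ k ≠ j
    · have h2 : {p : ℝ × ℝ | k ≠ i ∧ k ≠ j ∧ C.tau ≤ C.dv i k p.1 ∧ |C.bp i k p.1 p.2| ≤ C.r k ∧
          C.dv i k p.1 ≤ C.dv i j p.1} = {p : ℝ × ℝ | C.tau ≤ C.dv i k p.1} ∩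
          {p : ℝ × ℝ | |C.bp i k p.1 p.2| ≤ C.r k} ∩ {p : ℝ × ℝ | C.dv i k p.1 ≤ C.dv i j p.1} := by
        ext p
        constructor
        · rintro ⟨-, -, h3, h4, h5⟩
          exact ⟨⟨h3, h4⟩, h5⟩
        · rintro ⟨⟨h3, h4⟩, h5⟩
          exact ⟨hk.1, hk.2, h3, h4, h5⟩
      rw [h2]
      apply IsClosed.inter
      · apply IsClosed.inter
        · exact isClosed_le continuous_const (isOpen_hits_dv C i k)
        · exact isClosed_le (isOpen_hits_bp C i k) continuous_const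
      · exact isClosed_le (isOpen_hits_dv C i k) (isOpen_hits_dv C i j)
    · have h2 : {p : ℝ × ℝ | k ≠ i ∧ k ≠ j ∧ C.tau ≤ C.dv i k p.1 ∧ |C.bp i k p.1 p.2| ≤ C.r k ∧
          C.dv i k p.1 ≤ C.dv i j p.1} = ∅ := by
        rw [Set.eq_empty_iff_forall_notMem]
        rintro p ⟨h3, h4, -⟩
        exact hk ⟨h3, h4⟩
      rw [h2]
      exact isClosed_empty

end Pool.Light
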