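import Pool.Agent.Helper638.Light.Defs
import Pool.Agent.Helper638.Light.P_gap
import Pool.Agent.Helper638.Light.P_basics
import Pool.Agent.Helper638.Light.P_hits_unique
import Pool.Agent.Helper638.Light.P_T_of_hits
import Pool.Agent.Helper638.Light.P_meas
import Pool.Agent.Helper638.Light.P_invMeas
import Pool.Agent.Helper638.Light.P_volSum

set_option autoImplicit false

open MeasureTheory Set Filter Topology

namespace Pool.Light


variable {n : ℕ}

theorem S1_null_zero (C : Cfg n) : Cfg.vol n C.S1 = 0 := by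
  have hS1 : MeasurableSet C.S1 := (meas C).2.2.2.2.1
  rw [← lintegral_indicator_one hS1]
  rw [volSum (C.S1.indicator 1) (measurable_one.indicator hS1)]
  refine Finset.sum_eq_zero fun i _ => ?_
  have hm : MeasurableSet {p : ℝ × ℝ | ((i, p) : St n) ∈ C.S1} :=
    measurable_prodMk_left hS1
  have h1 : ∀ p : ℝ × ℝ, C.S1.indicator (1 : St n → ENNReal) (i, p) =
      {p : ℝ × ℝ | ((i, p) : St n) ∈ C.S1}.indicator 1 p := by
    intro p
    by_cases hp : ((i, p) : St n) ∈ C.S1
    · rw [Set.indicator_of_mem hp, Set.indicator_of_mem (show p ∈ {p : ℝ × ℝ | ((i, p) : St n) ∈ C.S1} from hp)]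
      rfl
    · rw [Set.indicator_of_notMem hp, Set.indicator_of_notMem (show p ∉ {p : ℝ × ℝ | ((i, p) : St n) ∈ C.S1} from hp)]
  rw [lintegral_congr h1, lintegral_indicator_one hm]
  rw [Measure.volume_eq_prod, Measure.measure_prod_null hm]
  refine Filter.Eventually.of_forall fun θ => ?_
  show volume (Prod.mk θ ⁻¹' {p : ℝ × ℝ | ((i, p) : St n) ∈ C.S1}) = 0
  have hsub : Prod.mk θ ⁻¹' {p : ℝ × ℝ | ((i, p) : St n) ∈ C.S1} ⊆
      ⋃ k : Fin n, ({C.dn i k θ + C.r k, C.dn i k θ - C.r k} : Set ℝ) := by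
    intro b hb
    obtain ⟨-, k, -, -, hk⟩ := hb
    rw [Set.mem_iUnion]
    refine ⟨k, ?_⟩
    change |b - C.dn i k θ| = C.r k at hk
    rcases abs_choice (b - C.dn i k θ) with h | h
    · left
      linarith
    · right
      rw [Set.mem_singleton_iff]
      linarith
  refine measure_mono_null hsub ?_
  exact (Set.finite_iUnion fun k => Set.toFinite _).measure_zero volume

theorem S1_null (C : Cfg n) (m : ℕ) :
    Cfg.vol n {l | l ∈ C.Om m ∧ (C.T^[m]) l ∈ C.S1} = 0 := by
  have hS1 : MeasurableSet C.S1 := (meas C).2.2.2.2.1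
  have hOm : MeasurableSet (C.Om m) := (meas C).2.1 m
  have hT : Measurable (C.T^[m]) := (meas C).1.iterate m
  have h := invMeas C m (C.S1.indicator 1) (measurable_one.indicator hS1)
  have h2 : ∫⁻ l in C.M, C.S1.indicator 1 l ∂(Cfg.vol n) = 0 := by
    refine le_antisymm ?_ bot_le
    refine (setLIntegral_le_lintegral C.M _).trans ?_
    rw [lintegral_indicator_one hS1, S1_null_zero C]
  have h3 : ∫⁻ l in C.Om m, C.S1.indicator 1 ((C.T^[m]) l) ∂(Cfg.vol n) =
      Cfg.vol n {l | l ∈ C.Om m ∧ (C.T^[m]) l ∈ C.S1} := by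
    have e : ∀ l, C.S1.indicator (1 : St n → ENNReal) ((C.T^[m]) l) =
        ((C.T^[m]) ⁻¹' C.S1).indicator 1 l := by
      intro l
      by_cases hl : (C.T^[m]) l ∈ C.S1
      · rw [Set.indicator_of_mem hl, Set.indicator_of_mem (show l ∈ (C.T^[m]) ⁻¹' C.S1 from hl)]
        rfl
      · rw [Set.indicator_of_notMem hl, Set.indicator_of_notMem (show l ∉ (C.T^[m]) ⁻¹' C.S1 from hl)]
    rw [lintegral_congr e, lintegral_indicator_one (hT hS1), Measure.restrict_apply (hT hS1)]
    congr 1
    ext l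
    exact and_comm
  rw [h2, h3] at h
  exact le_antisymm h bot_le

end Pool.Light
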