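import Pool.Agent.Helper638.Light.Defs
import Pool.Agent.Helper638.Light.P_gap
import Pool.Agent.Helper638.Light.P_basics
import Pool.Agent.Helper638.Light.P_T_of_hits
import Pool.Agent.Helper638.Light.P_isOpen_hits

set_option autoImplicit false

open MeasureTheory Set Filter Topology

namespace Pool.Light


variable {n : ℕ}

theorem Tsmooth_bp_fd (C : Cfg n) (i j : Fin n) (p : ℝ × ℝ) :
    HasFDerivAt (fun q : ℝ × ℝ => C.bp i j q.1 q.2)
      (ContinuousLinearMap.snd ℝ ℝ ℝ - (-C.dv i j p.1) • ContinuousLinearMap.fst ℝ ℝ ℝ) p := by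
  have h1 : HasDerivAt (fun t => C.dn i j t) (-C.dv i j p.1) p.1 :=
    (basics C i j p.1 0).2.2.2.2.2.2.2.2.2.2.2.1
  have h2 : HasFDerivAt (fun q : ℝ × ℝ => C.dn i j q.1)
      ((-C.dv i j p.1) • ContinuousLinearMap.fst ℝ ℝ ℝ) p :=
    HasDerivAt.comp_hasFDerivAt p h1 hasFDerivAt_fst
  exact hasFDerivAt_snd.sub h2

theorem Tsmooth_bp_cd (C : Cfg n) (i j : Fin n) :
    ContDiff ℝ 1 (fun q : ℝ × ℝ => C.bp i j q.1 q.2) := by
  unfold Cfg.bp Cfg.dn
  exact contDiff_snd.sub ((contDiff_const.mul (Real.contDiff_sin.comp contDiff_fst)).add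
    (contDiff_const.mul (Real.contDiff_cos.comp contDiff_fst)))

/-- local form and derivative of the first hit map. -/
theorem Tsmooth (C : Cfg n) {i j : Fin n} {p : ℝ × ℝ} (hp : |p.2| < C.r i)
    (h : C.Hits i j p.1 p.2) :
    (∀ᶠ q in 𝓝 p, |q.2| < C.r i ∧ C.Hits i j q.1 q.2 ∧ C.T (i, q) = (j, C.Tj i j q.1 q.2)) ∧
    ContDiffAt ℝ 1 (fun q : ℝ × ℝ => C.Tj i j q.1 q.2) p ∧
    (∀ u : ℝ × ℝ, fderiv ℝ (fun q : ℝ × ℝ => C.Tj i j q.1 q.2) p u =
      (u.1 - 2 / C.hc j (C.bp i j p.1 p.2) * (u.2 + C.dv i j p.1 * u.1),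
        u.2 + C.dv i j p.1 * u.1)) := by
  have hr : 0 < C.r j := C.hr j
  have hb : |C.bp i j p.1 p.2| < C.r j := h.2.2.1
  have hx : |C.bp i j p.1 p.2 / C.r j| < 1 := by
    rw [abs_div, abs_of_pos hr, div_lt_one hr]; exact hb
  have hx1 : C.bp i j p.1 p.2 / C.r j ≠ -1 := by
    have := (abs_lt.1 hx).1
    linarith
  have hx2 : C.bp i j p.1 p.2 / C.r j ≠ 1 := by
    have := (abs_lt.1 hx).2
    linarith
  refine ⟨?_, ?_, ?_⟩
  · have h1 := (isOpen_hits C i j).mem_nhds (show p ∈ {p : ℝ × ℝ | |p.2| < C.r i ∧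
      C.Hits i j p.1 p.2} from ⟨hp, h⟩)
    filter_upwards [h1] with q hq
    exact ⟨hq.1, hq.2, T_of_hits C hq.2⟩
  · have h1 : ContDiffAt ℝ 1 (fun q : ℝ × ℝ => C.bp i j q.1 q.2 / C.r j) p :=
      (Tsmooth_bp_cd C i j).contDiffAt.div_const _
    have h2 : ContDiffAt ℝ 1 (fun q : ℝ × ℝ => Real.arcsin (C.bp i j q.1 q.2 / C.r j)) p :=
      ContDiffAt.comp (g := Real.arcsin) (f := fun q : ℝ × ℝ => C.bp i j q.1 q.2 / C.r j) p
        (Real.contDiffAt_arcsin hx1 hx2) h1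
    have h3 : ContDiffAt ℝ 1 (fun q : ℝ × ℝ => q.1 + Real.pi -
        2 * Real.arcsin (C.bp i j q.1 q.2 / C.r j)) p :=
      (contDiffAt_fst.add contDiffAt_const).sub (contDiffAt_const.mul h2)
    exact h3.prodMk (Tsmooth_bp_cd C i j).contDiffAt
  · intro u
    have h1 := Tsmooth_bp_fd C i j p
    have h2 : HasDerivAt (fun x : ℝ => Real.arcsin (x / C.r j))
        (1 / C.hc j (C.bp i j p.1 p.2)) (C.bp i j p.1 p.2) := by
      have h3 := (Real.hasDerivAt_arcsin hx1 hx2).comp (C.bp i j p.1 p.2)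
        ((hasDerivAt_id (C.bp i j p.1 p.2)).div_const (C.r j))
      have h4 : 1 / √(1 - (C.bp i j p.1 p.2 / C.r j) ^ 2) * (1 / C.r j) =
          1 / C.hc j (C.bp i j p.1 p.2) := by
        have h5 : C.hc j (C.bp i j p.1 p.2) =
            √(1 - (C.bp i j p.1 p.2 / C.r j) ^ 2) * C.r j := by
          unfold Cfg.hc
          have h6 : (C.r j) ^ 2 - (C.bp i j p.1 p.2) ^ 2 =
              (1 - (C.bp i j p.1 p.2 / C.r j) ^ 2) * (C.r j) ^ 2 := by
            field_simp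
          rw [h6, Real.sqrt_mul' _ (sq_nonneg _), Real.sqrt_sq hr.le]
        rw [h5, one_div_mul_one_div]
      rw [h4] at h3
      exact h3
    have h7 : HasFDerivAt (fun q : ℝ × ℝ => Real.arcsin (C.bp i j q.1 q.2 / C.r j))
        ((1 / C.hc j (C.bp i j p.1 p.2)) • (ContinuousLinearMap.snd ℝ ℝ ℝ -
          (-C.dv i j p.1) • ContinuousLinearMap.fst ℝ ℝ ℝ)) p :=
      HasDerivAt.comp_hasFDerivAt (f := fun q : ℝ × ℝ => C.bp i j q.1 q.2)
        (h₂ := fun x : ℝ => Real.arcsin (x / C.r j)) p h2 h1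
    have h8 : HasFDerivAt (fun q : ℝ × ℝ => q.1 + Real.pi -
        2 * Real.arcsin (C.bp i j q.1 q.2 / C.r j))
        (ContinuousLinearMap.fst ℝ ℝ ℝ - (2 : ℝ) • ((1 / C.hc j (C.bp i j p.1 p.2)) •
          (ContinuousLinearMap.snd ℝ ℝ ℝ -
            (-C.dv i j p.1) • ContinuousLinearMap.fst ℝ ℝ ℝ))) p :=
      (hasFDerivAt_fst.add_const _).sub (h7.const_mul 2)
    have h9 : HasFDerivAt (fun q : ℝ × ℝ => C.Tj i j q.1 q.2) _ p := h8.prodMk h1
    rw [h9.fderiv]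
    apply Prod.ext
    · show u.1 - 2 * (1 / C.hc j (C.bp i j p.1 p.2) * (u.2 - -C.dv i j p.1 * u.1)) = _
      ring
    · show u.2 - -C.dv i j p.1 * u.1 = _
      ring

end Pool.Light
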