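import Pool.Agent.Helper638.Light.Defs

set_option autoImplicit false

open MeasureTheory Set Filter Topology

namespace Pool.Light


open Classical in
theorem at0_select (m : ℕ) (v : Fin m → ℝ → ℝ) (hv : ∀ q, Measurable (v q)) :
    ∃ w : Fin m → ℝ → ℝ, (∀ q, Measurable (w q)) ∧ (∀ θ, ∑ q, |w q θ| ≤ 1) ∧
      (∀ θ q q', w q θ ≠ 0 → w q' θ ≠ 0 → q = q') ∧
      ∀ θ, (⨆ q, ENNReal.ofReal |v q θ|) = ENNReal.ofReal (∑ q, w q θ * v q θ) ∧
        0 ≤ ∑ q, w q θ * v q θ := by
  set B : Fin m → Set ℝ := fun q => {θ | ∀ q', |v q' θ| ≤ |v q θ|} with hB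
  set D : Fin m → Set ℝ := fun q => {θ | θ ∈ B q ∧ ∀ q' < q, θ ∉ B q'} with hD
  have hBm : ∀ q, MeasurableSet (B q) := by
    intro q
    have : B q = ⋂ q', {θ | |v q' θ| ≤ |v q θ|} := by
      ext θ; simp [hB]
    rw [this]
    exact MeasurableSet.iInter (fun q' => measurableSet_le (hv q').abs (hv q).abs)
  have hDm : ∀ q, MeasurableSet (D q) := by
    intro q
    have : D q = B q ∩ ⋂ q' : Fin m, ⋂ _ : q' < q, (B q')ᶜ := by
      ext θ; simp [hD]
    rw [this]
    exact (hBm q).inter (MeasurableSet.iInter (fun q' => MeasurableSet.iInter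
      (fun _ => (hBm q').compl)))
  refine ⟨fun q θ => if θ ∈ D q then (if 0 ≤ v q θ then 1 else -1) else 0, ?_, ?_, ?_, ?_⟩
  · intro q
    exact Measurable.ite (hDm q) (Measurable.ite (measurableSet_le measurable_const (hv q))
      measurable_const measurable_const) measurable_const
  all_goals
    have huniq : ∀ θ q q', θ ∈ D q → θ ∈ D q' → q = q' := by
      intro θ q q' h h'
      rcases lt_trichotomy q q' with hlt | heq | hgt
      · exact absurd h.1 (h'.2 q hlt)
      · exact heq
      · exact absurd h'.1 (h.2 q' hgt)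
  · intro θ
    beta_reduce
    by_cases hex : ∃ q, θ ∈ D q
    · obtain ⟨q, hq⟩ := hex
      rw [Finset.sum_eq_single q]
      · rw [if_pos hq]
        split_ifs <;> simp
      · intro q' _ hne
        rw [if_neg (fun h => hne (huniq θ q' q h hq)), abs_zero]
      · intro h; exact absurd (Finset.mem_univ q) h
    · have : ∀ q, θ ∉ D q := fun q h => hex ⟨q, h⟩
      have h2 : ∀ q : Fin m, |(if θ ∈ D q then (if 0 ≤ v q θ then (1:ℝ) else -1) else 0)| = 0 := by
        intro q
        rw [if_neg (this q), abs_zero]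
      rw [Finset.sum_congr rfl (fun q _ => h2 q)]
      simp
  · intro θ q q' h h'
    have h1 : θ ∈ D q := by
      by_contra hcon
      exact h (by simp only; rw [if_neg hcon])
    have h2 : θ ∈ D q' := by
      by_contra hcon
      exact h' (by simp only; rw [if_neg hcon])
    exact huniq θ q q' h1 h2
  · intro θ
    by_cases hex : ∃ q, θ ∈ D q
    · obtain ⟨q, hq⟩ := hex
      have hsum : ∑ q', (if θ ∈ D q' then (if 0 ≤ v q' θ then (1:ℝ) else -1) else 0) * v q' θ
          = |v q θ| := by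
        rw [Finset.sum_eq_single q]
        · rw [if_pos hq]
          by_cases h0 : 0 ≤ v q θ
          · rw [if_pos h0, abs_of_nonneg h0, one_mul]
          · rw [if_neg h0, abs_of_neg (not_le.mp h0)]; ring
        · intro q' _ hne
          rw [if_neg (fun h => hne (huniq θ q' q h hq)), zero_mul]
        · intro h; exact absurd (Finset.mem_univ q) h
      rw [hsum]
      refine ⟨le_antisymm ?_ ?_, abs_nonneg _⟩
      · exact iSup_le (fun q' => ENNReal.ofReal_le_ofReal (hq.1 q'))
      · exact le_iSup (fun q' => ENNReal.ofReal |v q' θ|) q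
    · have hemp : IsEmpty (Fin m) := by
        by_contra hne
        rw [not_isEmpty_iff] at hne
        obtain ⟨q0, hq0⟩ := Finite.exists_max (fun q => |v q θ|)
        obtain ⟨q1, h1, h2⟩ := WellFounded.has_min
          (wellFounded_lt : WellFounded ((· < ·) : Fin m → Fin m → Prop)) {q | θ ∈ B q}
          ⟨q0, hq0⟩
        exact hex ⟨q1, h1, fun q' hq' hmem => h2 q' hmem hq'⟩
      simp

theorem at0_mollify (m : ℕ) (w : Fin m → ℝ → ℝ) (hw : ∀ q, Measurable (w q))
    (hw1 : ∀ θ, ∑ q, |w q θ| ≤ 1) :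
    ∃ W : ℕ → Fin m → ℝ → ℝ, (∀ k q, ContDiff ℝ 1 (W k q)) ∧ (∀ k θ, ∑ q, |W k q θ| ≤ 1) ∧
      ∀ q, ∀ᵐ θ, Tendsto (fun k => W k q θ) atTop (𝓝 (w q θ)) := by
  have hwq : ∀ q θ, |w q θ| ≤ 1 := by
    intro q θ
    refine le_trans ?_ (hw1 θ)
    exact Finset.single_le_sum (f := fun q => |w q θ|) (fun q _ => abs_nonneg _)
      (Finset.mem_univ q)
  have hloc : ∀ q, LocallyIntegrable (w q) (volume : Measure ℝ) := by
    intro q
    refine (locallyIntegrable_const (1:ℝ)).mono (hw q).aestronglyMeasurable ?_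
    filter_upwards with θ
    simpa using hwq q θ
  let φ : ℕ → ContDiffBump (0:ℝ) := fun k =>
    ⟨1/((k:ℝ)+1), 2/((k:ℝ)+1), by positivity, by
      apply div_lt_div_of_pos_right (by norm_num) (by positivity)⟩
  have hnc : ∀ k, Continuous ((φ k).normed volume) := fun k => (φ k).continuous_normed
  refine ⟨fun k q => (MeasureTheory.convolution ((φ k).normed volume) (w q) (ContinuousLinearMap.lsmul ℝ ℝ) volume),
    ?_, ?_, ?_⟩
  · intro k q
    refine HasCompactSupport.contDiff_convolution_left _ (φ k).hasCompactSupport_normed ?_ (hloc q)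
    exact (φ k).contDiff_normed (n := 1)
  · intro k θ
    have hint : ∀ q, Integrable (fun t => (φ k).normed volume t * |w q (θ - t)|) := by
      intro q
      refine Integrable.mul_bdd (c := 1) (φ k).integrable_normed ?_ ?_
      · exact ((hw q).comp (measurable_const.sub measurable_id)).abs.aestronglyMeasurable
      · filter_upwards with t
        rw [Real.norm_eq_abs, abs_abs]
        exact hwq q _
    have h1 : ∀ q, |(MeasureTheory.convolution ((φ k).normed volume) (w q) (ContinuousLinearMap.lsmul ℝ ℝ) volume) θ|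
        ≤ ∫ t, (φ k).normed volume t * |w q (θ - t)| := by
      intro q
      rw [← Real.norm_eq_abs, MeasureTheory.convolution_def]
      refine (norm_integral_le_integral_norm _).trans (le_of_eq ?_)
      congr 1
      funext t
      simp only [ContinuousLinearMap.lsmul_apply, smul_eq_mul, norm_mul, Real.norm_eq_abs]
      rw [abs_of_nonneg ((φ k).nonneg_normed t)]
    calc ∑ q, |(MeasureTheory.convolution ((φ k).normed volume) (w q) (ContinuousLinearMap.lsmul ℝ ℝ) volume) θ|
        ≤ ∑ q, ∫ t, (φ k).normed volume t * |w q (θ - t)| := Finset.sum_le_sum (fun q _ => h1 q)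
      _ = ∫ t, ∑ q, (φ k).normed volume t * |w q (θ - t)| := by
          rw [integral_finsetSum]
          exact fun q _ => hint q
      _ ≤ ∫ t, (φ k).normed volume t := by
          apply integral_mono (integrable_finsetSum _ (fun q _ => hint q)) (φ k).integrable_normed
          intro t
          simp only
          rw [← Finset.mul_sum]
          exact mul_le_of_le_one_right ((φ k).nonneg_normed t) (hw1 _)
      _ = 1 := (φ k).integral_normed
  · intro q
    refine ContDiffBump.ae_convolution_tendsto_right_of_locallyIntegrable (K := 2) ?_ ?_ (hloc q)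
    · have : Tendsto (fun n : ℕ => 2 * (1 / ((n:ℝ) + 1))) atTop (𝓝 (2 * 0)) :=
        tendsto_one_div_add_atTop_nhds_zero_nat.const_mul 2
      rw [mul_zero] at this
      refine this.congr (fun n => ?_)
      show 2 * (1 / ((n:ℝ) + 1)) = 2 / ((n:ℝ) + 1)
      ring
    · filter_upwards with k
      show 2 / ((k:ℝ) + 1) ≤ 2 * (1 / ((k:ℝ) + 1))
      apply le_of_eq
      ring

theorem at0_abscont (F : ℝ × ℝ → ℝ) (hF : Integrable F) (hF0 : ∀ p, 0 ≤ F p) (L : ℝ) (hL : 0 < L)
    (hsup : ∀ p : ℝ × ℝ, L < |p.1| → F p = 0) (κ : ℝ) (hκ : 0 < κ) :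
    ∃ η > 0, ∀ A : Set (ℝ × ℝ), MeasurableSet A →
      (∀ θ, volume {b : ℝ | (θ, b) ∈ A} ≤ ENNReal.ofReal η) → ∫ p in A, F p ≤ κ := by
  have hfin : ∫⁻ p, ENNReal.ofReal (F p) ≠ ⊤ := by
    have := hF.lintegral_lt_top
    exact this.ne
  obtain ⟨δ, hδ, hδ2⟩ := exists_pos_setLIntegral_lt_of_measure_lt hfin
    (ε := ENNReal.ofReal κ) (by simpa using hκ)
  obtain ⟨c, hc0, hcδ⟩ := exists_between hδ
  have hcT : c ≠ ⊤ := (lt_of_lt_of_le hcδ le_top).ne
  have hcR : 0 < c.toReal := ENNReal.toReal_pos hc0.ne' hcT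
  refine ⟨c.toReal / (2 * L), by positivity, ?_⟩
  intro A hA hsec
  set A' : Set (ℝ × ℝ) := A ∩ {p | |p.1| ≤ L} with hA'
  have hA'm : MeasurableSet A' :=
    hA.inter (measurableSet_le measurable_fst.abs measurable_const)
  have hvol : volume A' ≤ c := by
    rw [Measure.volume_eq_prod, Measure.prod_apply hA'm]
    have h1 : ∀ θ : ℝ, volume (Prod.mk θ ⁻¹' A') ≤
        (Icc (-L) L).indicator (fun _ => ENNReal.ofReal (c.toReal / (2 * L))) θ := by
      intro θ
      by_cases h : θ ∈ Icc (-L) L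
      · rw [indicator_of_mem h]
        refine le_trans (measure_mono ?_) (hsec θ)
        intro b hb
        exact hb.1
      · rw [indicator_of_notMem h]
        have : Prod.mk θ ⁻¹' A' = ∅ := by
          ext b
          simp only [hA', mem_preimage, mem_inter_iff, mem_ofPred_eq, mem_empty_iff_false, iff_false,
            not_and]
          intro _ h2
          exact h (abs_le.mp h2)
        rw [this, measure_empty]
    calc ∫⁻ θ, volume (Prod.mk θ ⁻¹' A')
        ≤ ∫⁻ θ, (Icc (-L) L).indicator (fun _ => ENNReal.ofReal (c.toReal / (2 * L))) θ :=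
          lintegral_mono h1
      _ = ENNReal.ofReal (c.toReal / (2 * L)) * ENNReal.ofReal (L - -L) := by
          rw [lintegral_indicator measurableSet_Icc, setLIntegral_const, Real.volume_Icc]
      _ = c := by
          rw [← ENNReal.ofReal_mul (by positivity)]
          have : c.toReal / (2 * L) * (L - -L) = c.toReal := by field_simp; ring
          rw [this, ENNReal.ofReal_toReal hcT]
  have h2 := hδ2 A' (lt_of_le_of_lt hvol hcδ)
  have h3 : ∫ p in A, F p = ∫ p in A', F p := by
    apply setIntegral_eq_of_subset_of_forall_sdiff_eq_zero hA inter_subset_left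
    intro p hp
    apply hsup
    by_contra hcon
    exact hp.2 ⟨hp.1, not_lt.mp hcon⟩
  rw [h3, integral_eq_lintegral_of_nonneg_ae (by filter_upwards with p using hF0 p)
    hF.aestronglyMeasurable.restrict]
  calc (∫⁻ p in A', ENNReal.ofReal (F p)).toReal ≤ (ENNReal.ofReal κ).toReal :=
        ENNReal.toReal_mono ENNReal.ofReal_ne_top h2.le
    _ = κ := ENNReal.toReal_ofReal hκ.le

theorem at0_proj (ψ : ℝ × ℝ → ℝ) (hψc : HasCompactSupport ψ) :
    ∃ L > 0, ∀ p : ℝ × ℝ, L < |p.1| → ψ p = 0 := by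
  obtain ⟨R, hR⟩ := hψc.isCompact.isBounded.exists_norm_le
  refine ⟨max R 1, by positivity, ?_⟩
  intro p hp
  by_contra hne
  have h1 : p ∈ tsupport ψ := subset_tsupport _ hne
  have h2 := hR p h1
  have h3 : |p.1| ≤ ‖p‖ := by
    rw [← Real.norm_eq_abs]
    exact norm_fst_le p
  have h4 := le_max_left R 1
  linarith

/-- AT0 with the intended reading of the hypothesis: the sum of two integrals -/
theorem at0_fixed (r K : ℝ) (hr : 0 < r)
    (f : ℝ × ℝ → ℝ) (hfm : Measurable f) (hfb : ∀ p, |f p| ≤ K)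
    (S : ℝ × ℝ → ℝ) (hS0 : ∀ p, 0 ≤ S p) (hSm : Measurable S) (hS : LocallyIntegrable S)
    (ν : Measure (ℝ × ℝ)) [IsFiniteMeasureOnCompacts ν]
    (h : ∀ φ, TF r φ → |∫ p, f p * fderiv ℝ φ p (0, 1)| ≤
      (∫ p, |φ p| * S p) + ∫ p, |φ p| ∂ν)
    (ψ : ℝ × ℝ → ℝ) (hψ : TF r ψ) (hψ0 : ∀ p, 0 ≤ ψ p) (κ : ℝ) (hκ : 0 < κ) :
    ∃ η > 0, ∀ (m : ℕ) (χ : Fin m → ℝ → ℝ) (x : Fin m → ℝ),
      (∀ q, ContDiff ℝ 1 (χ q)) → (∀ q b, 0 ≤ χ q b) → (∀ q b, χ q b ≤ 1) →
      (∀ q b, χ q b ≠ 0 → x q ≤ b ∧ b ≤ x q + η) →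
      ∫⁻ θ, ⨆ q, ENNReal.ofReal
          |∫ b, f (θ, b) * fderiv ℝ (fun p : ℝ × ℝ => ψ p * χ q p.2) (θ, b) (0, 1)|
        ≤ ∫⁻ p, ENNReal.ofReal (ψ p) ∂ν + ENNReal.ofReal κ := by
  obtain ⟨hψ1, hψc, hψs⟩ := hψ
  have hψS : Integrable (fun p => ψ p * S p) :=
    hS.integrable_smul_left_of_hasCompactSupport hψ1.continuous hψc
  obtain ⟨L, hL, hLsup⟩ := at0_proj ψ hψc
  obtain ⟨η, hη, hηA⟩ := at0_abscont (fun p => ψ p * S p) hψS
    (fun p => mul_nonneg (hψ0 p) (hS0 p)) L hL (fun p hp => by
      show ψ p * S p = 0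
      rw [hLsup p hp, zero_mul]) κ hκ
  refine ⟨η, hη, ?_⟩
  intro m χ x hχ1 hχ0 hχle hχs
  -- the products
  set g : Fin m → ℝ × ℝ → ℝ := fun q p => ψ p * χ q p.2 with hg
  have hg1 : ∀ q, ContDiff ℝ 1 (g q) := fun q => hψ1.mul ((hχ1 q).comp contDiff_snd)
  have hgc : ∀ q, HasCompactSupport (g q) := fun q => hψc.mul_right
  set G : Fin m → ℝ × ℝ → ℝ := fun q p => fderiv ℝ (g q) p (0, 1) with hG
  have hGcont : ∀ q, Continuous (G q) := fun q =>
    ((hg1 q).continuous_fderiv (by norm_num)).clm_apply continuous_const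
  have hGc : ∀ q, HasCompactSupport (G q) := fun q => (hgc q).fderiv_apply (𝕜 := ℝ) (0, 1)
  have hGint : ∀ q, Integrable (G q) := fun q => (hGcont q).integrable_of_hasCompactSupport (hGc q)
  have hfG : ∀ q, Integrable (fun p => f p * G q p) := by
    intro q
    refine Integrable.bdd_mul (c := K) (hGint q) hfm.aestronglyMeasurable ?_
    filter_upwards with p
    exact hfb p
  set v : Fin m → ℝ → ℝ := fun q θ => ∫ b, f (θ, b) * G q (θ, b) with hv
  have hvm : ∀ q, Measurable (v q) := by
    intro q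
    have : StronglyMeasurable (fun p : ℝ × ℝ => f p * G q p) :=
      (hfm.mul (hGcont q).measurable).stronglyMeasurable
    exact this.integral_prod_right.measurable
  have hvint : ∀ q, Integrable (v q) := by
    intro q
    have h1 := hfG q
    rw [Measure.volume_eq_prod] at h1
    exact h1.integral_prod_left
  obtain ⟨w, hwm, hw1, hwu, hwv⟩ := at0_select m v hvm
  obtain ⟨W, hWc, hW1, hWt⟩ := at0_mollify m w hwm hw1
  have hwq : ∀ q θ, |w q θ| ≤ 1 := fun q θ => le_trans
    (Finset.single_le_sum (f := fun q => |w q θ|) (fun q _ => abs_nonneg _) (Finset.mem_univ q))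
    (hw1 θ)
  have hWq : ∀ k q θ, |W k q θ| ≤ 1 := fun k q θ => le_trans
    (Finset.single_le_sum (f := fun q => |W k q θ|) (fun q _ => abs_nonneg _) (Finset.mem_univ q))
    (hW1 k θ)
  -- test functions
  have hkey : ∀ k, |∑ q, ∫ θ, W k q θ * v q θ| ≤
      (∫ p : ℝ × ℝ, (∑ q, |W k q p.1| * χ q p.2) * (ψ p * S p)) + ∫ p, ψ p ∂ν := by
    intro k
    set φ : ℝ × ℝ → ℝ := fun p => ∑ q, W k q p.1 * g q p with hφ
    have hφabs : ∀ p, |φ p| ≤ (∑ q, |W k q p.1| * χ q p.2) * ψ p := by
      intro p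
      rw [hφ]
      beta_reduce
      refine (Finset.abs_sum_le_sum_abs _ _).trans (le_of_eq ?_)
      rw [Finset.sum_mul]
      apply Finset.sum_congr rfl
      intro q _
      rw [hg]
      beta_reduce
      rw [abs_mul, abs_mul, abs_of_nonneg (hψ0 p), abs_of_nonneg (hχ0 q p.2)]
      ring
    have hsum1 : ∀ p : ℝ × ℝ, (∑ q, |W k q p.1| * χ q p.2) ≤ 1 := by
      intro p
      refine le_trans (Finset.sum_le_sum (fun q _ => ?_)) (hW1 k p.1)
      exact mul_le_of_le_one_right (abs_nonneg _) (hχle q p.2)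
    have hsum0 : ∀ p : ℝ × ℝ, 0 ≤ (∑ q, |W k q p.1| * χ q p.2) := fun p =>
      Finset.sum_nonneg (fun q _ => mul_nonneg (abs_nonneg _) (hχ0 q p.2))
    have hφψ : ∀ p, |φ p| ≤ ψ p := fun p =>
      (hφabs p).trans (mul_le_of_le_one_left (hψ0 p) (hsum1 p))
    have hφ1 : ContDiff ℝ 1 φ := by
      apply ContDiff.sum
      intro q _
      exact ((hWc k q).comp contDiff_fst).mul (hg1 q)
    have hφsupp : Function.support φ ⊆ Function.support ψ := by
      intro p hp hψp
      apply hp
      have := hφψ p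
      rw [hψp] at this
      exact abs_eq_zero.mp (le_antisymm this (abs_nonneg _))
    have hφts : tsupport φ ⊆ tsupport ψ := closure_mono hφsupp
    have hφc : HasCompactSupport φ := hψc.mono' (hφsupp.trans (subset_tsupport _))
    have hTF : TF r φ := ⟨hφ1, hφc, hφts.trans hψs⟩
    have hh := h φ hTF
    have hder : ∀ p, fderiv ℝ φ p (0, 1) = ∑ q, W k q p.1 * G q p := by
      intro p
      have h1 : ∀ q, HasFDerivAt (fun p : ℝ × ℝ => W k q p.1 * g q p)
          (W k q p.1 • fderiv ℝ (g q) p +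
            g q p • (deriv (W k q) p.1 • ContinuousLinearMap.fst ℝ ℝ ℝ)) p := by
        intro q
        have e1 : HasFDerivAt (fun p : ℝ × ℝ => W k q p.1)
            (deriv (W k q) p.1 • ContinuousLinearMap.fst ℝ ℝ ℝ) p := by
          have e0 : HasDerivAt (W k q) (deriv (W k q) p.1) p.1 :=
            (((hWc k q).differentiable (by norm_num)) p.1).hasDerivAt
          exact e0.comp_hasFDerivAt p hasFDerivAt_fst
        have e2 : HasFDerivAt (g q) (fderiv ℝ (g q) p) p :=
          (((hg1 q).differentiable (by norm_num)) p).hasFDerivAt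
        exact e1.mul e2
      have h2 : HasFDerivAt φ (∑ q, (W k q p.1 • fderiv ℝ (g q) p +
            g q p • (deriv (W k q) p.1 • ContinuousLinearMap.fst ℝ ℝ ℝ))) p := by
        have := HasFDerivAt.fun_sum (u := Finset.univ) (fun q _ => h1 q)
        exact this
      rw [h2.fderiv, sum_apply]
      apply Finset.sum_congr rfl
      intro q _
      simp [hG]
    have hlhs : ∫ p, f p * fderiv ℝ φ p (0, 1) = ∑ q, ∫ θ, W k q θ * v q θ := by
      have e1 : ∀ q, Integrable (fun p : ℝ × ℝ => W k q p.1 * (f p * G q p)) := by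
        intro q
        refine Integrable.bdd_mul (c := 1) (hfG q) ?_ ?_
        · exact (((hWc k q).continuous.comp continuous_fst).measurable).aestronglyMeasurable
        · filter_upwards with p
          exact hWq k q p.1
      have e2 : ∫ p, f p * fderiv ℝ φ p (0, 1) = ∑ q, ∫ p : ℝ × ℝ, W k q p.1 * (f p * G q p) := by
        rw [← integral_finsetSum _ (fun q _ => e1 q)]
        congr 1
        funext p
        rw [hder p, Finset.mul_sum]
        apply Finset.sum_congr rfl
        intro q _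
        ring
      rw [e2]
      apply Finset.sum_congr rfl
      intro q _
      have e3 := e1 q
      rw [Measure.volume_eq_prod] at e3
      rw [Measure.volume_eq_prod, integral_prod _ e3]
      congr 1
      funext θ
      rw [hv]
      beta_reduce
      rw [← integral_const_mul]
    rw [hlhs] at hh
    refine hh.trans (add_le_add ?_ ?_)
    · apply integral_mono_of_nonneg
      · filter_upwards with p
        exact mul_nonneg (abs_nonneg _) (hS0 p)
      · refine Integrable.bdd_mul (c := 1) hψS ?_ ?_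
        · refine Measurable.aestronglyMeasurable ?_
          apply Finset.measurable_sum
          intro q _
          exact (((hWc k q).continuous.comp continuous_fst).measurable.abs).mul
            (((hχ1 q).continuous.comp continuous_snd).measurable)
        · filter_upwards with p
          rw [Real.norm_eq_abs, abs_of_nonneg (hsum0 p)]
          exact hsum1 p
      · filter_upwards with p
        calc |φ p| * S p ≤ ((∑ q, |W k q p.1| * χ q p.2) * ψ p) * S p :=
              mul_le_mul_of_nonneg_right (hφabs p) (hS0 p)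
          _ = (∑ q, |W k q p.1| * χ q p.2) * (ψ p * S p) := by ring
    · apply integral_mono_of_nonneg
      · filter_upwards with p
        exact abs_nonneg _
      · exact hψ1.continuous.integrable_of_hasCompactSupport hψc
      · filter_upwards with p
        exact hφψ p
  -- limits
  have hlimL : Tendsto (fun k => |∑ q, ∫ θ, W k q θ * v q θ|) atTop
      (𝓝 |∑ q, ∫ θ, w q θ * v q θ|) := by
    apply Tendsto.abs
    apply tendsto_finsetSum
    intro q _
    apply tendsto_integral_of_dominated_convergence (fun θ => |v q θ|)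
    · intro k
      exact ((hWc k q).continuous.measurable.mul (hvm q)).aestronglyMeasurable
    · exact (hvint q).abs
    · intro k
      filter_upwards with θ
      rw [Real.norm_eq_abs, abs_mul]
      exact mul_le_of_le_one_left (abs_nonneg _) (hWq k q θ)
    · filter_upwards [hWt q] with θ hθ
      exact hθ.mul_const _
  have hlimR : Tendsto (fun k => (∫ p : ℝ × ℝ, (∑ q, |W k q p.1| * χ q p.2) * (ψ p * S p)))
      atTop (𝓝 (∫ p : ℝ × ℝ, (∑ q, |w q p.1| * χ q p.2) * (ψ p * S p))) := by
    apply tendsto_integral_of_dominated_convergence (fun p => ψ p * S p)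
    · intro k
      refine Measurable.aestronglyMeasurable ?_
      refine Measurable.mul ?_ (hψ1.continuous.measurable.mul hSm)
      apply Finset.measurable_sum
      intro q _
      exact (((hWc k q).continuous.comp continuous_fst).measurable.abs).mul
        (((hχ1 q).continuous.comp continuous_snd).measurable)
    · exact hψS
    · intro k
      filter_upwards with p
      have e1 : 0 ≤ ∑ q, |W k q p.1| * χ q p.2 :=
        Finset.sum_nonneg (fun q _ => mul_nonneg (abs_nonneg _) (hχ0 q p.2))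
      have e2 : ∑ q, |W k q p.1| * χ q p.2 ≤ 1 := by
        refine le_trans (Finset.sum_le_sum (fun q _ => ?_)) (hW1 k p.1)
        exact mul_le_of_le_one_right (abs_nonneg _) (hχle q p.2)
      rw [Real.norm_eq_abs, abs_mul, abs_of_nonneg e1,
        abs_of_nonneg (mul_nonneg (hψ0 p) (hS0 p))]
      exact mul_le_of_le_one_left (mul_nonneg (hψ0 p) (hS0 p)) e2
    · have hae : ∀ᵐ p : ℝ × ℝ, ∀ q, Tendsto (fun k => W k q p.1) atTop (𝓝 (w q p.1)) := by
        rw [ae_all_iff]
        intro q
        rw [Measure.volume_eq_prod]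
        exact Measure.quasiMeasurePreserving_fst.ae (hWt q)
      filter_upwards [hae] with p hp
      apply Tendsto.mul_const
      apply tendsto_finsetSum
      intro q _
      exact ((hp q).abs).mul_const _
  have hmain := le_of_tendsto_of_tendsto' hlimL (hlimR.add_const (∫ p, ψ p ∂ν)) hkey
  -- the set A
  set A : Set (ℝ × ℝ) := {p | ∃ q, w q p.1 ≠ 0 ∧ x q ≤ p.2 ∧ p.2 ≤ x q + η} with hA
  have hAm : MeasurableSet A := by
    have : A = ⋃ q, ({p : ℝ × ℝ | w q p.1 ≠ 0} ∩ ({p : ℝ × ℝ | x q ≤ p.2} ∩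
        {p : ℝ × ℝ | p.2 ≤ x q + η})) := by
      ext p
      simp [hA]
    rw [this]
    apply MeasurableSet.iUnion
    intro q
    refine MeasurableSet.inter ?_ (MeasurableSet.inter ?_ ?_)
    · exact (measurableSet_eq_fun ((hwm q).comp measurable_fst) measurable_const).compl
    · exact measurableSet_le measurable_const measurable_snd
    · exact measurableSet_le measurable_snd measurable_const
  have hAsec : ∀ θ, volume {b : ℝ | (θ, b) ∈ A} ≤ ENNReal.ofReal η := by
    intro θ
    by_cases hex : ∃ q, w q θ ≠ 0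
    · obtain ⟨q, hq⟩ := hex
      have hsub : {b : ℝ | (θ, b) ∈ A} ⊆ Icc (x q) (x q + η) := by
        intro b hb
        obtain ⟨q', hq', h1, h2⟩ := hb
        have := hwu θ q' q hq' hq
        subst this
        exact ⟨h1, h2⟩
      refine (measure_mono hsub).trans (le_of_eq ?_)
      rw [Real.volume_Icc]
      congr 1
      ring
    · have hemp : {b : ℝ | (θ, b) ∈ A} = ∅ := by
        ext b
        simp only [mem_ofPred_eq, mem_empty_iff_false, iff_false]
        rintro ⟨q, hq, -⟩
        exact hex ⟨q, hq⟩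
      rw [hemp, measure_empty]
      exact zero_le
  have hAint := hηA A hAm hAsec
  have hRle : (∫ p : ℝ × ℝ, (∑ q, |w q p.1| * χ q p.2) * (ψ p * S p)) ≤ κ := by
    refine le_trans ?_ hAint
    rw [← integral_indicator hAm]
    apply integral_mono_of_nonneg
    · filter_upwards with p
      exact mul_nonneg (Finset.sum_nonneg (fun q _ => mul_nonneg (abs_nonneg _) (hχ0 q p.2)))
        (mul_nonneg (hψ0 p) (hS0 p))
    · exact hψS.indicator hAm
    · filter_upwards with p
      by_cases hp : p ∈ A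
      · rw [indicator_of_mem hp]
        have e2 : ∑ q, |w q p.1| * χ q p.2 ≤ 1 := by
          refine le_trans (Finset.sum_le_sum (fun q _ => ?_)) (hw1 p.1)
          exact mul_le_of_le_one_right (abs_nonneg _) (hχle q p.2)
        exact mul_le_of_le_one_left (mul_nonneg (hψ0 p) (hS0 p)) e2
      · rw [indicator_of_notMem hp]
        have e3 : ∑ q, |w q p.1| * χ q p.2 = 0 := by
          apply Finset.sum_eq_zero
          intro q _
          by_cases hwz : w q p.1 = 0
          · rw [hwz, abs_zero, zero_mul]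
          · have : χ q p.2 = 0 := by
              by_contra hne
              exact hp ⟨q, hwz, (hχs q p.2 hne).1, (hχs q p.2 hne).2⟩
            rw [this, mul_zero]
        rw [e3, zero_mul]
  -- conclusion
  have hwvint : ∀ q, Integrable (fun θ => w q θ * v q θ) := by
    intro q
    refine Integrable.bdd_mul (c := 1) (hvint q) (hwm q).aestronglyMeasurable ?_
    filter_upwards with θ
    exact hwq q θ
  have hsumint : ∑ q, ∫ θ, w q θ * v q θ = ∫ θ, ∑ q, w q θ * v q θ := by
    rw [integral_finsetSum _ (fun q _ => hwvint q)]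
  have hfinal : ∫ θ, ∑ q, w q θ * v q θ ≤ (∫ p, ψ p ∂ν) + κ := by
    rw [← hsumint]
    have := le_abs_self (∑ q, ∫ θ, w q θ * v q θ)
    linarith
  calc ∫⁻ θ, ⨆ q, ENNReal.ofReal
          |∫ b, f (θ, b) * fderiv ℝ (fun p : ℝ × ℝ => ψ p * χ q p.2) (θ, b) (0, 1)|
      = ∫⁻ θ, ENNReal.ofReal (∑ q, w q θ * v q θ) := by
        apply lintegral_congr
        intro θ
        exact (hwv θ).1
    _ = ENNReal.ofReal (∫ θ, ∑ q, w q θ * v q θ) := by
        rw [ofReal_integral_eq_lintegral_ofReal (integrable_finsetSum _ (fun q _ => hwvint q))]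
        filter_upwards with θ
        exact (hwv θ).2
    _ ≤ ENNReal.ofReal ((∫ p, ψ p ∂ν) + κ) := ENNReal.ofReal_le_ofReal hfinal
    _ = ∫⁻ p, ENNReal.ofReal (ψ p) ∂ν + ENNReal.ofReal κ := by
        rw [ENNReal.ofReal_add (integral_nonneg hψ0) hκ.le]
        congr 1
        rw [ofReal_integral_eq_lintegral_ofReal
          (hψ1.continuous.integrable_of_hasCompactSupport hψc)]
        filter_upwards with p
        exact hψ0 p

theorem at0_not_integrable (F : ℝ × ℝ → ℝ) (hF : Integrable F) (c : ℝ) (hc : c ≠ 0) :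
    ¬ Integrable (fun p : ℝ × ℝ => F p + c) := by
  intro h
  have h2 : Integrable (fun _ : ℝ × ℝ => c) (volume : Measure (ℝ × ℝ)) := by
    have := h.sub hF
    refine this.congr ?_
    filter_upwards with p
    simp
  rw [integrable_const_iff] at h2
  rcases h2 with h2 | h2
  · exact hc h2
  · have h3 := h2.measure_univ_lt_top
    rw [Measure.volume_eq_prod, Measure.prod_apply MeasurableSet.univ] at h3
    simp at h3

/-- AT0 -/
theorem at0 (r K : ℝ) (hr : 0 < r)
    (f : ℝ × ℝ → ℝ) (hfm : Measurable f) (hfb : ∀ p, |f p| ≤ K)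
    (S : ℝ × ℝ → ℝ) (hS0 : ∀ p, 0 ≤ S p) (hSm : Measurable S) (hS : LocallyIntegrable S)
    (ν : Measure (ℝ × ℝ)) [IsFiniteMeasureOnCompacts ν]
    (h : ∀ φ, TF r φ → |∫ p, f p * fderiv ℝ φ p (0, 1)| ≤ (∫ p, |φ p| * S p) + ∫ p, |φ p| ∂ν)
    (ψ : ℝ × ℝ → ℝ) (hψ : TF r ψ) (hψ0 : ∀ p, 0 ≤ ψ p) (κ : ℝ) (hκ : 0 < κ) :
    ∃ η > 0, ∀ (m : ℕ) (χ : Fin m → ℝ → ℝ) (x : Fin m → ℝ),
      (∀ q, ContDiff ℝ 1 (χ q)) → (∀ q b, 0 ≤ χ q b) → (∀ q b, χ q b ≤ 1) →
      (∀ q b, χ q b ≠ 0 → x q ≤ b ∧ b ≤ x q + η) →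
      ∫⁻ θ, ⨆ q, ENNReal.ofReal
          |∫ b, f (θ, b) * fderiv ℝ (fun p : ℝ × ℝ => ψ p * χ q p.2) (θ, b) (0, 1)|
        ≤ ∫⁻ p, ENNReal.ofReal (ψ p) ∂ν + ENNReal.ofReal κ := by
  exact at0_fixed r K hr f hfm hfb S hS0 hSm hS ν h ψ hψ hψ0 κ hκ

end Pool.Light
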