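import Pool.Agent.Helper638.Light.Defs
import Pool.Agent.Helper638.Light.P_gap
import Pool.Agent.Helper638.Light.P_basics
import Pool.Agent.Helper638.Light.P_T_of_hits

set_option autoImplicit false

open MeasureTheory Set Filter Topology

namespace Pool.Light


variable {n : ℕ}

theorem sig_bounds_gf {s c t : ℝ} (hc : 0 ≤ c) (ht : 0 < t) (hs : c + t ≤ s) :
    0 ≤ Cfg.gf s c ∧ Cfg.gf s c ≤ c := by
  have h1 : 0 < 2 * s - c := by linarith
  unfold Cfg.gf
  constructor
  · apply div_nonneg _ h1.le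
    exact mul_nonneg (by linarith) hc
  · rw [div_le_iff₀ h1]
    have : 0 ≤ c * (s - c) := mul_nonneg hc (by linarith)
    nlinarith

theorem sig_bounds (C : Cfg n) (N : ℕ) (l : St n) (hl : l ∈ C.M) :
    C.hc l.1 l.2.2 + C.tau ≤ C.sig N l ∧ C.sig N l ≤ C.K := by
  classical
  have hcr : C.hc l.1 l.2.2 + C.tau ≤ C.K := by
    have h1 : C.hc l.1 l.2.2 ≤ C.r l.1 := by
      unfold Cfg.hc
      apply Real.sqrt_le_iff.2
      refine ⟨(C.hr l.1).le, ?_⟩
      have := sq_nonneg l.2.2
      linarith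
    have := C.hK2 l.1
    linarith
  induction N generalizing l with
  | zero => exact ⟨hcr, le_rfl⟩
  | succ N ih =>
    by_cases h : ∃ j, C.Hits l.1 j l.2.1 l.2.2
    · obtain ⟨i, θ, b⟩ := l
      obtain ⟨j, hj⟩ := h
      have hT := T_of_hits C hj
      have hij : i ≠ j := hj.1
      have hdv : 0 < C.dv i j θ := hj.2.1
      have hbp : |C.bp i j θ b| < C.r j := hj.2.2.1
      have hTM : C.T (i, θ, b) ∈ C.M := by
        rw [hT]
        exact hbp
      have hcr' : C.hc (C.T (i, θ, b)).1 (C.T (i, θ, b)).2.2 + C.tau ≤ C.K := by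
        have h1 : C.hc (C.T (i, θ, b)).1 (C.T (i, θ, b)).2.2 ≤ C.r (C.T (i, θ, b)).1 := by
          unfold Cfg.hc
          apply Real.sqrt_le_iff.2
          refine ⟨(C.hr _).le, ?_⟩
          have := sq_nonneg (C.T (i, θ, b)).2.2
          linarith
        have := C.hK2 (C.T (i, θ, b)).1
        linarith
      have hih := (ih (C.T (i, θ, b)) hTM hcr').1
      have hgf : 0 ≤ Cfg.gf (C.sig N (C.T (i, θ, b)))
            (C.hc (C.T (i, θ, b)).1 (C.T (i, θ, b)).2.2) ∧
          Cfg.gf (C.sig N (C.T (i, θ, b))) (C.hc (C.T (i, θ, b)).1 (C.T (i, θ, b)).2.2) ≤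
            C.hc (C.T (i, θ, b)).1 (C.T (i, θ, b)).2.2 :=
        sig_bounds_gf (Real.sqrt_nonneg _) C.htau hih
      have hsig : C.sig (N + 1) (i, θ, b) = C.dv i (C.T (i, θ, b)).1 θ -
          Cfg.gf (C.sig N (C.T (i, θ, b))) (C.hc (C.T (i, θ, b)).1 (C.T (i, θ, b)).2.2) := by
        show (if ∃ j, C.Hits i j θ b then _ else _) = _
        rw [if_pos ⟨j, hj⟩]
      rw [hsig]
      have hT1 : (C.T (i, θ, b)).1 = j := by rw [hT]
      have hT2 : (C.T (i, θ, b)).2.2 = C.bp i j θ b := by rw [hT]; rfl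
      rw [hT1, hT2] at hgf ⊢
      have hgap := gap C (Ne.symm hij) (θ := θ) (b := b) (le_of_lt hl) hbp.le
      rw [abs_of_pos hdv] at hgap
      have hK := (basics C i j θ b).1
      rw [abs_of_pos hdv] at hK
      constructor
      · show C.hc i b + C.tau ≤ _
        linarith [hgf.2]
      · linarith [hgf.1]
    · have hsig : C.sig (N + 1) l = C.K := by
        show (if ∃ j, C.Hits l.1 j l.2.1 l.2.2 then _ else _) = _
        rw [if_neg h]
      rw [hsig]
      exact ⟨hcr, le_rfl⟩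

end Pool.Light
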