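import Pool.Agent.Helper638.Light.Defs
import Pool.Agent.Helper638.Light.P_gap
import Pool.Agent.Helper638.Light.P_basics
import Pool.Agent.Helper638.Light.P_hits_unique
import Pool.Agent.Helper638.Light.P_T_of_hits
import Pool.Agent.Helper638.Light.P_Tsmooth
import Pool.Agent.Helper638.Light.P_chainT

set_option autoImplicit false

open MeasureTheory Set Filter Topology

namespace Pool.Light


variable {n : ℕ}

/-- one step of the recursion for `σ` and its derivatives. -/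
theorem sig_step (C : Cfg n) {i j : Fin n} {p : ℝ × ℝ} (hp : |p.2| < C.r i)
    (h : C.Hits i j p.1 p.2) (f : ℝ × ℝ → ℝ)
    (hf : ContDiffAt ℝ 1 f (C.Tj i j p.1 p.2)) (s' c' b' Y' D' : ℝ)
    (hs' : s' = f (C.Tj i j p.1 p.2)) (hb' : b' = C.bp i j p.1 p.2) (hc' : c' = C.hc j b')
    (hsc : c' + C.tau ≤ s') (hY : Y' = fderiv ℝ f (C.Tj i j p.1 p.2) (1, -s'))
    (hD : D' = fderiv ℝ f (C.Tj i j p.1 p.2) (0, 1)) :
    ContDiffAt ℝ 1 (fun q : ℝ × ℝ => C.dv i j q.1 -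
      Cfg.gf (f (C.Tj i j q.1 q.2)) (C.hc j (C.Tj i j q.1 q.2).2)) p ∧
    fderiv ℝ (fun q : ℝ × ℝ => C.dv i j q.1 -
      Cfg.gf (f (C.Tj i j q.1 q.2)) (C.hc j (C.Tj i j q.1 q.2).2)) p
        (1, -(C.dv i j p.1 - Cfg.gf s' c')) =
      C.dn i j p.1 - (c' / (2 * s' - c')) ^ 3 * Y' + 2 * b' * (s' / (2 * s' - c')) ^ 3 ∧
    fderiv ℝ (fun q : ℝ × ℝ => C.dv i j q.1 -
      Cfg.gf (f (C.Tj i j q.1 q.2)) (C.hc j (C.Tj i j q.1 q.2).2)) p (0, 1) =
      -(2 * c' / (2 * s' - c') ^ 2) * Y' - (c' / (2 * s' - c')) * D' +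
        2 * s' ^ 2 * b' / ((2 * s' - c') ^ 2 * c') := by
  have htau := C.htau
  obtain ⟨-, hTs, hTd⟩ := Tsmooth C hp h
  have hb2 : (C.Tj i j p.1 p.2).2 = b' := by rw [hb']; rfl
  have hbr : |b'| < C.r j := by rw [hb']; exact h.2.2.1
  have hrad : 0 < (C.r j) ^ 2 - b' ^ 2 := by
    have h1 := sq_lt_sq' (abs_lt.mp hbr).1 (abs_lt.mp hbr).2
    linarith
  have hcpos : 0 < c' := by
    rw [hc']
    exact Real.sqrt_pos.mpr hrad
  have hspos : 0 < s' := by linarith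
  have hden : 0 < 2 * s' - c' := by linarith
  -- smoothness
  have hA : ContDiffAt ℝ 1 (fun q : ℝ × ℝ => f (C.Tj i j q.1 q.2)) p :=
    ContDiffAt.comp p (g := f) (f := fun q : ℝ × ℝ => C.Tj i j q.1 q.2) hf hTs
  have hT2 : ContDiffAt ℝ 1 (fun q : ℝ × ℝ => (C.Tj i j q.1 q.2).2) p := hTs.snd
  have hB : ContDiffAt ℝ 1 (fun q : ℝ × ℝ => C.hc j (C.Tj i j q.1 q.2).2) p := by
    unfold Cfg.hc
    apply ContDiffAt.sqrt
    · exact contDiffAt_const.sub (hT2.pow 2)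
    · rw [hb2]
      exact hrad.ne'
  have hdvs : ContDiffAt ℝ 1 (fun q : ℝ × ℝ => C.dv i j q.1) p := by
    unfold Cfg.dv
    fun_prop
  have hG : ContDiffAt ℝ 1 (fun q : ℝ × ℝ => C.dv i j q.1 -
      Cfg.gf (f (C.Tj i j q.1 q.2)) (C.hc j (C.Tj i j q.1 q.2).2)) p := by
    apply hdvs.sub
    unfold Cfg.gf
    apply ContDiffAt.div
    · exact hA.mul hB
    · exact (contDiffAt_const.mul hA).sub hB
    · rw [hb2, ← hs', ← hc']
      exact hden.ne'
  refine ⟨hG, ?_⟩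
  -- general directional derivative
  have hAd : HasFDerivAt (fun q : ℝ × ℝ => f (C.Tj i j q.1 q.2))
      (fderiv ℝ (fun q : ℝ × ℝ => f (C.Tj i j q.1 q.2)) p) p :=
    (hA.differentiableAt one_ne_zero).hasFDerivAt
  have hTd2 : HasFDerivAt (fun q : ℝ × ℝ => C.Tj i j q.1 q.2)
      (fderiv ℝ (fun q : ℝ × ℝ => C.Tj i j q.1 q.2) p) p :=
    (hTs.differentiableAt one_ne_zero).hasFDerivAt
  have hGd : HasFDerivAt (fun q : ℝ × ℝ => C.dv i j q.1 -
      Cfg.gf (f (C.Tj i j q.1 q.2)) (C.hc j (C.Tj i j q.1 q.2).2))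
      (fderiv ℝ (fun q : ℝ × ℝ => C.dv i j q.1 -
      Cfg.gf (f (C.Tj i j q.1 q.2)) (C.hc j (C.Tj i j q.1 q.2).2)) p) p :=
    (hG.differentiableAt one_ne_zero).hasFDerivAt
  have hdvd : HasDerivAt (fun t => C.dv i j t) (C.dn i j p.1) p.1 :=
    (basics C i j p.1 p.2).2.2.2.2.2.2.2.2.2.2.1
  have key : ∀ u : ℝ × ℝ, fderiv ℝ (fun q : ℝ × ℝ => C.dv i j q.1 -
      Cfg.gf (f (C.Tj i j q.1 q.2)) (C.hc j (C.Tj i j q.1 q.2).2)) p u =
      C.dn i j p.1 * u.1 - (-(c' / (2 * s' - c')) ^ 2 *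
        fderiv ℝ (fun q : ℝ × ℝ => f (C.Tj i j q.1 q.2)) p u +
        2 * s' ^ 2 / (2 * s' - c') ^ 2 * (-(b' / c') * (u.2 + C.dv i j p.1 * u.1))) := by
    intro u
    have hγ : HasDerivAt (fun t : ℝ => p + t • u) u 0 := by
      have h1 := ((hasDerivAt_id (0 : ℝ)).smul_const u).const_add p
      simpa using h1
    have hγ0 : p = (fun t : ℝ => p + t • u) 0 := by simp
    have hγ1 : HasDerivAt (fun t : ℝ => (p + t • u).1) u.1 0 := by
      have h1 := ((hasDerivAt_id (0 : ℝ)).mul_const u.1).const_add p.1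
      simpa using h1
    have e1 : HasDerivAt (fun t : ℝ => C.dv i j (p + t • u).1) (C.dn i j p.1 * u.1) 0 := by
      have h0 : HasDerivAt (fun t => C.dv i j t) (C.dn i j p.1) ((fun t : ℝ => (p + t • u).1) 0) := by
        simpa using hdvd
      exact h0.comp (0 : ℝ) hγ1
    have e2 : HasDerivAt (fun t : ℝ => f (C.Tj i j (p + t • u).1 (p + t • u).2))
        (fderiv ℝ (fun q : ℝ × ℝ => f (C.Tj i j q.1 q.2)) p u) 0 :=
      hAd.comp_hasDerivAt_of_eq (0 : ℝ) hγ hγ0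
    have e3 : HasDerivAt (fun t : ℝ => (C.Tj i j (p + t • u).1 (p + t • u).2).2)
        (u.2 + C.dv i j p.1 * u.1) 0 := by
      have h1 := hTd2.snd.comp_hasDerivAt_of_eq (0 : ℝ) hγ hγ0
      have h2 : ((ContinuousLinearMap.snd ℝ ℝ ℝ).comp
          (fderiv ℝ (fun q : ℝ × ℝ => C.Tj i j q.1 q.2) p)) u = u.2 + C.dv i j p.1 * u.1 := by
        rw [ContinuousLinearMap.comp_apply, hTd]
        rfl
      rw [h2] at h1
      exact h1
    have v2 : (C.Tj i j (p + (0 : ℝ) • u).1 (p + (0 : ℝ) • u).2).2 = b' := by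
      rw [zero_smul, add_zero]; exact hb2
    have e4 : HasDerivAt (fun t : ℝ => C.hc j (C.Tj i j (p + t • u).1 (p + t • u).2).2)
        (-(b' / c') * (u.2 + C.dv i j p.1 * u.1)) 0 := by
      unfold Cfg.hc
      have h1 := (e3.fun_pow 2).const_sub ((C.r j) ^ 2)
      have h2 := h1.sqrt (by
        rw [v2]; exact hrad.ne')
      convert h2 using 1
      rw [v2]
      have h3 : Real.sqrt ((C.r j) ^ 2 - b' ^ 2) = c' := by rw [hc']; rfl
      rw [h3]
      field_simp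
      push_cast
      ring
    have v1 : f (C.Tj i j (p + (0 : ℝ) • u).1 (p + (0 : ℝ) • u).2) = s' := by
      rw [zero_smul, add_zero]; exact hs'.symm
    have v3 : C.hc j (C.Tj i j (p + (0 : ℝ) • u).1 (p + (0 : ℝ) • u).2).2 = c' := by
      rw [v2]; exact hc'.symm
    have e5 : HasDerivAt (fun t : ℝ => C.dv i j (p + t • u).1 -
        Cfg.gf (f (C.Tj i j (p + t • u).1 (p + t • u).2))
          (C.hc j (C.Tj i j (p + t • u).1 (p + t • u).2).2))
        (C.dn i j p.1 * u.1 - (-(c' / (2 * s' - c')) ^ 2 *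
        fderiv ℝ (fun q : ℝ × ℝ => f (C.Tj i j q.1 q.2)) p u +
        2 * s' ^ 2 / (2 * s' - c') ^ 2 * (-(b' / c') * (u.2 + C.dv i j p.1 * u.1)))) 0 := by
      unfold Cfg.gf
      apply e1.sub
      have h1 := e2.fun_mul e4
      have h2 := (e2.const_mul 2).fun_sub e4
      have h3 := h1.fun_div h2 (by
        rw [v1, v3]; exact hden.ne')
      refine h3.congr_deriv ?_
      rw [v1, v3]
      field_simp
      ring
    have e6 := hGd.comp_hasDerivAt_of_eq (0 : ℝ) hγ hγ0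
    exact e6.unique e5
  have hlt : C.hc j (C.bp i j p.1 p.2) < 2 * s' := by
    rw [← hb', ← hc']; linarith
  obtain ⟨c1, c2⟩ := chainT C hp h f (hf.differentiableAt one_ne_zero) s' hlt
  rw [← hb', ← hc', ← hY] at c1 c2
  rw [← hD] at c2
  constructor
  · rw [key, c1]
    simp only [Cfg.gf]
    field_simp
    ring
  · rw [key, c2]
    field_simp
    ring

end Pool.Light
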