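import Pool.Agent.Helper638.Light.Defs
import Pool.Agent.Helper638.Light.P_gap
import Pool.Agent.Helper638.Light.P_basics
import Pool.Agent.Helper638.Light.P_hits_unique
import Pool.Agent.Helper638.Light.P_T_of_hits
import Pool.Agent.Helper638.Light.P_om_facts
import Pool.Agent.Helper638.Light.P_meas
import Pool.Agent.Helper638.Light.P_sig_bounds
import Pool.Agent.Helper638.Light.P_Tsmooth
import Pool.Agent.Helper638.Light.P_sig_deriv
import Pool.Agent.Helper638.Light.P_cut_facts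
import Pool.Agent.Helper638.Light.P_intZero
import Pool.Agent.Helper638.Light.P_Sr_locint

set_option autoImplicit false

open MeasureTheory Set Filter Topology

namespace Pool.Light


variable {n : ℕ}

theorem fluxEps_abs (W : Set (ℝ × ℝ)) (φ κ G s : ℝ × ℝ → ℝ) (hφ : ContDiff ℝ 1 φ)
    (hφc : HasCompactSupport φ)
    (hz : ∀ p, p ∉ W → (φ =ᶠ[𝓝 p] (fun _ => 0) ∨ κ =ᶠ[𝓝 p] (fun _ => 0)))
    (hκ : ∀ p ∈ W, ContDiffAt ℝ 1 κ p) (hG : ∀ p ∈ W, ContDiffAt ℝ 1 G p)
    (hs : ∀ p ∈ W, ContDiffAt ℝ 1 s p)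
    (Q : ℝ × ℝ → ℝ) (hQ : Integrable Q) (hQ0 : ∀ p, 0 ≤ Q p)
    (hb : ∀ᵐ p : ℝ × ℝ, p ∈ W → |φ p * (κ p * fderiv ℝ G p (1, -s p) +
      G p * fderiv ℝ κ p (1, -s p) - κ p * G p * fderiv ℝ s p (0, 1))| ≤ Q p) :
    |∫ p, κ p * G p * fderiv ℝ φ p (1, -s p)| ≤ ∫ p, Q p := by
  set F : ℝ × ℝ → ℝ := fun q => κ q * G q * φ q with hFdef
  set H : ℝ × ℝ → ℝ := fun q => s q * F q with hHdef
  set I : ℝ × ℝ → ℝ := fun p => κ p * G p * fderiv ℝ φ p (1, -s p) with hIdef
  have hFz : ∀ p, p ∉ W → F =ᶠ[𝓝 p] (fun _ => 0) := by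
    intro p hp
    rcases hz p hp with h | h
    · filter_upwards [h] with q hq
      simp [hFdef, hq]
    · filter_upwards [h] with q hq
      simp [hFdef, hq]
  have hHz : ∀ p, p ∉ W → H =ᶠ[𝓝 p] (fun _ => 0) := by
    intro p hp
    filter_upwards [hFz p hp] with q hq
    simp [hHdef, hq]
  have hIz : ∀ p, p ∉ W → I =ᶠ[𝓝 p] (fun _ => 0) := by
    intro p hp
    rcases hz p hp with h | h
    · filter_upwards [h.fderiv (𝕜 := ℝ)] with q hq
      simp [hIdef, hq]
    · filter_upwards [h] with q hq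
      simp [hIdef, hq]
  have hF1 : ContDiff ℝ 1 F := by
    rw [contDiff_iff_contDiffAt]
    intro p
    by_cases hp : p ∈ W
    · exact ((hκ p hp).mul (hG p hp)).mul hφ.contDiffAt
    · exact contDiffAt_const.congr_of_eventuallyEq (hFz p hp)
  have hH1 : ContDiff ℝ 1 H := by
    rw [contDiff_iff_contDiffAt]
    intro p
    by_cases hp : p ∈ W
    · exact (hs p hp).mul hF1.contDiffAt
    · exact contDiffAt_const.congr_of_eventuallyEq (hHz p hp)
  have hFc : HasCompactSupport F := by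
    refine hφc.mono fun p hp => ?_
    rw [Function.mem_support] at hp ⊢
    exact fun h => hp (by simp [hFdef, h])
  have hHc : HasCompactSupport H := by
    refine hFc.mono fun p hp => ?_
    rw [Function.mem_support] at hp ⊢
    exact fun h => hp (by simp [hHdef, h])
  have hIc : HasCompactSupport I := by
    refine (hφc.fderiv ℝ).mono fun p hp => ?_
    rw [Function.mem_support] at hp ⊢
    exact fun h => hp (by simp [hIdef, h])
  have hdφ : Continuous fun p => fderiv ℝ φ p := hφ.continuous_fderiv one_ne_zero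
  have hI1 : Continuous I := by
    rw [continuous_iff_continuousAt]
    intro p
    by_cases hp : p ∈ W
    · have h1 : ContinuousAt (fun p => κ p * G p) p :=
        (hκ p hp).continuousAt.mul (hG p hp).continuousAt
      have h2 : ContinuousAt (fun p => ((1 : ℝ), -s p)) p :=
        continuousAt_const.prodMk (hs p hp).continuousAt.neg
      exact h1.mul (hdφ.continuousAt.clm_apply h2)
    · exact (continuousAt_const (y := (0:ℝ))).congr (hIz p hp).symm
  have hdF : Continuous fun p => fderiv ℝ F p (1, 0) :=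
    (hF1.continuous_fderiv one_ne_zero).clm_apply continuous_const
  have hdH : Continuous fun p => fderiv ℝ H p (0, 1) :=
    (hH1.continuous_fderiv one_ne_zero).clm_apply continuous_const
  have iF : Integrable fun p => fderiv ℝ F p (1, 0) :=
    hdF.integrable_of_hasCompactSupport (hFc.fderiv_apply ℝ _)
  have iH : Integrable fun p => fderiv ℝ H p (0, 1) :=
    hdH.integrable_of_hasCompactSupport (hHc.fderiv_apply ℝ _)
  have iI : Integrable I := hI1.integrable_of_hasCompactSupport hIc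
  set R : ℝ × ℝ → ℝ := fun p => (fderiv ℝ F p (1, 0) - fderiv ℝ H p (0, 1)) - I p with hRdef
  have iR : Integrable R := (iF.sub iH).sub iI
  have hRz : ∀ p, p ∉ W → R p = 0 := by
    intro p hp
    have h1 : fderiv ℝ F p = 0 := by
      rw [(hFz p hp).fderiv_eq]; simp
    have h2 : fderiv ℝ H p = 0 := by
      rw [(hHz p hp).fderiv_eq]; simp
    have h3 : I p = 0 := (hIz p hp).self_of_nhds
    simp [hRdef, h1, h2, h3]
  have hRW : ∀ p, p ∈ W → R p = φ p * (κ p * fderiv ℝ G p (1, -s p) +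
      G p * fderiv ℝ κ p (1, -s p) - κ p * G p * fderiv ℝ s p (0, 1)) := by
    intro p hp
    have dκ : HasFDerivAt κ (fderiv ℝ κ p) p := ((hκ p hp).differentiableAt one_ne_zero).hasFDerivAt
    have dG : HasFDerivAt G (fderiv ℝ G p) p := ((hG p hp).differentiableAt one_ne_zero).hasFDerivAt
    have ds : HasFDerivAt s (fderiv ℝ s p) p := ((hs p hp).differentiableAt one_ne_zero).hasFDerivAt
    have dφ : HasFDerivAt φ (fderiv ℝ φ p) p :=
      (hφ.contDiffAt.differentiableAt one_ne_zero).hasFDerivAt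
    have dF := (dκ.mul dG).mul dφ
    have dF' : HasFDerivAt F _ p := dF
    have dH := ds.mul dF'
    have dH' : HasFDerivAt H _ p := dH
    have e1 : ∀ L : ℝ × ℝ →L[ℝ] ℝ, L (1, -s p) = L (1, 0) - s p * L (0, 1) := by
      intro L
      have : ((1 : ℝ), -s p) = (1, 0) - s p • ((0 : ℝ), (1 : ℝ)) := by
        ext <;> simp
      rw [this, map_sub, map_smul, smul_eq_mul]
    simp only [hRdef, hIdef]
    rw [dF'.fderiv, dH'.fderiv, e1 (fderiv ℝ φ p), e1 (fderiv ℝ G p), e1 (fderiv ℝ κ p)]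
    simp [hFdef]
    ring
  have hint : ∫ p, R p = -∫ p, I p := by
    have h1 : ∫ p, R p = ((∫ p, fderiv ℝ F p (1, 0)) - ∫ p, fderiv ℝ H p (0, 1)) - ∫ p, I p := by
      have a1 := integral_sub iF iH
      have a2 := integral_sub (iF.sub iH) iI
      exact a2.trans (congrArg (fun x => x - ∫ p, I p) a1)
    rw [h1, intZero F hF1 hFc, intZero H hH1 hHc]
    ring
  have h2 : |∫ p, I p| = |∫ p, R p| := by rw [hint, abs_neg]
  rw [h2]
  refine (abs_integral_le_integral_abs).trans ?_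
  refine integral_mono_ae iR.abs hQ ?_
  filter_upwards [hb] with p hp
  by_cases hW : p ∈ W
  · show |R p| ≤ Q p
    rw [hRW p hW]
    exact hp hW
  · show |R p| ≤ Q p
    rw [hRz p hW, abs_zero]
    exact hQ0 p

theorem fluxEps_hc_pos (C : Cfg n) {i : Fin n} {b : ℝ} (hb : |b| < C.r i) :
    0 < (C.r i) ^ 2 - b ^ 2 ∧ 0 < C.hc i b := by
  have h1 : 0 < (C.r i) ^ 2 - b ^ 2 := by
    have := abs_lt.1 hb
    nlinarith
  exact ⟨h1, Real.sqrt_pos.2 h1⟩

theorem fluxEps_hc_deriv (C : Cfg n) {i : Fin n} {p : ℝ × ℝ} (hb : |p.2| < C.r i) :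
    ContDiffAt ℝ 1 (fun q : ℝ × ℝ => C.hc i q.2) p ∧
    ∀ u : ℝ × ℝ, fderiv ℝ (fun q : ℝ × ℝ => C.hc i q.2) p u = -(p.2 / C.hc i p.2) * u.2 := by
  obtain ⟨h1, h2⟩ := fluxEps_hc_pos C hb
  constructor
  · unfold Cfg.hc
    refine ContDiffAt.sqrt ?_ h1.ne'
    fun_prop
  · intro u
    have h3 : HasDerivAt (fun b : ℝ => Real.sqrt ((C.r i) ^ 2 - b ^ 2))
        ((-(2 * p.2)) / (2 * Real.sqrt ((C.r i) ^ 2 - p.2 ^ 2))) p.2 := by
      have h4 : HasDerivAt (fun b : ℝ => (C.r i) ^ 2 - b ^ 2) (-(2 * p.2)) p.2 := by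
        have := (hasDerivAt_pow 2 p.2).const_sub ((C.r i) ^ 2)
        simpa using this
      exact h4.sqrt h1.ne'
    have h5 : HasFDerivAt (fun q : ℝ × ℝ => C.hc i q.2) _ p :=
      h3.comp_hasFDerivAt p (hasFDerivAt_snd (𝕜 := ℝ) (p := p))
    rw [h5.fderiv]
    simp only [_root_.smul_apply, ContinuousLinearMap.coe_snd', smul_eq_mul]
    unfold Cfg.hc
    rw [Cfg.hc] at h2
    field_simp

theorem fluxEps_G (C : Cfg n) (e : Bool) {i : Fin n} {p : ℝ × ℝ} (hp : |p.2| < C.r i)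
    (s : ℝ × ℝ → ℝ) (hs : ContDiffAt ℝ 1 s p) (h1 : C.hc i p.2 + C.tau ≤ s p)
    (A : ℝ) (hA : 0 < A) (h3 : |fderiv ℝ s p (1, -s p)| ≤ A) :
    ContDiffAt ℝ 1 (fun q => Cfg.gw e (s q) (C.hc i q.2)) p ∧
    |fderiv ℝ (fun q => Cfg.gw e (s q) (C.hc i q.2)) p (1, -s p)| ≤
      (2 * C.K + A / C.tau) * (1 + 1 / C.hc i p.2) ∧
    0 ≤ Cfg.gw e (s p) (C.hc i p.2) ∧ Cfg.gw e (s p) (C.hc i p.2) ≤ 1 := by
  obtain ⟨h0, hc0⟩ := fluxEps_hc_pos C hp
  obtain ⟨hcd, hcf⟩ := fluxEps_hc_deriv C hp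
  have hτ := C.htau
  have hK : C.r i ≤ C.K := by have := C.hK2 i; linarith
  have hr := C.hr i
  have hK0 : 0 < C.K := lt_of_lt_of_le hr hK
  cases e with
  | false =>
    have e1 : (fun q : ℝ × ℝ => Cfg.gw false (s q) (C.hc i q.2)) = fun _ => (1 : ℝ) := by
      funext q; simp [Cfg.gw]
    refine ⟨?_, ?_, ?_, ?_⟩
    · rw [e1]; exact contDiffAt_const
    · rw [e1]; simp only [fderiv_fun_const, Pi.zero_apply, _root_.zero_apply, abs_zero]
      positivity
    · simp [Cfg.gw]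
    · simp [Cfg.gw]
  | true =>
    have e1 : (fun q : ℝ × ℝ => Cfg.gw true (s q) (C.hc i q.2)) =
        fun q => C.hc i q.2 * (2 * s q - C.hc i q.2)⁻¹ := by
      funext q; simp [Cfg.gw, div_eq_mul_inv]
    have e2 : Cfg.gw true (s p) (C.hc i p.2) = C.hc i p.2 * (2 * s p - C.hc i p.2)⁻¹ :=
      congrFun e1 p
    have hd : 0 < 2 * s p - C.hc i p.2 := by linarith
    have hcdW : ContDiffAt ℝ 1 (fun q : ℝ × ℝ => 2 * s q - C.hc i q.2) p :=
      (contDiffAt_const.mul hs).sub hcd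
    refine ⟨?_, ?_, ?_, ?_⟩
    · rw [e1]
      exact hcd.mul (hcdW.inv hd.ne')
    · have ds : HasFDerivAt s (fderiv ℝ s p) p := (hs.differentiableAt one_ne_zero).hasFDerivAt
      have dc : HasFDerivAt (fun q : ℝ × ℝ => C.hc i q.2)
          (fderiv ℝ (fun q : ℝ × ℝ => C.hc i q.2) p) p :=
        (hcd.differentiableAt one_ne_zero).hasFDerivAt
      have dd : HasFDerivAt (fun q : ℝ × ℝ => 2 * s q - C.hc i q.2) _ p :=
        (ds.const_mul 2).fun_sub dc
      have di := (hasDerivAt_inv hd.ne').comp_hasFDerivAt p dd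
      have dG := dc.mul di
      have dG' : HasFDerivAt (fun q => C.hc i q.2 * (2 * s q - C.hc i q.2)⁻¹) _ p := dG
      rw [e1, dG'.fderiv]
      simp only [Function.comp_apply, _root_.add_apply,
        _root_.smul_apply, _root_.sub_apply, smul_eq_mul, hcf]
      generalize fderiv ℝ s p (1, -s p) = Y at *
      generalize C.hc i p.2 = c at *
      have hb := abs_lt.1 hp
      have hbK : |p.2| ≤ C.K := hp.le.trans hK
      generalize p.2 = b at *
      generalize s p = σ at *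
      generalize C.K = K at *
      generalize C.tau = τ at *
      have hσ : 0 < σ := by linarith
      have key : c * (-((2 * σ - c) ^ 2)⁻¹ * (2 * Y - -(b / c) * -σ)) +
          (2 * σ - c)⁻¹ * (-(b / c) * -σ) =
          2 * (σ / (2 * σ - c)) ^ 2 * (b / c) - 2 * (c / (2 * σ - c)) * (1 / (2 * σ - c)) * Y := by
        have := hc0.ne'
        have := hd.ne'
        field_simp
        ring
      rw [key]
      have b1 : |b / c| ≤ K * (1 / c) := by
        rw [abs_div, abs_of_pos hc0, div_eq_mul_one_div]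
        exact mul_le_mul_of_nonneg_right hbK (by positivity)
      have b2 : 0 ≤ σ / (2 * σ - c) ∧ σ / (2 * σ - c) ≤ 1 :=
        ⟨by positivity, by rw [div_le_one hd]; linarith⟩
      have b3 : 0 ≤ c / (2 * σ - c) ∧ c / (2 * σ - c) ≤ 1 :=
        ⟨by positivity, by rw [div_le_one hd]; linarith⟩
      have b4 : 0 ≤ 2 * (1 / (2 * σ - c)) ∧ 2 * (1 / (2 * σ - c)) ≤ 1 / τ := by
        refine ⟨by positivity, ?_⟩
        rw [mul_one_div, div_le_div_iff₀ hd hτ]
        linarith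
      have b5 : 0 ≤ (σ / (2 * σ - c)) ^ 2 ∧ (σ / (2 * σ - c)) ^ 2 ≤ 1 :=
        ⟨by positivity, pow_le_one₀ b2.1 b2.2⟩
      calc |2 * (σ / (2 * σ - c)) ^ 2 * (b / c) - 2 * (c / (2 * σ - c)) * (1 / (2 * σ - c)) * Y|
          ≤ |2 * (σ / (2 * σ - c)) ^ 2 * (b / c)| +
            |2 * (c / (2 * σ - c)) * (1 / (2 * σ - c)) * Y| := abs_sub _ _
        _ = 2 * (σ / (2 * σ - c)) ^ 2 * |b / c| +
            (c / (2 * σ - c)) * (2 * (1 / (2 * σ - c))) * |Y| := by
            rw [abs_mul (2 * (σ / (2 * σ - c)) ^ 2) (b / c),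
              abs_mul (2 * (c / (2 * σ - c)) * (1 / (2 * σ - c))) Y,
              abs_of_nonneg (a := 2 * (σ / (2 * σ - c)) ^ 2) (by positivity),
              abs_of_nonneg (a := 2 * (c / (2 * σ - c)) * (1 / (2 * σ - c))) (by positivity)]
            ring
        _ ≤ 2 * 1 * (K * (1 / c)) + 1 * (1 / τ) * A := by
            gcongr
            · exact b5.2
            · exact b3.2
            · exact b4.2
        _ ≤ (2 * K + A / τ) * (1 + 1 / c) := by
            have : 0 ≤ A / τ * (1 / c) := by positivity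
            have e3 : 1 * (1 / τ) * A = A / τ := by ring
            rw [e3]
            nlinarith
    · rw [e2]; positivity
    · rw [e2, ← div_eq_mul_inv, div_le_one hd]; linarith

theorem fluxEps_slice (S : Set (St n))
    (h : ∀ i : Fin n, MeasurableSet {p : ℝ × ℝ | ((i, p) : St n) ∈ S}) : MeasurableSet S := by
  have e : S = ⋃ i : Fin n, ({i} : Set (Fin n)) ×ˢ {p : ℝ × ℝ | ((i, p) : St n) ∈ S} := by
    ext ⟨i, p⟩
    simp
  rw [e]
  exact MeasurableSet.iUnion fun i => (MeasurableSet.singleton i).prod (h i)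

theorem fluxEps_strip (C : Cfg n) (ε : ℝ) : MeasurableSet (C.Strip ε) := by
  refine fluxEps_slice _ fun i => ?_
  have e : {p : ℝ × ℝ | ((i, p) : St n) ∈ C.Strip ε} =
      {p : ℝ × ℝ | |p.2| < C.r i} ∩ ⋃ k : Fin n, ({_p : ℝ × ℝ | k ≠ i} ∩
        ({p : ℝ × ℝ | 0 < C.dv i k p.1} ∩
          ({p : ℝ × ℝ | |C.bp i k p.1 p.2 - C.r k| < ε} ∪
            {p : ℝ × ℝ | |C.bp i k p.1 p.2 + C.r k| < ε}))) := by
    ext p
    simp [Cfg.Strip, Cfg.M]
  rw [e]
  have c1 : ∀ k, Continuous fun p : ℝ × ℝ => C.dv i k p.1 := by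
    intro k; unfold Cfg.dv; fun_prop
  have c2 : ∀ k, Continuous fun p : ℝ × ℝ => C.bp i k p.1 p.2 := by
    intro k; unfold Cfg.bp Cfg.dn; fun_prop
  refine MeasurableSet.inter ?_ (MeasurableSet.iUnion fun k => ?_)
  · exact (isOpen_lt (by fun_prop) (by fun_prop)).measurableSet
  · refine MeasurableSet.inter (MeasurableSet.const _) ?_
    refine MeasurableSet.inter (isOpen_lt continuous_const (c1 k)).measurableSet ?_
    exact (isOpen_lt ((c2 k).sub continuous_const).abs continuous_const).measurableSet.union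
      (isOpen_lt ((c2 k).add continuous_const).abs continuous_const).measurableSet

/-- the flux inequality with cutoff. NOTE (helper373): RHS now PARENTHESISED `(∫ p, |φ p| * Sr) + ∑ ..`;
the posted version parsed as `∫ p, (|φ p| * Sr + const)`, which is false (nonintegrable, = 0). -/
theorem fluxEps (C : Cfg n) : ∃ ε₀ > 0, ∃ A > 0, ∀ ε, 0 < ε → ε < ε₀ →
    ∀ (e : Bool) (N : ℕ) (i : Fin n) (φ : ℝ × ℝ → ℝ), TF (C.r i) φ →
      |∫ p, C.cut ε N (i, p) * Cfg.gw e (C.sig N (i, p)) (C.hc i p.2) *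
          fderiv ℝ φ p (1, -C.sig N (i, p))| ≤
        (∫ p, |φ p| * C.Sr A (i, p)) +
        ∑ m ∈ Finset.range N, C.lam ^ m * (A / ε *
          ∫ p, |φ p| * (C.Om m ∩ (C.T^[m]) ⁻¹' (C.Strip ε)).indicator 1 ((i, p) : St n)) := by
  obtain ⟨A₀, hA₀, hsig⟩ := sig_deriv C
  obtain ⟨ε₀, hε₀, B, hB, hcut⟩ := cut_facts C
  refine ⟨ε₀, hε₀, |2 * C.K + A₀ / C.tau| + |A₀ / C.lam| + B, by positivity, ?_⟩
  intro ε hε hεε e N i φ hTF
  obtain ⟨hφ, hφc, hφs⟩ := hTF
  set A : ℝ := |2 * C.K + A₀ / C.tau| + |A₀ / C.lam| + B with hAdef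
  have a1 := le_abs_self (2 * C.K + A₀ / C.tau)
  have a2 := le_abs_self (A₀ / C.lam)
  have a3 := abs_nonneg (2 * C.K + A₀ / C.tau)
  have a4 := abs_nonneg (A₀ / C.lam)
  have hA1 : 2 * C.K + A₀ / C.tau ≤ A := by linarith
  have hA2 : A₀ / C.lam ≤ A := by linarith
  have hA3 : B ≤ A := by linarith
  have hA : 0 < A := by linarith
  clear_value A
  obtain ⟨-, -, -, -, -, -, -, -, -, -, -, -, hK, hl0, hl1⟩ := basics C i i 0 0
  obtain ⟨hT, hOm, -⟩ := meas C
  obtain ⟨hSm, hS0, hSl, -, hSa⟩ := Sr_locint C A hA i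
  have hA2' : A₀ ≤ A * C.lam := (div_le_iff₀ hl0).1 hA2
  have hOmM : ∀ m l, l ∈ C.Om m → l ∈ C.M := fun m l hl => (om_facts C m).2.1 hl
  have hOmN : ∀ m, m ≤ N → C.Om N ⊆ C.Om m := by
    intro m hm l hl
    obtain ⟨k, rfl⟩ := Nat.exists_eq_add_of_le hm
    exact (((om_facts C m).2.2.1 k l).1 hl).1
  have iφ : Integrable φ := hφ.continuous.integrable_of_hasCompactSupport hφc
  set J : ℕ → ℝ × ℝ → ℝ := fun m p =>
    |φ p| * (C.Om m ∩ (C.T^[m]) ⁻¹' (C.Strip ε)).indicator 1 ((i, p) : St n) with hJdef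
  have iJ : ∀ m, Integrable (J m) := by
    intro m
    have hS' : MeasurableSet ((fun p : ℝ × ℝ => ((i, p) : St n)) ⁻¹'
        (C.Om m ∩ (C.T^[m]) ⁻¹' (C.Strip ε))) :=
      (measurable_const.prodMk measurable_id)
        ((hOm m).inter ((hT.iterate m) (fluxEps_strip C ε)))
    refine ((iφ.abs).indicator hS').congr (Filter.Eventually.of_forall fun p => ?_)
    by_cases hp : ((i, p) : St n) ∈ (C.Om m ∩ (C.T^[m]) ⁻¹' (C.Strip ε))
    · simp only [hJdef]
      rw [Set.indicator_of_mem (show p ∈ (fun p : ℝ × ℝ => ((i, p) : St n)) ⁻¹'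
        (C.Om m ∩ (C.T^[m]) ⁻¹' (C.Strip ε)) from hp), Set.indicator_of_mem hp]
      simp
    · simp only [hJdef]
      rw [Set.indicator_of_notMem (show p ∉ (fun p : ℝ × ℝ => ((i, p) : St n)) ⁻¹'
        (C.Om m ∩ (C.T^[m]) ⁻¹' (C.Strip ε)) from hp), Set.indicator_of_notMem hp]
      simp
  have hJ0 : ∀ m p, 0 ≤ J m p := by
    intro m p
    exact mul_nonneg (abs_nonneg _) (Set.indicator_nonneg (fun _ _ => zero_le_one) _)
  have iS : Integrable fun p => |φ p| * C.Sr A (i, p) :=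
    hSl.integrable_smul_left_of_hasCompactSupport (g := fun p => |φ p|) hφ.continuous.abs
      (hφc.comp_left (g := fun x : ℝ => |x|) abs_zero)
  have iJ2 : ∀ m ∈ Finset.range N, Integrable fun p => C.lam ^ m * (A / ε * J m p) :=
    fun m _ => ((iJ m).const_mul _).const_mul _
  have iJ3 : Integrable fun p => ∑ m ∈ Finset.range N, C.lam ^ m * (A / ε * J m p) :=
    integrable_finsetSum _ iJ2
  have e1 : ∫ p, (|φ p| * C.Sr A (i, p) + ∑ m ∈ Finset.range N, C.lam ^ m * (A / ε * J m p)) =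
      (∫ p, |φ p| * C.Sr A (i, p)) +
        ∑ m ∈ Finset.range N, C.lam ^ m * (A / ε * ∫ p, J m p) := by
    rw [integral_add iS iJ3, integral_finsetSum _ iJ2]
    congr 1
    refine Finset.sum_congr rfl fun m _ => ?_
    rw [integral_const_mul, integral_const_mul]
  rw [← e1]
  have hM : ∀ p, ((i, p) : St n) ∈ C.Om N → |p.2| < C.r i := fun p hp => hOmM N _ hp
  have hσ : ∀ p, ((i, p) : St n) ∈ C.Om N → C.hc i p.2 + C.tau ≤ C.sig N (i, p) :=
    fun p hp => (sig_bounds C N (i, p) (hOmM N _ hp)).1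
  refine fluxEps_abs {p | ((i, p) : St n) ∈ C.Om N} φ (fun p => C.cut ε N (i, p))
    (fun p => Cfg.gw e (C.sig N (i, p)) (C.hc i p.2)) (fun p => C.sig N (i, p)) hφ hφc
    ?_ ?_ ?_ ?_ _ (iS.add iJ3) ?_ ?_
  · intro p hp
    by_cases hps : p ∈ tsupport φ
    · right
      exact (hcut ε hε hεε N i p (hφs hps)).2.2.1 hp
    · left
      exact notMem_tsupport_iff_eventuallyEq.1 hps
  · intro p hp
    exact (hcut ε hε hεε N i p (hM p hp)).2.1
  · intro p hp
    exact (fluxEps_G C e (hM p hp) (fun q => C.sig N (i, q)) (hsig N i p hp).1 (hσ p hp) A₀ hA₀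
      (hsig N i p hp).2.1).1
  · intro p hp
    exact (hsig N i p hp).1
  · intro p
    exact add_nonneg (mul_nonneg (abs_nonneg _) (hS0 _))
      (Finset.sum_nonneg fun m _ => mul_nonneg (pow_nonneg hl0.le _)
        (mul_nonneg (by positivity) (hJ0 m p)))
  · filter_upwards [hSa] with p hpS hp
    obtain ⟨-, hXG, hG0, hG1⟩ := fluxEps_G C e (hM p hp) (fun q => C.sig N (i, q))
      (hsig N i p hp).1 (hσ p hp) A₀ hA₀ (hsig N i p hp).2.1
    obtain ⟨⟨hκ0, hκ1⟩, -, -, hXκ⟩ := hcut ε hε hεε N i p (hM p hp)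
    have hXκ := hXκ hp
    have hD := (hsig N i p hp).2.2
    have hpN := hpS (N + 1)
    set w : ℕ → ℝ := fun m => 1 + 1 / C.hc ((C.T^[m]) (i, p)).1 ((C.T^[m]) (i, p)).2.2 with hw
    have hw0 : ∀ m, 0 ≤ w m := by
      intro m
      have : 0 ≤ C.hc ((C.T^[m]) (i, p)).1 ((C.T^[m]) (i, p)).2.2 := Real.sqrt_nonneg _
      simp only [hw]
      positivity
    have s1 : ∑ m ∈ Finset.range (N + 1), A * C.lam ^ m * w m ≤ C.Sr A (i, p) := by
      refine le_trans (le_of_eq ?_) hpN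
      refine Finset.sum_congr rfl fun m hm => ?_
      have hm' : m ≤ N := Nat.lt_succ_iff.1 (Finset.mem_range.1 hm)
      rw [Set.indicator_of_mem (hOmN m hm' hp)]
    rw [Finset.sum_range_succ'] at s1
    have s2 : |fderiv ℝ (fun q : ℝ × ℝ => C.sig N (i, q)) p (0, 1)| ≤
        ∑ m ∈ Finset.range N, A * C.lam ^ (m + 1) * w (m + 1) := by
      refine hD.trans (Finset.sum_le_sum fun m _ => ?_)
      have h1 : C.lam ^ m * (A₀ * w (m + 1)) ≤ C.lam ^ m * ((A * C.lam) * w (m + 1)) := by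
        have := hw0 (m + 1)
        have := pow_nonneg hl0.le m
        gcongr
      calc C.lam ^ m * (A₀ * (1 + 1 / C.hc ((C.T^[m + 1]) (i, p)).1 ((C.T^[m + 1]) (i, p)).2.2))
          = C.lam ^ m * (A₀ * w (m + 1)) := rfl
        _ ≤ C.lam ^ m * ((A * C.lam) * w (m + 1)) := h1
        _ = A * C.lam ^ (m + 1) * w (m + 1) := by ring
    have s3 : |fderiv ℝ (fun q => Cfg.gw e (C.sig N (i, q)) (C.hc i q.2)) p
        (1, -C.sig N (i, p))| ≤ A * C.lam ^ 0 * w 0 := by
      refine hXG.trans ?_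
      have e2 : w 0 = 1 + 1 / C.hc i p.2 := rfl
      rw [pow_zero, mul_one, ← e2]
      exact mul_le_mul_of_nonneg_right hA1 (hw0 0)
    have s4 : |fderiv ℝ (fun q : ℝ × ℝ => C.cut ε N (i, q)) p (1, -C.sig N (i, p))| ≤
        ∑ m ∈ Finset.range N, C.lam ^ m * (A / ε *
          (C.Om m ∩ (C.T^[m]) ⁻¹' (C.Strip ε)).indicator 1 ((i, p) : St n)) := by
      refine hXκ.trans (Finset.sum_le_sum fun m hm => ?_)
      have hm' : m ≤ N := (Finset.mem_range.1 hm).le
      have e3 : (C.Strip ε).indicator (1 : St n → ℝ) ((C.T^[m]) ((i, p) : St n)) =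
          (C.Om m ∩ (C.T^[m]) ⁻¹' (C.Strip ε)).indicator 1 ((i, p) : St n) := by
        by_cases h : (C.T^[m]) ((i, p) : St n) ∈ C.Strip ε
        · rw [Set.indicator_of_mem h, Set.indicator_of_mem (show ((i, p) : St n) ∈
            C.Om m ∩ (C.T^[m]) ⁻¹' (C.Strip ε) from ⟨hOmN m hm' hp, h⟩)]
          rfl
        · rw [Set.indicator_of_notMem h, Set.indicator_of_notMem (show ((i, p) : St n) ∉
            C.Om m ∩ (C.T^[m]) ⁻¹' (C.Strip ε) from fun h' => h h'.2)]
      rw [e3]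
      have h5 : 0 ≤ (C.Om m ∩ (C.T^[m]) ⁻¹' (C.Strip ε)).indicator (1 : St n → ℝ)
        ((i, p) : St n) := Set.indicator_nonneg (fun _ _ => zero_le_one) _
      have := pow_nonneg hl0.le m
      gcongr
    have s5 : ∑ m ∈ Finset.range N, C.lam ^ m * (A / ε * J m p) =
        |φ p| * ∑ m ∈ Finset.range N, C.lam ^ m * (A / ε *
          (C.Om m ∩ (C.T^[m]) ⁻¹' (C.Strip ε)).indicator 1 ((i, p) : St n)) := by
      rw [Finset.mul_sum]
      refine Finset.sum_congr rfl fun m _ => ?_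
      simp only [hJdef]
      ring
    show _ ≤ |φ p| * C.Sr A (i, p) + ∑ m ∈ Finset.range N, C.lam ^ m * (A / ε * J m p)
    rw [s5, ← mul_add, abs_mul]
    refine mul_le_mul_of_nonneg_left ?_ (abs_nonneg _)
    generalize fderiv ℝ (fun q => Cfg.gw e (C.sig N (i, q)) (C.hc i q.2)) p
        (1, -C.sig N (i, p)) = XG at *
    generalize fderiv ℝ (fun q : ℝ × ℝ => C.cut ε N (i, q)) p (1, -C.sig N (i, p)) = Xκ at *
    generalize fderiv ℝ (fun q : ℝ × ℝ => C.sig N (i, q)) p (0, 1) = D at *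
    generalize Cfg.gw e (C.sig N (i, p)) (C.hc i p.2) = g at *
    generalize C.cut ε N (i, p) = k at *
    have t1 : |k * XG + g * Xκ - k * g * D| ≤ |XG| + |Xκ| + |D| := by
      have u1 : |k * XG| ≤ |XG| := by
        rw [abs_mul, abs_of_nonneg hκ0]
        exact mul_le_of_le_one_left (abs_nonneg _) hκ1
      have u2 : |g * Xκ| ≤ |Xκ| := by
        rw [abs_mul, abs_of_nonneg hG0]
        exact mul_le_of_le_one_left (abs_nonneg _) hG1
      have u3 : |k * g * D| ≤ |D| := by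
        rw [abs_mul, abs_of_nonneg (mul_nonneg hκ0 hG0)]
        exact mul_le_of_le_one_left (abs_nonneg _) (mul_le_one₀ hκ1 hG0 hG1)
      have u4 := abs_sub (k * XG + g * Xκ) (k * g * D)
      have u5 := abs_add_le (k * XG) (g * Xκ)
      linarith
    linarith

end Pool.Light

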