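import Pool.Agent.Helper638.Light.Defs
import Pool.Agent.Helper638.Light.P_gap
import Pool.Agent.Helper638.Light.P_basics

set_option autoImplicit false

open MeasureTheory Set Filter Topology

namespace Pool.Light


variable {n : ℕ}

theorem isOpen_E0_cont_dv (C : Cfg n) (i k : Fin n) : Continuous (fun p : ℝ × ℝ => C.dv i k p.1) := by
  unfold Cfg.dv
  fun_prop

theorem isOpen_E0_cont_bp (C : Cfg n) (i k : Fin n) :
    Continuous (fun p : ℝ × ℝ => C.bp i k p.1 p.2) := by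
  unfold Cfg.bp Cfg.dn
  fun_prop

theorem isOpen_E0 (C : Cfg n) (i : Fin n) : IsOpen {p : ℝ × ℝ | ((i, p) : St n) ∈ C.E0} := by
  have h1 : {p : ℝ × ℝ | ((i, p) : St n) ∈ C.E0} =
      {p : ℝ × ℝ | |p.2| < C.r i} ∩ ⋂ k : Fin n, {p : ℝ × ℝ | k ≠ i →
        ¬ (C.tau ≤ C.dv i k p.1 ∧ |C.bp i k p.1 p.2| ≤ C.r k)} := by
    ext p
    constructor
    · rintro ⟨hM, h⟩
      have hM' : |p.2| < C.r i := hM
      refine ⟨hM', Set.mem_iInter.2 fun k hk hc => ?_⟩
      have h2 := h k hk (lt_of_lt_of_le C.htau hc.1)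
      exact absurd hc.2 (not_le.2 h2)
    · rintro ⟨hM, h⟩
      have hM' : |p.2| < C.r i := hM
      refine ⟨hM', fun k hk hpos => ?_⟩
      by_contra hle
      have hle' : |C.bp i k p.1 p.2| ≤ C.r k := not_lt.1 hle
      have hpos' : 0 < C.dv i k p.1 := hpos
      have hg := gap C (k := k) (i := i) hk hM'.le hle'
      rw [abs_of_pos hpos'] at hg
      have h3 : 0 ≤ C.hc i p.2 := Real.sqrt_nonneg _
      have h4 : 0 ≤ C.hc k (C.bp i k p.1 p.2) := Real.sqrt_nonneg _
      exact (Set.mem_iInter.1 h k) hk ⟨by linarith, hle'⟩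
  rw [h1]
  refine (isOpen_lt (continuous_snd.abs) continuous_const).inter (isOpen_iInter_of_finite fun k => ?_)
  by_cases hk : k = i
  · have : {p : ℝ × ℝ | k ≠ i → ¬ (C.tau ≤ C.dv i k p.1 ∧ |C.bp i k p.1 p.2| ≤ C.r k)} = univ := by
      ext p
      simp [hk]
    rw [this]
    exact isOpen_univ
  · have : {p : ℝ × ℝ | k ≠ i → ¬ (C.tau ≤ C.dv i k p.1 ∧ |C.bp i k p.1 p.2| ≤ C.r k)} =
        {p : ℝ × ℝ | C.tau ≤ C.dv i k p.1 ∧ |C.bp i k p.1 p.2| ≤ C.r k}ᶜ := by
      ext p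
      constructor
      · intro h
        exact h hk
      · intro h _
        exact h
    rw [this, isOpen_compl_iff]
    exact (isClosed_le continuous_const (isOpen_E0_cont_dv C i k)).inter
      (isClosed_le (isOpen_E0_cont_bp C i k).abs continuous_const)

end Pool.Light
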