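import Pool.Agent.Helper638.Light.Defs

set_option autoImplicit false

open MeasureTheory Set Filter Topology

namespace Pool.Light


variable {n : ℕ}

/-- invariance of the unstable cone, and transversality to tangent curves. -/
theorem ucStep (c p q d τ c' : ℝ) (hc : 0 < c) (hτ : 0 < τ) (hc' : 0 ≤ c') (h : UC c p q)
    (hd : c + c' + τ ≤ d) :
    q + d * p ≠ 0 ∧ (0 < c' → UC c' (p - 2 / c' * (q + d * p)) (q + d * p)) := by
  obtain ⟨hq, h⟩ := h
  have hq2 : 0 < q ^ 2 := by positivity
  have main : q + d * p ≠ 0 ∧ 0 ≤ c' * (p * (q + d * p)) ∧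
      c' * (p * (q + d * p)) ≤ (q + d * p) ^ 2 := by
    rcases h with hp | ⟨h1, h2⟩
    · subst hp
      refine ⟨by simpa using hq, by simp, by simp; positivity⟩
    · have hw : p * q < 0 := by
        by_contra hcon
        push Not at hcon
        have : 0 ≤ c * (p * q) := mul_nonneg hc.le hcon
        nlinarith
      have hqA : q * (q + d * p) < 0 := by
        have e1 : d * (p * q) ≤ (c + τ) * (p * q) := by
          have : (d - (c + τ)) * (p * q) ≤ 0 :=
            mul_nonpos_of_nonneg_of_nonpos (by linarith) hw.le
          linarith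
        have e2 : τ * (p * q) < 0 := mul_neg_of_pos_of_neg hτ hw
        nlinarith
      have hqB : q * (q + (d - c') * p) < 0 := by
        have e1 : (d - c') * (p * q) ≤ (c + τ) * (p * q) := by
          have : (d - c' - (c + τ)) * (p * q) ≤ 0 :=
            mul_nonpos_of_nonneg_of_nonpos (by linarith) hw.le
          linarith
        have e2 : τ * (p * q) < 0 := mul_neg_of_pos_of_neg hτ hw
        nlinarith
      have hA : q + d * p ≠ 0 := by
        intro h0
        rw [h0, mul_zero] at hqA
        exact lt_irrefl _ hqA
      have hAB : 0 < (q + d * p) * (q + (d - c') * p) := by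
        have := mul_pos_of_neg_of_neg hqA hqB
        by_contra hcon
        push Not at hcon
        have h3 : q ^ 2 * ((q + d * p) * (q + (d - c') * p)) ≤ 0 :=
          mul_nonpos_of_nonneg_of_nonpos hq2.le hcon
        nlinarith
      have hpA : 0 ≤ p * (q + d * p) := by
        -- p q < 0 and q A < 0
        have := mul_pos_of_neg_of_neg hw hqA
        by_contra hcon
        push Not at hcon
        have h3 : q ^ 2 * (p * (q + d * p)) ≤ 0 :=
          mul_nonpos_of_nonneg_of_nonpos hq2.le hcon.le
        nlinarith
      refine ⟨hA, mul_nonneg hc' hpA, ?_⟩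
      nlinarith
  obtain ⟨m1, m2, m3⟩ := main
  refine ⟨m1, fun hc'' => ⟨m1, Or.inr ?_⟩⟩
  have e : c' * (p - 2 / c' * (q + d * p)) * (q + d * p) =
      c' * (p * (q + d * p)) - 2 * (q + d * p) ^ 2 := by
    field_simp
  rw [e]
  constructor <;> linarith

end Pool.Light
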