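import Pool.Agent.Helper638.Light.Defs

set_option autoImplicit false

open MeasureTheory Set Filter Topology

namespace Pool.Light


variable {n : ℕ}

theorem zeros_countable (O : Set ℝ) (hO : IsOpen O) (f f' : ℝ → ℝ)
    (hf : ∀ s ∈ O, HasDerivAt f (f' s) s) (h0 : ∀ s ∈ O, f s = 0 → f' s ≠ 0) :
    {s | s ∈ O ∧ f s = 0}.Countable := by
  have h1 : DiscreteTopology ↥{s | s ∈ O ∧ f s = 0} := by
    rw [discreteTopology_subtype_iff]
    rintro x ⟨hx, hfx⟩
    have h2 : ∀ᶠ z in 𝓝[≠] x, f z ≠ 0 := (hf x hx).eventually_ne (h0 x hx hfx)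
    rw [← disjoint_iff, disjoint_principal_right]
    filter_upwards [h2] with z hz h3
    exact hz h3.2
  rw [← Set.countable_coe_iff]
  exact TopologicalSpace.separableSpace_iff_countable.1 inferInstance

end Pool.Light
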