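import Pool.Agent.Helper638.Light.Defs
import Pool.Agent.Helper638.Light.P_gap
import Pool.Agent.Helper638.Light.P_basics
import Pool.Agent.Helper638.Light.P_hits_unique
import Pool.Agent.Helper638.Light.P_T_of_hits
import Pool.Agent.Helper638.Light.P_isOpen_hits
import Pool.Agent.Helper638.Light.P_om_facts
import Pool.Agent.Helper638.Light.P_Tsmooth
import Pool.Agent.Helper638.Light.P_zeros_countable
import Pool.Agent.Helper638.Light.P_ucStep

set_option autoImplicit false

open MeasureTheory Set Filter Topology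

namespace Pool.Light


variable {n : ℕ}

theorem transv_cont (C : Cfg n) {i : Fin n} {O : Set ℝ} {th b th' b' : ℝ → ℝ}
    (h : ∀ s ∈ O, HasDerivAt th (th' s) s ∧ HasDerivAt b (b' s) s ∧ |b s| < C.r i ∧
      UC (C.hc i (b s)) (th' s) (b' s)) {s : ℝ} (hs : s ∈ O) :
    ContinuousAt (fun s => (th s, b s)) s :=
  (h s hs).1.continuousAt.prodMk (h s hs).2.1.continuousAt

theorem transv_hc_pos (C : Cfg n) {i : Fin n} {b : ℝ} (hb : |b| < C.r i) : 0 < C.hc i b := by
  unfold Cfg.hc
  apply Real.sqrt_pos.2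
  have h1 := abs_lt.1 hb
  nlinarith [h1.1, h1.2]

theorem transv_aux (C : Cfg n) (m : ℕ) : ∀ (i : Fin n) (O : Set ℝ) (_ : IsOpen O)
    (th b th' b' : ℝ → ℝ)
    (_ : ∀ s ∈ O, HasDerivAt th (th' s) s ∧ HasDerivAt b (b' s) s ∧ |b s| < C.r i ∧
      UC (C.hc i (b s)) (th' s) (b' s)),
    {s | s ∈ O ∧ ((i, th s, b s) : St n) ∈ C.Om m ∧
      (C.T^[m]) ((i, th s, b s) : St n) ∈ C.S1}.Countable := by
  induction m with
  | zero =>
    intro i O hO th b th' b' h
    have key : ∀ k : Fin n, ∀ e : ℝ, (e = 1 ∨ e = -1) → k ≠ i →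
        {s | s ∈ {s | s ∈ O ∧ 0 < C.dv i k (th s)} ∧
          b s - C.dn i k (th s) - e * C.r k = 0}.Countable := by
      intro k e he hki
      apply zeros_countable _ _ _ (fun s => b' s + C.dv i k (th s) * th' s)
      · intro s hs
        have h1 := (basics C i k (th s) (b s)).2.2.2.2.2.2.2.2.2.2.2.1
        have h2 := h1.comp s (h s hs.1).1
        have h3 := ((h s hs.1).2.1.sub h2).sub_const (e * C.r k)
        have e : b' s - -C.dv i k (th s) * th' s = b' s + C.dv i k (th s) * th' s := by ring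
        rw [e] at h3
        exact h3
      · intro s hs hz
        have hb := (h s hs.1).2.2.1
        have habs : |C.bp i k (th s) (b s)| = C.r k := by
          have h1 : C.bp i k (th s) (b s) = e * C.r k := by
            unfold Cfg.bp; linarith
          rw [h1, abs_mul]
          rcases he with rfl | rfl <;> simp [abs_of_pos (C.hr k)]
        have hg := gap C hki hb.le habs.le
        have hck : C.hc k (C.bp i k (th s) (b s)) = 0 := by
          unfold Cfg.hc
          rw [← sq_abs (C.bp i k (th s) (b s)), habs]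
          simp
        rw [hck, abs_of_pos hs.2] at hg
        exact (ucStep _ _ _ _ C.tau 0 (transv_hc_pos C hb) C.htau le_rfl (h s hs.1).2.2.2 hg).1
      · rw [isOpen_iff_mem_nhds]
        intro s hs
        have h1 := (basics C i k (th s) (b s)).2.2.2.2.2.2.2.2.2.2.1
        have h2 : ContinuousAt (fun s => C.dv i k (th s)) s :=
          ContinuousAt.comp (f := th) (g := fun t => C.dv i k t) h1.continuousAt
            (h s hs.1).1.continuousAt
        have h3 := h2.eventually (lt_mem_nhds hs.2)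
        filter_upwards [hO.mem_nhds hs.1, h3] with x hx1 hx2
        exact ⟨hx1, hx2⟩
    apply Set.Countable.mono (s₂ := ⋃ k : Fin n, ⋃ (_ : k ≠ i),
      ({s | s ∈ {s | s ∈ O ∧ 0 < C.dv i k (th s)} ∧ b s - C.dn i k (th s) - 1 * C.r k = 0} ∪
       {s | s ∈ {s | s ∈ O ∧ 0 < C.dv i k (th s)} ∧ b s - C.dn i k (th s) - (-1) * C.r k = 0}))
    · rintro s ⟨hs, _, _, k, hki, hdv, hbp⟩
      simp only [Function.iterate_zero, id] at hki hdv hbp
      simp only [Set.mem_iUnion]
      refine ⟨k, hki, ?_⟩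
      rcases abs_choice (C.bp i k (th s) (b s)) with h1 | h1
      · left
        refine ⟨⟨hs, hdv⟩, ?_⟩
        rw [h1] at hbp
        unfold Cfg.bp at hbp
        linarith
      · right
        refine ⟨⟨hs, hdv⟩, ?_⟩
        rw [h1] at hbp
        unfold Cfg.bp at hbp
        linarith
    · apply Set.countable_iUnion
      intro k
      apply Set.countable_iUnion
      intro hki
      exact (key k 1 (Or.inl rfl) hki).union (key k (-1) (Or.inr rfl) hki)
  | succ m ih =>
    intro i O hO th b th' b' h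
    have hopen : ∀ j : Fin n, IsOpen {s | s ∈ O ∧ C.Hits i j (th s) (b s)} := by
      intro j
      rw [isOpen_iff_mem_nhds]
      rintro s ⟨hs, hh⟩
      have h1 := (isOpen_hits C i j).mem_nhds (x := (th s, b s)) ⟨(h s hs).2.2.1, hh⟩
      have h2 := (transv_cont C h hs).eventually h1
      filter_upwards [hO.mem_nhds hs, h2] with x hx1 hx2
      exact ⟨hx1, hx2.2⟩
    have key : ∀ j : Fin n, {s | s ∈ {s | s ∈ O ∧ C.Hits i j (th s) (b s)} ∧
        ((j, (C.Tj i j (th s) (b s)).1, (C.Tj i j (th s) (b s)).2) : St n) ∈ C.Om m ∧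
        (C.T^[m]) ((j, (C.Tj i j (th s) (b s)).1, (C.Tj i j (th s) (b s)).2) : St n) ∈
          C.S1}.Countable := by
      intro j
      apply ih j _ (hopen j) _ _
        (fun s => th' s - 2 / C.hc j (C.bp i j (th s) (b s)) * (b' s + C.dv i j (th s) * th' s))
        (fun s => b' s + C.dv i j (th s) * th' s)
      rintro s ⟨hs, hh⟩
      have hb := (h s hs).2.2.1
      obtain ⟨_, hT1, hT2⟩ := Tsmooth C (p := (th s, b s)) hb hh
      have hcurve : HasDerivAt (fun s => (th s, b s)) (th' s, b' s) s :=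
        (h s hs).1.prodMk (h s hs).2.1
      have hF := (hT1.differentiableAt (by norm_num)).hasFDerivAt
      have hcomp := HasFDerivAt.comp_hasDerivAt (f := fun s => (th s, b s)) s hF hcurve
      rw [hT2 (th' s, b' s)] at hcomp
      have hfst := (ContinuousLinearMap.fst ℝ ℝ ℝ).hasFDerivAt.comp_hasDerivAt s hcomp
      have hsnd := (ContinuousLinearMap.snd ℝ ℝ ℝ).hasFDerivAt.comp_hasDerivAt s hcomp
      have hhij := hh.1
      have hdv := hh.2.1
      have hbp := hh.2.2.1
      have hg := gap C (k := j) hhij.symm hb.le hbp.le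
      rw [abs_of_pos hdv] at hg
      refine ⟨hfst, hsnd, hbp, ?_⟩
      exact (ucStep _ _ _ _ C.tau _ (transv_hc_pos C hb) C.htau (Real.sqrt_nonneg _)
        (h s hs).2.2.2 hg).2 (transv_hc_pos C hbp) |> fun hu => by
          have e1 : b' s + C.dv i j (th s) * th' s = b' s + C.dv i j (th s) * th' s := rfl
          exact hu
    apply Set.Countable.mono (s₂ := ⋃ j : Fin n, {s | s ∈ {s | s ∈ O ∧ C.Hits i j (th s) (b s)} ∧
        ((j, (C.Tj i j (th s) (b s)).1, (C.Tj i j (th s) (b s)).2) : St n) ∈ C.Om m ∧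
        (C.T^[m]) ((j, (C.Tj i j (th s) (b s)).1, (C.Tj i j (th s) (b s)).2) : St n) ∈ C.S1})
    · rintro s ⟨hs, ⟨_, ⟨j, hj⟩, hOm⟩, hS1⟩
      rw [Set.mem_iUnion]
      have hT := T_of_hits C hj
      refine ⟨j, ⟨hs, hj⟩, ?_, ?_⟩
      · rw [hT] at hOm
        exact hOm
      · rw [Function.iterate_succ_apply, hT] at hS1
        exact hS1
    · exact Set.countable_iUnion key

/-- an unstable curve meets the singular set in a countable set. -/
theorem transv (C : Cfg n) (i : Fin n) (O : Set ℝ) (hO : IsOpen O) (th b th' b' : ℝ → ℝ)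
    (h : ∀ s ∈ O, HasDerivAt th (th' s) s ∧ HasDerivAt b (b' s) s ∧ |b s| < C.r i ∧
      UC (C.hc i (b s)) (th' s) (b' s)) :
    {s | s ∈ O ∧ ((i, th s, b s) : St n) ∈ C.SS}.Countable := by
  apply Set.Countable.mono (s₂ := ⋃ m : ℕ, {s | s ∈ O ∧ ((i, th s, b s) : St n) ∈ C.Om m ∧
      (C.T^[m]) ((i, th s, b s) : St n) ∈ C.S1})
  · rintro s ⟨hs, m, h1, h2⟩
    exact Set.mem_iUnion.2 ⟨m, hs, h1, h2⟩
  · exact Set.countable_iUnion (fun m => transv_aux C m i O hO th b th' b' h)

end Pool.Light
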