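import Pool.Agent.Helper638.Light.Defs
import Pool.Agent.Helper638.Light.P_gap
import Pool.Agent.Helper638.Light.P_basics
import Pool.Agent.Helper638.Light.P_hits_unique
import Pool.Agent.Helper638.Light.P_T_of_hits
import Pool.Agent.Helper638.Light.P_zeros_countable
import Pool.Agent.Helper638.Light.P_ucRho
import Pool.Agent.Helper638.Light.P_transv

set_option autoImplicit false

open MeasureTheory Set Filter Topology

namespace Pool.Light


variable {n : ℕ}

/-- a.e. tangent state, reversed, is regular; and is not on `|b| = r`. -/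
theorem tang_null (C : Cfg n) (i k : Fin n) (hik : k ≠ i) (s : ℝ) (hs : s = 1 ∨ s = -1) :
    ∀ᵐ θ : ℝ, 0 < C.dv i k θ →
      |C.dn i k θ + s * C.r k| ≠ C.r i ∧ (C.tang i k s θ ∈ C.M → C.rho (C.tang i k s θ) ∉ C.SS) := by
  have hdv : ∀ t, HasDerivAt (fun t => C.dv i k t) (C.dn i k t) t := fun t =>
    (basics C i k t 0).2.2.2.2.2.2.2.2.2.2.1
  have hdn : ∀ t, HasDerivAt (fun t => C.dn i k t) (-C.dv i k t) t := fun t =>
    (basics C i k t 0).2.2.2.2.2.2.2.2.2.2.2.1
  have hcdv : Continuous (fun t => C.dv i k t) := by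
    rw [continuous_iff_continuousAt]; exact fun t => (hdv t).continuousAt
  have hcdn : Continuous (fun t => C.dn i k t) := by
    rw [continuous_iff_continuousAt]; exact fun t => (hdn t).continuousAt
  have hO1 : IsOpen {t : ℝ | 0 < C.dv i k t} := isOpen_lt continuous_const hcdv
  -- part 1
  have h1 : {t | t ∈ {t : ℝ | 0 < C.dv i k t} ∧
      C.dn i k t + s * C.r k - C.r i = 0}.Countable :=
    zeros_countable _ hO1 (fun t => C.dn i k t + s * C.r k - C.r i) (fun t => -C.dv i k t)
      (fun t _ => ((hdn t).add_const _).sub_const _)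
      (fun t ht _ => neg_ne_zero.mpr (ne_of_gt ht))
  have h2 : {t | t ∈ {t : ℝ | 0 < C.dv i k t} ∧
      C.dn i k t + s * C.r k + C.r i = 0}.Countable :=
    zeros_countable _ hO1 (fun t => C.dn i k t + s * C.r k + C.r i) (fun t => -C.dv i k t)
      (fun t _ => ((hdn t).add_const _).add_const _)
      (fun t ht _ => neg_ne_zero.mpr (ne_of_gt ht))
  -- part 2
  have hri : 0 < C.r i := C.hr i
  have hO2 : IsOpen {t : ℝ | 0 < C.dv i k t ∧ |C.dn i k t + s * C.r k| < C.r i} :=
    hO1.inter (isOpen_lt ((hcdn.add continuous_const).abs) continuous_const)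
  have h3 := transv C i {t : ℝ | 0 < C.dv i k t ∧ |C.dn i k t + s * C.r k| < C.r i} hO2
    (fun t => t + 2 * Real.arcsin ((C.dn i k t + s * C.r k) / C.r i))
    (fun t => -(C.dn i k t + s * C.r k))
    (fun t => 1 - 2 * C.dv i k t / C.hc i (-(C.dn i k t + s * C.r k)))
    (fun t => C.dv i k t) (by
      intro t ht
      obtain ⟨ht1, ht2⟩ := ht
      have hb : (C.dn i k t + s * C.r k) ^ 2 < C.r i ^ 2 := sq_lt_sq' (by
        have := (abs_lt.mp ht2).1; linarith) (abs_lt.mp ht2).2
      have hc : 0 < C.hc i (-(C.dn i k t + s * C.r k)) := by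
        unfold Cfg.hc
        apply Real.sqrt_pos.mpr
        nlinarith [hb]
      have hB : HasDerivAt (fun t => C.dn i k t + s * C.r k) (-C.dv i k t) t :=
        (hdn t).add_const _
      refine ⟨?_, ?_, ?_, ?_⟩
      · have hq : HasDerivAt (fun t => (C.dn i k t + s * C.r k) / C.r i)
            (-C.dv i k t / C.r i) t := hB.div_const _
        have hne1 : (C.dn i k t + s * C.r k) / C.r i ≠ -1 := by
          intro h
          rw [div_eq_iff hri.ne'] at h
          rw [h] at ht2
          rw [show (-1 : ℝ) * C.r i = -(C.r i) by ring, abs_neg, abs_of_pos hri] at ht2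
          exact lt_irrefl _ ht2
        have hne2 : (C.dn i k t + s * C.r k) / C.r i ≠ 1 := by
          intro h
          rw [div_eq_iff hri.ne'] at h
          rw [h] at ht2
          rw [one_mul, abs_of_pos hri] at ht2
          exact lt_irrefl _ ht2
        have ha := (Real.hasDerivAt_arcsin hne1 hne2).comp t hq
        have hfin := (hasDerivAt_id t).add (ha.const_mul 2)
        have hsq : Real.sqrt (1 - ((C.dn i k t + s * C.r k) / C.r i) ^ 2) * C.r i
            = C.hc i (-(C.dn i k t + s * C.r k)) := by
          unfold Cfg.hc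
          rw [show C.r i ^ 2 - (-(C.dn i k t + s * C.r k)) ^ 2
            = (1 - ((C.dn i k t + s * C.r k) / C.r i) ^ 2) * (C.r i) ^ 2 by
              field_simp]
          rw [Real.sqrt_mul' _ (sq_nonneg _), Real.sqrt_sq hri.le]
        have hs0 : 0 < Real.sqrt (1 - ((C.dn i k t + s * C.r k) / C.r i) ^ 2) := by
          by_contra hcon
          have h0 : Real.sqrt (1 - ((C.dn i k t + s * C.r k) / C.r i) ^ 2) = 0 :=
            le_antisymm (not_lt.mp hcon) (Real.sqrt_nonneg _)
          rw [h0, zero_mul] at hsq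
          exact absurd hsq hc.ne
        have hval : 1 + 2 * (1 / Real.sqrt (1 - ((C.dn i k t + s * C.r k) / C.r i) ^ 2) *
            (-C.dv i k t / C.r i)) = 1 - 2 * C.dv i k t / C.hc i (-(C.dn i k t + s * C.r k)) := by
          rw [← hsq]
          field_simp
          ring
        rw [hval] at hfin
        exact hfin
      · have h5 := hB.neg
        rw [neg_neg] at h5
        exact h5
      · rw [abs_neg]; exact ht2
      · apply ucRho _ _ C.tau hc C.htau
        have hg := gap C hik (θ := t) (b := C.dn i k t + s * C.r k) ht2.le (by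
          unfold Cfg.bp
          rw [show C.dn i k t + s * C.r k - C.dn i k t = s * C.r k by ring]
          rcases hs with h | h
          · rw [h, one_mul, abs_of_pos (C.hr k)]
          · rw [h, show (-1 : ℝ) * C.r k = -(C.r k) by ring, abs_neg, abs_of_pos (C.hr k)])
        rw [abs_of_pos ht1] at hg
        have h0 : 0 ≤ C.hc k (C.bp i k t (C.dn i k t + s * C.r k)) := Real.sqrt_nonneg _
        have he : C.hc i (-(C.dn i k t + s * C.r k)) = C.hc i (C.dn i k t + s * C.r k) := by
          unfold Cfg.hc
          rw [neg_sq]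
        rw [he]
        linarith)
  have e1 := h1.ae_notMem (volume : Measure ℝ)
  have e2 := h2.ae_notMem (volume : Measure ℝ)
  have e3 := h3.ae_notMem (volume : Measure ℝ)
  filter_upwards [e1, e2, e3] with t ht1 ht2 ht3 hpos
  refine ⟨?_, ?_⟩
  · intro h
    rcases abs_choice (C.dn i k t + s * C.r k) with h' | h'
    · exact ht1 ⟨hpos, by rw [h'] at h; linarith⟩
    · exact ht2 ⟨hpos, by rw [h'] at h; linarith⟩
  · intro hM hS
    exact ht3 ⟨⟨hpos, hM⟩, hS⟩

end Pool.Light
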