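import Pool.Agent.Helper638.Light.Defs
import Pool.Agent.Helper638.Light.P_gap
import Pool.Agent.Helper638.Light.P_basics
import Pool.Agent.Helper638.Light.P_hits_unique
import Pool.Agent.Helper638.Light.P_T_of_hits
import Pool.Agent.Helper638.Light.P_om_facts
import Pool.Agent.Helper638.Light.P_meas
import Pool.Agent.Helper638.Light.P_sig_bounds
import Pool.Agent.Helper638.Light.P_cut_lim
import Pool.Agent.Helper638.Light.P_fluxEps
import Pool.Agent.Helper638.Light.P_Sr_locint
import Pool.Agent.Helper638.Light.P_nu_facts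
import Pool.Agent.Helper638.Light.P_jlim

set_option autoImplicit false

open MeasureTheory Set Filter Topology

namespace Pool.Light


variable {n : ℕ}


theorem central_Qf_mem (u : ℝ) : 0 ≤ Cfg.Qf u ∧ Cfg.Qf u ≤ 1 :=
  ⟨Real.smoothTransition.nonneg _, Real.smoothTransition.le_one _⟩

theorem central_kap_mem (C : Cfg n) (ε : ℝ) (l : St n) : 0 ≤ C.kap ε l ∧ C.kap ε l ≤ 1 := by
  classical
  unfold Cfg.kap
  constructor
  · apply Finset.prod_nonneg
    intro k _
    split_ifs
    · exact mul_nonneg (central_Qf_mem _).1 (central_Qf_mem _).1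
    · exact zero_le_one
  · apply Finset.prod_le_one
    · intro k _
      split_ifs
      · exact mul_nonneg (central_Qf_mem _).1 (central_Qf_mem _).1
      · exact zero_le_one
    · intro k _
      split_ifs
      · exact mul_le_one₀ (central_Qf_mem _).2 (central_Qf_mem _).1 (central_Qf_mem _).2
      · exact le_rfl

theorem central_cut_mem (C : Cfg n) (ε : ℝ) (N : ℕ) (l : St n) :
    0 ≤ C.cut ε N l ∧ C.cut ε N l ≤ 1 := by
  classical
  induction N generalizing l with
  | zero => simp [Cfg.cut]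
  | succ m ih =>
    unfold Cfg.cut
    split_ifs
    · exact ⟨mul_nonneg (central_kap_mem C ε l).1 (ih _).1,
        mul_le_one₀ (central_kap_mem C ε l).2 (ih _).1 (ih _).2⟩
    · exact ⟨le_rfl, zero_le_one⟩

theorem central_kap_meas (C : Cfg n) (ε : ℝ) : Measurable (C.kap ε) := by
  classical
  apply measurable_from_prod_countable_right
  intro i
  unfold Cfg.kap
  apply Finset.measurable_prod
  intro k _
  have hdv : Measurable (fun p : ℝ × ℝ => C.dv i k p.1) := by
    unfold Cfg.dv; fun_prop
  have hbp : Measurable (fun p : ℝ × ℝ => C.bp i k p.1 p.2) := by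
    unfold Cfg.bp Cfg.dn; fun_prop
  have hQ : Measurable Cfg.Qf := by
    unfold Cfg.Qf
    exact (Real.smoothTransition.continuous.comp (by fun_prop)).measurable
  refine Measurable.ite ?_ ?_ measurable_const
  · by_cases hk : k ≠ i
    · have : {p : ℝ × ℝ | k ≠ i ∧ 0 < C.dv i k p.1} = {p : ℝ × ℝ | 0 < C.dv i k p.1} := by
        ext p; simp [hk]
      simp only
      rw [this]
      exact measurableSet_lt measurable_const hdv
    · have : {p : ℝ × ℝ | k ≠ i ∧ 0 < C.dv i k p.1} = ∅ := by
        ext p; simp [hk]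
      simp only
      rw [this]
      exact MeasurableSet.empty
  · exact (hQ.comp ((hbp.sub_const _).div_const _)).mul (hQ.comp ((hbp.add_const _).div_const _))

theorem central_cut_meas (C : Cfg n) (ε : ℝ) (N : ℕ) : Measurable (C.M.indicator (C.cut ε N)) := by
  classical
  obtain ⟨mT, mOm, -, mM, -⟩ := meas C
  induction N with
  | zero =>
    exact (measurable_const (a := (1:ℝ))).indicator mM
  | succ m ih =>
    have e : C.M.indicator (C.cut ε (m+1)) =
        (C.Om 1).indicator (fun l => C.kap ε l * (C.M.indicator (C.cut ε m)) (C.T l)) := by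
      ext l
      by_cases hl : l ∈ C.M
      · rw [Set.indicator_of_mem hl]
        by_cases h : ∃ j, C.Hits l.1 j l.2.1 l.2.2
        · obtain ⟨j, hj⟩ := h
          have hT : C.T l = (j, C.Tj l.1 j l.2.1 l.2.2) := T_of_hits C hj
          have hTM : C.T l ∈ C.M := by
            rw [hT]
            exact hj.2.2.1
          have h1 : l ∈ C.Om 1 := ⟨hl, ⟨j, hj⟩, hTM⟩
          rw [Set.indicator_of_mem h1, Set.indicator_of_mem hTM]
          conv_lhs => unfold Cfg.cut
          rw [if_pos ⟨j, hj⟩]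
        · have h1 : l ∉ C.Om 1 := fun h1 => h h1.2.1
          rw [Set.indicator_of_notMem h1]
          conv_lhs => unfold Cfg.cut
          rw [if_neg h]
      · rw [Set.indicator_of_notMem hl]
        have h1 : l ∉ C.Om 1 := fun h1 => hl h1.1
        rw [Set.indicator_of_notMem h1]
    rw [e]
    exact ((central_kap_meas C ε).mul (ih.comp mT)).indicator (mOm 1)

theorem central_Sr_double (C : Cfg n) (A : ℝ) (l : St n) : C.Sr (2 * A) l = 2 * C.Sr A l := by
  classical
  unfold Cfg.Sr
  have : ∀ m : ℕ, ENNReal.ofReal (2 * A * C.lam ^ m *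
    (if l ∈ C.Om m then 1 + 1 / C.hc ((C.T^[m]) l).1 ((C.T^[m]) l).2.2 else 0)) =
    2 * ENNReal.ofReal (A * C.lam ^ m *
    (if l ∈ C.Om m then 1 + 1 / C.hc ((C.T^[m]) l).1 ((C.T^[m]) l).2.2 else 0)) := by
    intro m
    rw [mul_assoc 2 A, mul_assoc 2, ENNReal.ofReal_mul (by norm_num)]
    norm_num
  simp only [this]
  rw [ENNReal.tsum_mul_left, ENNReal.toReal_mul]
  norm_num

theorem central_emb (i : Fin n) : MeasurableEmbedding (fun p : ℝ × ℝ => ((i, p) : St n)) :=
  measurableEmbedding_prodMk_left i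

theorem central_nui (C : Cfg n) (A : ℝ) (i : Fin n) :
    C.nui A i = Measure.sum (fun m : ℕ => ENNReal.ofReal (A * C.lam ^ m) •
      Measure.comap (fun p : ℝ × ℝ => ((i, p) : St n)) (C.num m)) := by
  unfold Cfg.nui Cfg.nu
  ext s hs
  have hse := (central_emb i).measurableSet_image.2 hs
  rw [(central_emb i).comap_apply, Measure.sum_apply _ hse, Measure.sum_apply _ hs]
  congr 1
  ext m
  rw [Measure.smul_apply, Measure.smul_apply, (central_emb i).comap_apply]

/-- the central inequality, uniform in `N`. -/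
theorem central (C : Cfg n) : ∃ A > 0, ∀ (e : Bool) (N : ℕ) (i : Fin n) (φ : ℝ × ℝ → ℝ),
    TF (C.r i) φ →
      |∫ p, C.ZN N (i, p) * Cfg.gw e (C.sig N (i, p)) (C.hc i p.2) *
          fderiv ℝ φ p (1, -C.sig N (i, p))| ≤
        (∫ p, |φ p| * C.Sr A (i, p)) + ∫ p, |φ p| ∂(C.nui A i) := by
  classical
  obtain ⟨ε₀, hε₀, A, hA, hflux⟩ := fluxEps C
  obtain ⟨-, mOm, -, mM, -, -, -, -, msig, -, -, mZN, -⟩ := meas C
  refine ⟨2 * A, by positivity, ?_⟩
  intro e N i φ hφ
  obtain ⟨φc, φs, φt⟩ := hφ
  obtain ⟨-, -, -, -, -, -, -, -, -, -, -, -, hK, hlam0, hlam1⟩ := basics C i i 0 0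
  -- abbreviations
  set J : ℕ → ℝ := fun m => ∫ p, |φ p| ∂(Measure.comap (fun p : ℝ × ℝ => ((i, p) : St n)) (C.num m))
    with hJ
  have hcontd : Continuous (fderiv ℝ φ) := φc.continuous_fderiv (by norm_num)
  have hd0 : ∀ p : ℝ × ℝ, ¬ |p.2| < C.r i → fderiv ℝ φ p = 0 := by
    intro p hp
    have : p ∉ tsupport φ := fun h => hp (φt h)
    have h2 : p ∉ tsupport (fderiv ℝ φ) := fun h => this (tsupport_fderiv_subset ℝ h)
    exact image_eq_zero_of_notMem_tsupport h2
  have hsupp : HasCompactSupport (fderiv ℝ φ) := φs.fderiv ℝ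
  -- the decomposition of the derivative
  have hdec : ∀ (p : ℝ × ℝ) (s : ℝ), fderiv ℝ φ p (1, -s) =
      fderiv ℝ φ p (1, 0) - s * fderiv ℝ φ p (0, 1) := by
    intro p s
    have : ((1, -s) : ℝ × ℝ) = (1, 0) - s • (0, 1) := by ext <;> simp
    rw [this, map_sub, map_smul, smul_eq_mul]
  have hc1 : Continuous (fun p => fderiv ℝ φ p (1, 0)) := hcontd.clm_apply continuous_const
  have hc2 : Continuous (fun p => fderiv ℝ φ p (0, 1)) := hcontd.clm_apply continuous_const
  have hi1 : Integrable (fun p => |fderiv ℝ φ p (1, 0)|) := by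
    apply Continuous.integrable_of_hasCompactSupport hc1.abs
    exact (hsupp.mono' (by
      intro p hp
      apply subset_tsupport
      simp only [Function.mem_support] at hp ⊢
      intro h
      rw [h] at hp
      simp at hp))
  have hi2 : Integrable (fun p => |fderiv ℝ φ p (0, 1)|) := by
    apply Continuous.integrable_of_hasCompactSupport hc2.abs
    exact (hsupp.mono' (by
      intro p hp
      apply subset_tsupport
      simp only [Function.mem_support] at hp ⊢
      intro h
      rw [h] at hp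
      simp at hp))
  have hgw : ∀ p : ℝ × ℝ, |p.2| < C.r i →
      |Cfg.gw e (C.sig N (i, p)) (C.hc i p.2)| ≤ 1 := by
    intro p hp
    obtain ⟨h1, h2⟩ := sig_bounds C N (i, p) hp
    have h3 : 0 ≤ C.hc i p.2 := Real.sqrt_nonneg _
    have h4 := C.htau
    simp only at h1 h2
    unfold Cfg.gw
    split_ifs
    · rw [abs_of_nonneg (div_nonneg h3 (by linarith)), div_le_one (by linarith)]
      linarith
    · simp
  have hsigK : ∀ p : ℝ × ℝ, |p.2| < C.r i → |C.sig N (i, p)| ≤ C.K := by
    intro p hp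
    obtain ⟨h1, h2⟩ := sig_bounds C N (i, p) hp
    have h3 : 0 ≤ C.hc i p.2 := Real.sqrt_nonneg _
    have h4 := C.htau
    simp only at h1 h2
    rw [abs_of_nonneg (by linarith)]
    exact h2
  -- measurability
  have hmeas : ∀ ε : ℝ, AEStronglyMeasurable (fun p : ℝ × ℝ =>
      C.cut ε N (i, p) * Cfg.gw e (C.sig N (i, p)) (C.hc i p.2) *
          fderiv ℝ φ p (1, -C.sig N (i, p))) volume := by
    intro ε
    have e1 : (fun p : ℝ × ℝ =>
      C.cut ε N (i, p) * Cfg.gw e (C.sig N (i, p)) (C.hc i p.2) *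
          fderiv ℝ φ p (1, -C.sig N (i, p))) = (fun p : ℝ × ℝ =>
      (C.M.indicator (C.cut ε N)) (i, p) * Cfg.gw e (C.sig N (i, p)) (C.hc i p.2) *
          (fderiv ℝ φ p (1, 0) - C.sig N (i, p) * fderiv ℝ φ p (0, 1))) := by
      ext p
      rw [hdec]
      by_cases hp : |p.2| < C.r i
      · rw [Set.indicator_of_mem (show ((i, p) : St n) ∈ C.M from hp)]
      · have := hd0 p hp
        simp [this]
    rw [e1]
    have ms : Measurable (fun p : ℝ × ℝ => C.sig N (i, p)) := (msig N).comp measurable_prodMk_left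
    have mc : Measurable (fun p : ℝ × ℝ => (C.M.indicator (C.cut ε N)) (i, p)) :=
      (central_cut_meas C ε N).comp measurable_prodMk_left
    have mh : Measurable (fun p : ℝ × ℝ => C.hc i p.2) := by
      unfold Cfg.hc; fun_prop
    have mg : Measurable (fun p : ℝ × ℝ => Cfg.gw e (C.sig N (i, p)) (C.hc i p.2)) := by
      unfold Cfg.gw
      by_cases he : e = true
      · simp only [he, if_true]
        exact mh.div ((ms.const_mul 2).sub mh)
      · simp only [he]
        exact measurable_const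
    exact ((mc.mul mg).mul (hc1.measurable.sub (ms.mul hc2.measurable))).aestronglyMeasurable
  -- limit of the left side
  have hlim : Tendsto (fun ε => ∫ p, C.cut ε N (i, p) * Cfg.gw e (C.sig N (i, p)) (C.hc i p.2) *
          fderiv ℝ φ p (1, -C.sig N (i, p))) (𝓝[>] 0)
      (𝓝 (∫ p, C.ZN N (i, p) * Cfg.gw e (C.sig N (i, p)) (C.hc i p.2) *
          fderiv ℝ φ p (1, -C.sig N (i, p)))) := by
    apply tendsto_integral_filter_of_dominated_convergence
      (fun p => |fderiv ℝ φ p (1, 0)| + C.K * |fderiv ℝ φ p (0, 1)|)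
    · exact Eventually.of_forall hmeas
    · refine Eventually.of_forall (fun ε => Eventually.of_forall (fun p => ?_))
      by_cases hp : |p.2| < C.r i
      · rw [hdec, Real.norm_eq_abs, abs_mul, abs_mul]
        have h1 : |C.cut ε N (i, p)| ≤ 1 := by
          rw [abs_of_nonneg (central_cut_mem C ε N _).1]
          exact (central_cut_mem C ε N _).2
        have h2 := hgw p hp
        have h3 : |fderiv ℝ φ p (1, 0) - C.sig N (i, p) * fderiv ℝ φ p (0, 1)| ≤
            |fderiv ℝ φ p (1, 0)| + C.K * |fderiv ℝ φ p (0, 1)| := by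
          refine (abs_sub _ _).trans ?_
          rw [abs_mul]
          have := mul_le_mul_of_nonneg_right (hsigK p hp) (abs_nonneg (fderiv ℝ φ p (0, 1)))
          linarith
        have h4 : |C.cut ε N (i, p)| * |Cfg.gw e (C.sig N (i, p)) (C.hc i p.2)| ≤ 1 :=
          mul_le_one₀ h1 (abs_nonneg _) h2
        calc _ ≤ 1 * (|fderiv ℝ φ p (1, 0)| + C.K * |fderiv ℝ φ p (0, 1)|) :=
              mul_le_mul h4 h3 (abs_nonneg _) zero_le_one
          _ = _ := one_mul _
      · have := hd0 p hp
        simp [this]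
    · exact hi1.add (hi2.const_mul _)
    · filter_upwards [cut_lim C N i] with p hp
      by_cases h : |p.2| < C.r i
      · exact ((hp h).mul_const _).mul_const _
      · have := hd0 p h
        simp [this]
  -- bound for each κ
  have hb : ∀ κ > 0, |∫ p, C.ZN N (i, p) * Cfg.gw e (C.sig N (i, p)) (C.hc i p.2) *
          fderiv ℝ φ p (1, -C.sig N (i, p))| ≤
      (∫ p, |φ p| * C.Sr A (i, p)) +
        ∑ m ∈ Finset.range N, C.lam ^ m * (A * (2 * J m + κ)) := by
    intro κ hκ
    refine le_of_tendsto hlim.abs ?_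
    have h1 : ∀ᶠ ε in 𝓝[>] (0:ℝ), ∀ m ∈ Finset.range N,
        1 / ε * ∫ p, |φ p| * (C.Om m ∩ (C.T^[m]) ⁻¹' (C.Strip ε)).indicator 1 ((i, p) : St n) ≤
        2 * J m + κ := by
      rw [Filter.eventually_all_finset]
      intro m _
      exact jlim C m i φ φc.continuous φs φt κ hκ
    have h2 : ∀ᶠ ε in 𝓝[>] (0:ℝ), 0 < ε ∧ ε < ε₀ := by
      have := Ioo_mem_nhdsGT hε₀
      filter_upwards [this] with ε hε
      exact hε
    filter_upwards [h1, h2] with ε h1 h2
    refine (hflux ε h2.1 h2.2 e N i φ ⟨φc, φs, φt⟩).trans ?_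
    refine add_le_add le_rfl (Finset.sum_le_sum (fun m hm => ?_))
    have h3 := h1 m hm
    refine mul_le_mul_of_nonneg_left ?_ (by positivity)
    calc A / ε * ∫ p, |φ p| * (C.Om m ∩ (C.T^[m]) ⁻¹' (C.Strip ε)).indicator 1 ((i, p) : St n)
        = A * (1 / ε * ∫ p, |φ p| * (C.Om m ∩ (C.T^[m]) ⁻¹' (C.Strip ε)).indicator 1 ((i, p) : St n)) := by
          ring
      _ ≤ A * (2 * J m + κ) := by gcongr
  -- let κ → 0
  have hb0 : |∫ p, C.ZN N (i, p) * Cfg.gw e (C.sig N (i, p)) (C.hc i p.2) *
          fderiv ℝ φ p (1, -C.sig N (i, p))| ≤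
      (∫ p, |φ p| * C.Sr A (i, p)) +
        ∑ m ∈ Finset.range N, 2 * A * C.lam ^ m * J m := by
    have ht : Tendsto (fun κ : ℝ => (∫ p, |φ p| * C.Sr A (i, p)) +
        ∑ m ∈ Finset.range N, C.lam ^ m * (A * (2 * J m + κ))) (𝓝[>] 0)
        (𝓝 ((∫ p, |φ p| * C.Sr A (i, p)) +
        ∑ m ∈ Finset.range N, C.lam ^ m * (A * (2 * J m + 0)))) := by
      apply Tendsto.mono_left _ nhdsWithin_le_nhds
      apply Continuous.tendsto
      fun_prop
    have h3 := ge_of_tendsto ht (by
      filter_upwards [self_mem_nhdsWithin] with κ hκ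
      exact hb κ hκ)
    refine h3.trans (le_of_eq ?_)
    congr 1
    apply Finset.sum_congr rfl
    intro m _
    ring
  refine hb0.trans (add_le_add ?_ ?_)
  · have h5 : ∫ p, |φ p| * C.Sr (2 * A) (i, p) = 2 * ∫ p, |φ p| * C.Sr A (i, p) := by
      rw [← integral_const_mul]
      congr 1
      ext p
      rw [central_Sr_double]
      ring
    have h6 : 0 ≤ ∫ p, |φ p| * C.Sr A (i, p) := by
      apply integral_nonneg
      intro p
      exact mul_nonneg (abs_nonneg _) ENNReal.toReal_nonneg
    rw [h5]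
    linarith
  · obtain ⟨hfin, -, -⟩ := nu_facts C (2 * A) (by positivity) i
    have hint : Integrable (fun p => |φ p|) (C.nui (2 * A) i) := by
      apply Continuous.integrable_of_hasCompactSupport φc.continuous.abs
      exact φs.comp_left (g := fun x : ℝ => |x|) (by simp)
    rw [central_nui] at hint ⊢
    set μ : ℕ → Measure (ℝ × ℝ) := fun m => ENNReal.ofReal (2 * A * C.lam ^ m) •
      Measure.comap (fun p : ℝ × ℝ => ((i, p) : St n)) (C.num m) with hμ
    have hle : ∑ m ∈ Finset.range N, μ m ≤ Measure.sum μ := by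
      intro s
      rw [Measure.finsetSum_apply]
      refine le_trans ?_ (Measure.le_sum_apply _ _)
      exact ENNReal.sum_le_tsum _
    have hsum : ∑ m ∈ Finset.range N, 2 * A * C.lam ^ m * J m =
        ∫ p, |φ p| ∂(∑ m ∈ Finset.range N, μ m) := by
      rw [integral_finsetSum_measure]
      · apply Finset.sum_congr rfl
        intro m _
        rw [hμ]
        simp only
        rw [integral_smul_measure, ENNReal.toReal_ofReal (by positivity), smul_eq_mul]
      · intro m _
        exact hint.mono_measure (Measure.le_sum μ m)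
    rw [hsum]
    exact integral_mono_measure hle (Eventually.of_forall (fun p => abs_nonneg _)) hint

end Pool.Light
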