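import Pool.Agent.Helper638.Light.Defs
import Pool.Agent.Helper638.Light.P_gap
import Pool.Agent.Helper638.Light.P_basics
import Pool.Agent.Helper638.Light.P_hits_unique
import Pool.Agent.Helper638.Light.P_T_of_hits
import Pool.Agent.Helper638.Light.P_reversal
import Pool.Agent.Helper638.Light.P_shift
import Pool.Agent.Helper638.Light.P_om_facts
import Pool.Agent.Helper638.Light.P_meas
import Pool.Agent.Helper638.Light.P_tang_null

set_option autoImplicit false

open MeasureTheory Set Filter Topology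

namespace Pool.Light


variable {n : ℕ}

theorem nu_facts_measg (C : Cfg n) (m : ℕ) (i k : Fin n) (s : ℝ) :
    Measurable (fun θ => C.inv m (C.tang i k s θ)) := by
  obtain ⟨-, -, -, -, -, -, -, hinv, -⟩ := meas C
  refine (hinv m).comp ?_
  unfold Cfg.tang
  refine measurable_const.prodMk (measurable_id.prodMk ?_)
  unfold Cfg.dn
  have : Continuous (fun θ : ℝ => -(C.cx k - C.cx i) * Real.sin θ + (C.cy k - C.cy i) * Real.cos θ +
      s * C.r k) := by fun_prop
  exact this.measurable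

theorem nu_facts_num (C : Cfg n) (m : ℕ) {E : Set (St n)} (hE : MeasurableSet E) :
    C.num m E = ∑ i, ∑ k,
      (volume ((fun θ => C.inv m (C.tang i k 1 θ)) ⁻¹' E ∩ C.nuSet m i k 1) +
        volume ((fun θ => C.inv m (C.tang i k (-1) θ)) ⁻¹' E ∩ C.nuSet m i k (-1))) := by
  unfold Cfg.num
  rw [Measure.finsetSum_apply]
  refine Finset.sum_congr rfl (fun i _ => ?_)
  rw [Measure.finsetSum_apply]
  refine Finset.sum_congr rfl (fun k _ => ?_)
  rw [Measure.add_apply, Measure.map_apply (nu_facts_measg C m i k 1) hE,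
    Measure.map_apply (nu_facts_measg C m i k (-1)) hE,
    Measure.restrict_apply (nu_facts_measg C m i k 1 hE),
    Measure.restrict_apply (nu_facts_measg C m i k (-1) hE)]

theorem nu_facts_nu (C : Cfg n) (A : ℝ) {E : Set (St n)} (hE : MeasurableSet E) :
    C.nu A E = ∑' m : ℕ, ENNReal.ofReal (A * C.lam ^ m) * C.num m E := by
  unfold Cfg.nu
  rw [Measure.sum_apply _ hE]
  rfl

theorem nu_facts_zero (C : Cfg n) (A : ℝ) {E : Set (St n)} (hE : MeasurableSet E)
    (h : ∀ (m : ℕ) (i k : Fin n) (s : ℝ), (s = 1 ∨ s = -1) →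
      volume ((fun θ => C.inv m (C.tang i k s θ)) ⁻¹' E ∩ C.nuSet m i k s) = 0) :
    C.nu A E = 0 := by
  rw [nu_facts_nu C A hE, ENNReal.tsum_eq_zero]
  intro m
  rw [nu_facts_num C m hE]
  have : (∑ i, ∑ k,
      (volume ((fun θ => C.inv m (C.tang i k 1 θ)) ⁻¹' E ∩ C.nuSet m i k 1) +
        volume ((fun θ => C.inv m (C.tang i k (-1) θ)) ⁻¹' E ∩ C.nuSet m i k (-1)))) = 0 := by
    refine Finset.sum_eq_zero (fun i _ => Finset.sum_eq_zero (fun k _ => ?_))
    rw [h m i k 1 (Or.inl rfl), h m i k (-1) (Or.inr rfl), add_zero]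
  rw [this, mul_zero]

theorem nu_facts_iter (C : Cfg n) (m : ℕ) (l : St n) (hl : l ∈ C.Om m) :
    l.2.1 ≤ ((C.T^[m]) l).2.1 ∧ ((C.T^[m]) l).2.1 ≤ l.2.1 + 2 * Real.pi * m := by
  induction m generalizing l with
  | zero => simp
  | succ m ih =>
    obtain ⟨h1, -, h2⟩ := hl
    obtain ⟨h3, h4⟩ := ih _ h2
    obtain ⟨-, -, -, -, -, -, -, -, -, h5, -⟩ := shift C 0 l
    obtain ⟨h6, h7⟩ := h5 h1
    rw [Function.iterate_succ_apply]
    refine ⟨h6.trans h3, h4.trans ?_⟩
    push_cast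
    nlinarith

theorem nu_facts_angle (C : Cfg n) (m : ℕ) (i k : Fin n) (s θ : ℝ) (h : θ ∈ C.nuSet m i k s) :
    θ - 2 * Real.pi - 2 * Real.pi * m ≤ (C.inv m (C.tang i k s θ)).2.1 ∧
      (C.inv m (C.tang i k s θ)).2.1 ≤ θ + 2 * Real.pi := by
  obtain ⟨-, -, -, h4⟩ := h
  obtain ⟨h5, h6⟩ := nu_facts_iter C m _ h4
  obtain ⟨-, -, -, -, -, -, -, -, -, -, h7, h8⟩ := shift C 0 (C.tang i k s θ)
  obtain ⟨-, -, -, -, -, -, -, -, -, -, h9, h10⟩ := shift C 0 ((C.T^[m]) (C.rho (C.tang i k s θ)))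
  have ht : (C.tang i k s θ).2.1 = θ := rfl
  have hi : (C.inv m (C.tang i k s θ)).2.1 =
      (C.rho ((C.T^[m]) (C.rho (C.tang i k s θ)))).2.1 + 2 * Real.pi * ((-(m : ℤ) : ℤ) : ℝ) := rfl
  rw [hi]
  rw [ht] at h7 h8
  push_cast
  constructor <;> linarith

theorem nu_facts_SS (C : Cfg n) (m : ℕ) (i k : Fin n) (s θ : ℝ) (hs : s = 1 ∨ s = -1)
    (h : θ ∈ C.nuSet m i k s) : C.inv m (C.tang i k s θ) ∈ C.SS := by
  obtain ⟨h1, h2, h3, h4⟩ := h
  obtain ⟨h5, h6⟩ := (reversal C m).2 _ h4 h3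
  refine ⟨m, h5, ?_⟩
  rw [h6]
  refine ⟨h3, k, h1, h2, ?_⟩
  have : C.bp (C.tang i k s θ).1 k (C.tang i k s θ).2.1 (C.tang i k s θ).2.2 = s * C.r k := by
    simp [Cfg.bp, Cfg.tang]
  rw [this]
  rcases hs with rfl | rfl
  · rw [one_mul, abs_of_pos (C.hr k)]
  · rw [neg_one_mul, abs_neg, abs_of_pos (C.hr k)]

theorem nu_facts_rho (C : Cfg n) (m : ℕ) (i k : Fin n) (s θ : ℝ)
    (h : θ ∈ C.nuSet m i k s) (h' : C.rho (C.inv m (C.tang i k s θ)) ∈ C.SS) :
    C.rho (C.tang i k s θ) ∈ C.SS := by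
  obtain ⟨h1, h2, h3, h4⟩ := h
  have e1 : C.rho (C.inv m (C.tang i k s θ)) =
      Cfg.sh (-(m : ℤ)) ((C.T^[m]) (C.rho (C.tang i k s θ))) := by
    unfold Cfg.inv
    rw [(shift C (-(m : ℤ)) _).2.1]
    obtain ⟨-, -, -, -, -, -, -, h5, -⟩ :=
      shift C 0 ((C.T^[m]) (C.rho (C.tang i k s θ)))
    rw [h5]
  rw [e1] at h'
  obtain ⟨-, -, -, -, h5, -⟩ := shift C (-(m : ℤ)) ((C.T^[m]) (C.rho (C.tang i k s θ)))
  obtain ⟨k', h6, h7⟩ := h5.1 h'
  refine ⟨m + k', ((om_facts C m).2.2.1 k' _).2 ⟨h4, h6⟩, ?_⟩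
  rw [add_comm m k', Function.iterate_add_apply]
  exact h7

theorem nu_facts_fin (C : Cfg n) (i0 : Fin n) (A : ℝ) (hA : 0 < A) (L : ℝ) (hL : 0 ≤ L) :
    C.nu A {l | l.2.1 ∈ Icc (-L) L} < ⊤ := by
  have hE : MeasurableSet {l : St n | l.2.1 ∈ Icc (-L) L} :=
    measurableSet_Icc.preimage (measurable_fst.comp measurable_snd)
  obtain ⟨-, -, -, -, -, -, -, -, -, -, -, -, -, hl0, hl1⟩ := basics C i0 i0 0 0
  set c : ℕ → ℝ := fun m => 2 * L + 4 * Real.pi + 2 * Real.pi * m with hc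
  have hc0 : ∀ m, 0 ≤ c m := fun m => by
    have := Real.pi_pos
    simp only [hc]; positivity
  have hvol : ∀ (m : ℕ) (i k : Fin n) (s : ℝ),
      volume ((fun θ => C.inv m (C.tang i k s θ)) ⁻¹' {l : St n | l.2.1 ∈ Icc (-L) L} ∩
        C.nuSet m i k s) ≤ ENNReal.ofReal (c m) := by
    intro m i k s
    have hsub : (fun θ => C.inv m (C.tang i k s θ)) ⁻¹' {l : St n | l.2.1 ∈ Icc (-L) L} ∩
        C.nuSet m i k s ⊆ Icc (-L - 2 * Real.pi) (L + 2 * Real.pi + 2 * Real.pi * m) := by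
      rintro θ ⟨h1, h2⟩
      obtain ⟨h3, h4⟩ := nu_facts_angle C m i k s θ h2
      have h5 : -L ≤ (C.inv m (C.tang i k s θ)).2.1 := h1.1
      have h6 : (C.inv m (C.tang i k s θ)).2.1 ≤ L := h1.2
      constructor <;> linarith
    refine (measure_mono hsub).trans (le_of_eq ?_)
    rw [Real.volume_Icc]
    congr 1
    simp only [hc]
    ring
  have hnum : ∀ m, C.num m {l : St n | l.2.1 ∈ Icc (-L) L} ≤
      ((n : ENNReal) * ((n : ENNReal) * 2)) * ENNReal.ofReal (c m) := by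
    intro m
    rw [nu_facts_num C m hE]
    calc _ ≤ ∑ i : Fin n, ∑ k : Fin n, (ENNReal.ofReal (c m) + ENNReal.ofReal (c m)) :=
          Finset.sum_le_sum (fun i _ => Finset.sum_le_sum (fun k _ =>
            add_le_add (hvol m i k 1) (hvol m i k (-1))))
      _ = _ := by
          rw [Finset.sum_const, Finset.sum_const, Finset.card_univ, Fintype.card_fin, nsmul_eq_mul,
            nsmul_eq_mul, ← two_mul]
          ring
  have hsum : Summable (fun m : ℕ => A * C.lam ^ m * c m) := by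
    have h1 : Summable (fun m : ℕ => C.lam ^ m) := summable_geometric_of_lt_one hl0.le hl1
    have h2 : Summable (fun m : ℕ => ((m : ℝ) ^ 1) * C.lam ^ m) :=
      summable_pow_mul_geometric_of_norm_lt_one 1 (by rw [Real.norm_of_nonneg hl0.le]; exact hl1)
    have h3 := (h1.mul_left (A * (2 * L + 4 * Real.pi))).add (h2.mul_left (A * (2 * Real.pi)))
    refine h3.congr (fun m => ?_)
    simp only [hc]
    ring
  rw [nu_facts_nu C A hE]
  calc _ ≤ ∑' m : ℕ, ((n : ENNReal) * ((n : ENNReal) * 2)) * ENNReal.ofReal (A * C.lam ^ m * c m) := by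
        refine ENNReal.tsum_le_tsum (fun m => ?_)
        rw [ENNReal.ofReal_mul (by positivity : 0 ≤ A * C.lam ^ m)]
        calc _ ≤ ENNReal.ofReal (A * C.lam ^ m) *
              (((n : ENNReal) * ((n : ENNReal) * 2)) * ENNReal.ofReal (c m)) :=
              mul_le_mul_right (hnum m) _
          _ = _ := by ring
    _ = ((n : ENNReal) * ((n : ENNReal) * 2)) * ∑' m : ℕ, ENNReal.ofReal (A * C.lam ^ m * c m) :=
        ENNReal.tsum_mul_left
    _ < ⊤ := by
        rw [← ENNReal.ofReal_tsum_of_nonneg (fun m => mul_nonneg (by positivity) (hc0 m)) hsum]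
        refine ENNReal.mul_lt_top ?_ ENNReal.ofReal_lt_top
        exact ENNReal.mul_lt_top (ENNReal.natCast_lt_top n)
          (ENNReal.mul_lt_top (ENNReal.natCast_lt_top n) (by simp))

/-- properties of the singular measure. -/
theorem nu_facts (C : Cfg n) (A : ℝ) (hA : 0 < A) (i : Fin n) :
    IsFiniteMeasureOnCompacts (C.nui A i) ∧
    C.nui A i {p | ((i, p) : St n) ∉ C.SS} = 0 ∧
    C.nui A i {p | C.rho ((i, p) : St n) ∈ C.SS} = 0 := by
  have hemb : MeasurableEmbedding (fun p : ℝ × ℝ => ((i, p) : St n)) := measurableEmbedding_prodMk_left i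
  obtain ⟨-, -, -, -, -, hSS, hrho, -⟩ := meas C
  refine ⟨⟨fun K hK => ?_⟩, ?_, ?_⟩
  · obtain ⟨R, hR⟩ := hK.isBounded.exists_norm_le
    unfold Cfg.nui
    rw [hemb.comap_apply]
    refine lt_of_le_of_lt (measure_mono ?_) (nu_facts_fin C i A hA (max R 0) (le_max_right _ _))
    rintro _ ⟨p, hp, rfl⟩
    have h1 := hR p hp
    have h2 : |p.1| ≤ ‖p‖ := norm_fst_le p
    have h3 : |p.1| ≤ max R 0 := (h2.trans h1).trans (le_max_left _ _)
    exact ⟨(abs_le.1 h3).1, (abs_le.1 h3).2⟩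
  · unfold Cfg.nui
    rw [hemb.comap_apply]
    refine measure_mono_null (t := C.SSᶜ) ?_ (nu_facts_zero C A hSS.compl ?_)
    · rintro _ ⟨p, hp, rfl⟩
      exact hp
    · intro m i k s hs
      have : (fun θ => C.inv m (C.tang i k s θ)) ⁻¹' C.SSᶜ ∩ C.nuSet m i k s = ∅ := by
        ext θ
        simp only [mem_inter_iff, mem_preimage, mem_compl_iff, mem_empty_iff_false, iff_false, not_and]
        intro h1 h2
        exact h1 (nu_facts_SS C m i k s θ hs h2)
      rw [this, measure_empty]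
  · unfold Cfg.nui
    rw [hemb.comap_apply]
    refine measure_mono_null (t := C.rho ⁻¹' C.SS) ?_ (nu_facts_zero C A (hrho hSS) ?_)
    · rintro _ ⟨p, hp, rfl⟩
      exact hp
    · intro m i k s hs
      by_cases hik : k = i
      · have : (fun θ => C.inv m (C.tang i k s θ)) ⁻¹' (C.rho ⁻¹' C.SS) ∩ C.nuSet m i k s = ∅ := by
          ext θ
          simp only [mem_inter_iff, mem_empty_iff_false, iff_false, not_and]
          intro h1 h2
          exact h2.1 hik
        rw [this, measure_empty]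
      · have h1 := tang_null C i k hik s hs
        rw [ae_iff] at h1
        refine measure_mono_null ?_ h1
        rintro θ ⟨h2, h3⟩ h4
        exact (h4 h3.2.1).2 h3.2.2.1 (nu_facts_rho C m i k s θ h3 h2)

end Pool.Light
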