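import Pool.Agent.Helper638.Light.Defs
import Pool.Agent.Helper638.Light.P_gap
import Pool.Agent.Helper638.Light.P_basics
import Pool.Agent.Helper638.Light.P_hits_unique
import Pool.Agent.Helper638.Light.P_T_of_hits
import Pool.Agent.Helper638.Light.P_om_facts
import Pool.Agent.Helper638.Light.P_meas
import Pool.Agent.Helper638.Light.P_sig_bounds
import Pool.Agent.Helper638.Light.P_sig_lim
import Pool.Agent.Helper638.Light.P_Sr_locint
import Pool.Agent.Helper638.Light.P_nu_facts
import Pool.Agent.Helper638.Light.P_central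

set_option autoImplicit false

open MeasureTheory Set Filter Topology

namespace Pool.Light


variable {n : ℕ}

theorem centralInf_gw (e : Bool) {s c t : ℝ} (ht : 0 < t) (hc : 0 ≤ c) (hs : c + t ≤ s) :
    |Cfg.gw e s c| ≤ 1 := by
  unfold Cfg.gw
  split_ifs with h
  · have h1 : 0 < 2 * s - c := by linarith
    rw [abs_of_nonneg (div_nonneg hc h1.le), div_le_one h1]
    linarith
  · simp

theorem centralInf_hc (C : Cfg n) (i : Fin n) : Continuous (fun b => C.hc i b) := by
  unfold Cfg.hc
  fun_prop

theorem centralInf_hc_nonneg (C : Cfg n) (i : Fin n) (b : ℝ) : 0 ≤ C.hc i b := by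
  unfold Cfg.hc
  exact Real.sqrt_nonneg _

theorem centralInf_lin (L : ℝ × ℝ →L[ℝ] ℝ) (s : ℝ) : L (1, -s) = L (1, 0) - s * L (0, 1) := by
  have h1 : ((1 : ℝ), -s) = (1, 0) + (-s) • (0, 1) := by
    ext <;> simp
  rw [h1, map_add, map_smul, smul_eq_mul]
  ring

theorem centralInf_anti (C : Cfg n) {m N : ℕ} (h : m ≤ N) : C.Om N ⊆ C.Om m := by
  induction h with
  | refl => exact le_rfl
  | step h ih => exact ((om_facts C _).1).trans ih

theorem centralInf (C : Cfg n) : ∃ A > 0, ∀ (e : Bool) (i : Fin n) (φ : ℝ × ℝ → ℝ),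
    TF (C.r i) φ →
      |∫ p, C.Z (i, p) * Cfg.gw e (C.sigInf (i, p)) (C.hc i p.2) *
          fderiv ℝ φ p (1, -C.sigInf (i, p))| ≤
        (∫ p, |φ p| * C.Sr A (i, p)) + ∫ p, |φ p| ∂(C.nui A i) := by
  obtain ⟨A, hA, hmain⟩ := central C
  refine ⟨A, hA, fun e i φ hφ => ?_⟩
  obtain ⟨hmT, hmOm, hmTrap, hmM, -, -, -, -, hmsig, hmsigInf, -, hmZN, hmZ⟩ := meas C
  have hpair : Measurable (fun p : ℝ × ℝ => ((i, p) : St n)) := measurable_prodMk_left
  have hfc : Continuous (fderiv ℝ φ) := hφ.1.continuous_fderiv one_ne_zero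
  have hf1 : Continuous (fun p => fderiv ℝ φ p (1, 0)) := hfc.clm_apply continuous_const
  have hf2 : Continuous (fun p => fderiv ℝ φ p (0, 1)) := hfc.clm_apply continuous_const
  have hhc : Continuous (fun p : ℝ × ℝ => C.hc i p.2) := (centralInf_hc C i).comp continuous_snd
  have hM : ∀ p ∈ tsupport φ, ((i, p) : St n) ∈ C.M := by
    intro p hp
    exact hφ.2.2 hp
  have hz : ∀ p, p ∉ tsupport φ → fderiv ℝ φ p = 0 := by
    intro p hp
    have h1 : p ∉ tsupport (fderiv ℝ φ) := fun h => hp (tsupport_fderiv_subset ℝ h)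
    exact image_eq_zero_of_notMem_tsupport h1
  have hT : Tendsto (fun N => ∫ p, C.ZN N (i, p) * Cfg.gw e (C.sig N (i, p)) (C.hc i p.2) *
          fderiv ℝ φ p (1, -C.sig N (i, p))) atTop
      (𝓝 (∫ p, C.Z (i, p) * Cfg.gw e (C.sigInf (i, p)) (C.hc i p.2) *
          fderiv ℝ φ p (1, -C.sigInf (i, p)))) := by
    refine tendsto_integral_of_dominated_convergence
      (fun p => ‖fderiv ℝ φ p‖ * (1 + C.K)) ?_ ?_ ?_ ?_
    · intro N
      have h1 : Measurable (fun p : ℝ × ℝ => C.ZN N (i, p)) := (hmZN N).comp hpair
      have h2 : Measurable (fun p : ℝ × ℝ => C.sig N (i, p)) := (hmsig N).comp hpair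
      have h3 : Measurable (fun p : ℝ × ℝ => Cfg.gw e (C.sig N (i, p)) (C.hc i p.2)) := by
        unfold Cfg.gw
        split_ifs
        · exact hhc.measurable.div ((h2.const_mul 2).sub hhc.measurable)
        · exact measurable_const
      have h4 : Measurable (fun p : ℝ × ℝ => fderiv ℝ φ p (1, -C.sig N (i, p))) := by
        simp only [centralInf_lin]
        exact hf1.measurable.sub (h2.mul hf2.measurable)
      exact ((h1.mul h3).mul h4).aestronglyMeasurable
    · refine Continuous.integrable_of_hasCompactSupport ?_ ?_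
      · exact hfc.norm.mul continuous_const
      · have h1 : HasCompactSupport (fderiv ℝ φ) := hφ.2.1.fderiv ℝ
        exact h1.norm.mul_right
    · intro N
      refine Eventually.of_forall fun p => ?_
      by_cases hp : p ∈ tsupport φ
      · have hpM := hM p hp
        obtain ⟨h1, h2⟩ := sig_bounds C N (i, p) hpM
        have hc0 := centralInf_hc_nonneg C i p.2
        have h1' : C.hc i p.2 + C.tau ≤ C.sig N (i, p) := h1
        have hsig0 : 0 ≤ C.sig N (i, p) := by have := C.htau; linarith
        have h3 : |Cfg.gw e (C.sig N (i, p)) (C.hc i p.2)| ≤ 1 :=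
          centralInf_gw e C.htau hc0 h1'
        have h4 : |C.ZN N (i, p)| ≤ 1 := by
          unfold Cfg.ZN; split_ifs <;> simp
        have h5 : ‖fderiv ℝ φ p (1, -C.sig N (i, p))‖ ≤ ‖fderiv ℝ φ p‖ * (1 + C.K) := by
          refine (ContinuousLinearMap.le_opNorm _ _).trans ?_
          refine mul_le_mul_of_nonneg_left ?_ (norm_nonneg _)
          rw [Prod.norm_def]
          refine max_le ?_ ?_
          · simp only [norm_one]
            linarith
          · simp only [norm_neg, Real.norm_eq_abs, abs_of_nonneg hsig0]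
            linarith
        rw [norm_mul, norm_mul, Real.norm_eq_abs, Real.norm_eq_abs]
        calc |C.ZN N (i, p)| * |Cfg.gw e (C.sig N (i, p)) (C.hc i p.2)| *
              ‖fderiv ℝ φ p (1, -C.sig N (i, p))‖
            ≤ 1 * 1 * (‖fderiv ℝ φ p‖ * (1 + C.K)) := by
              refine mul_le_mul (mul_le_mul h4 h3 (abs_nonneg _) zero_le_one) h5
                (norm_nonneg _) (by norm_num)
          _ = _ := by ring
      · rw [hz p hp]
        simp
    · refine Eventually.of_forall fun p => ?_
      by_cases hp : p ∈ tsupport φ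
      · have hpM := hM p hp
        obtain ⟨⟨hs1, hs2⟩, hs3⟩ := sig_lim C (i, p) hpM
        by_cases hTr : ((i, p) : St n) ∈ C.Trap
        · have hs4 := hs3 hTr
          have hZN : ∀ N, C.ZN N (i, p) = 1 := by
            intro N
            unfold Cfg.ZN
            rw [if_pos (hTr N)]
          have hZ : C.Z (i, p) = 1 := by
            unfold Cfg.Z
            rw [if_pos hTr]
          simp only [hZN, hZ, one_mul]
          have hc0 := centralInf_hc_nonneg C i p.2
          have hs1' : C.hc i p.2 + C.tau ≤ C.sigInf (i, p) := hs1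
          have hne : 2 * C.sigInf (i, p) - C.hc i p.2 ≠ 0 := by
            have := C.htau
            have : 0 < 2 * C.sigInf (i, p) - C.hc i p.2 := by linarith
            exact this.ne'
          have hg : Tendsto (fun N => Cfg.gw e (C.sig N (i, p)) (C.hc i p.2)) atTop
              (𝓝 (Cfg.gw e (C.sigInf (i, p)) (C.hc i p.2))) := by
            unfold Cfg.gw
            split_ifs
            · exact tendsto_const_nhds.div ((hs4.const_mul 2).sub tendsto_const_nhds) hne
            · exact tendsto_const_nhds
          refine hg.mul ?_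
          simp only [centralInf_lin]
          exact tendsto_const_nhds.sub (hs4.mul tendsto_const_nhds)
        · have hZ : C.Z (i, p) = 0 := by
            unfold Cfg.Z
            rw [if_neg hTr]
          have h1 : ∃ m, ((i, p) : St n) ∉ C.Om m := by
            by_contra hcon
            push Not at hcon
            exact hTr hcon
          obtain ⟨m, hm⟩ := h1
          rw [hZ, zero_mul, zero_mul]
          refine tendsto_const_nhds.congr' ?_
          filter_upwards [eventually_ge_atTop m] with N hN
          have h2 : ((i, p) : St n) ∉ C.Om N := fun h => hm (centralInf_anti C hN h)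
          unfold Cfg.ZN
          rw [if_neg h2, zero_mul, zero_mul]
      · rw [hz p hp]
        simp
  exact le_of_tendsto hT.abs (Eventually.of_forall fun N => hmain e N i φ hφ)

end Pool.Light
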