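import Pool.Agent.Helper638.Light.Defs
import Pool.Agent.Helper638.Light.P_gap
import Pool.Agent.Helper638.Light.P_basics
import Pool.Agent.Helper638.Light.P_hits_unique
import Pool.Agent.Helper638.Light.P_T_of_hits
import Pool.Agent.Helper638.Light.P_shift
import Pool.Agent.Helper638.Light.P_om_facts
import Pool.Agent.Helper638.Light.P_meas
import Pool.Agent.Helper638.Light.P_rhoMeas
import Pool.Agent.Helper638.Light.P_volSum
import Pool.Agent.Helper638.Light.P_poincare
import Pool.Agent.Helper638.Light.P_sig_bounds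
import Pool.Agent.Helper638.Light.P_sig_lim
import Pool.Agent.Helper638.Light.P_Sr_locint
import Pool.Agent.Helper638.Light.P_nu_facts
import Pool.Agent.Helper638.Light.P_centralInf

set_option autoImplicit false

open MeasureTheory Set Filter Topology

namespace Pool.Light


variable {n : ℕ}


/-- the map `p ↦ (rho (i, p)).2` -/
noncomputable def centralU_R (C : Cfg n) (i : Fin n) (p : ℝ × ℝ) : ℝ × ℝ :=
  (p.1 + 2 * Real.arcsin (p.2 / C.r i), -p.2)

theorem centralU_R_eq (C : Cfg n) (i : Fin n) (p : ℝ × ℝ) :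
    C.rho (i, p) = (i, centralU_R C i p) := rfl

theorem centralU_RR (C : Cfg n) (i : Fin n) (p : ℝ × ℝ) :
    centralU_R C i (centralU_R C i p) = p := by
  unfold centralU_R
  ext
  · simp only [neg_div, Real.arcsin_neg]; ring
  · simp

theorem centralU_Rcont (C : Cfg n) (i : Fin n) : Continuous (centralU_R C i) := by
  unfold centralU_R
  have := Real.continuous_arcsin
  fun_prop

theorem centralU_Rmp (C : Cfg n) (i : Fin n) :
    MeasurePreserving (centralU_R C i) (volume : Measure (ℝ × ℝ)) volume := by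
  have hs : MeasurePreserving (Prod.swap : ℝ × ℝ → ℝ × ℝ) (volume.prod volume) (volume.prod volume) :=
    Measure.measurePreserving_swap
  have hS : MeasurePreserving
      (fun p : ℝ × ℝ => (-p.1, p.2 + 2 * Real.arcsin (p.1 / C.r i)))
      (volume.prod volume) (volume.prod volume) := by
    refine MeasurePreserving.skew_product (f := fun b : ℝ => -b)
      (g := fun b t : ℝ => t + 2 * Real.arcsin (b / C.r i))
      (Measure.measurePreserving_neg volume) ?_ ?_
    · have := Real.continuous_arcsin
      exact Continuous.measurable (by unfold Function.uncurry; fun_prop)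
    · exact Filter.Eventually.of_forall (fun b => (measurePreserving_add_right volume _).map_eq)
  have h := hs.comp (hS.comp hs)
  exact h

theorem centralU_Rme (C : Cfg n) (i : Fin n) : MeasurableEmbedding (centralU_R C i) := by
  let e : (ℝ × ℝ) ≃ᵐ (ℝ × ℝ) :=
    { toFun := centralU_R C i
      invFun := centralU_R C i
      left_inv := centralU_RR C i
      right_inv := centralU_RR C i
      measurable_toFun := (centralU_Rcont C i).measurable
      measurable_invFun := (centralU_Rcont C i).measurable }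
  exact e.measurableEmbedding

theorem centralU_int (C : Cfg n) (i : Fin n) (F : ℝ × ℝ → ℝ) :
    ∫ p, F (centralU_R C i p) = ∫ p, F p :=
  (centralU_Rmp C i).integral_comp (centralU_Rme C i) F

theorem centralU_deriv (C : Cfg n) (i : Fin n) (p : ℝ × ℝ) (hp : |p.2| < C.r i) (s : ℝ) :
    ∃ D : ℝ × ℝ →L[ℝ] ℝ × ℝ, HasFDerivAt (centralU_R C i) D p ∧
      D (1, -s) = (1 - 2 * s / C.hc i p.2, s) := by
  have hr := C.hr i
  have hb := abs_lt.1 hp
  have h1 : p.2 / C.r i ≠ -1 := by
    intro h
    rw [div_eq_iff hr.ne'] at h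
    linarith
  have h2 : p.2 / C.r i ≠ 1 := by
    intro h
    rw [div_eq_iff hr.ne'] at h
    linarith
  have hc0 : 0 < C.hc i p.2 := by
    unfold Cfg.hc
    apply Real.sqrt_pos.2
    nlinarith
  have hsq : Real.sqrt (1 - (p.2 / C.r i) ^ 2) = C.hc i p.2 / C.r i := by
    unfold Cfg.hc
    have : 1 - (p.2 / C.r i) ^ 2 = (C.r i ^ 2 - p.2 ^ 2) / C.r i ^ 2 := by
      field_simp
    rw [this, Real.sqrt_div' _ (by positivity), Real.sqrt_sq hr.le]
  have h3 : HasFDerivAt (fun q : ℝ × ℝ => q.2 / C.r i)
      ((C.r i)⁻¹ • ContinuousLinearMap.snd ℝ ℝ ℝ) p := by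
    have := (hasFDerivAt_snd (𝕜 := ℝ) (p := p)).const_mul (C.r i)⁻¹
    refine this.congr_of_eventuallyEq (Filter.Eventually.of_forall (fun q => ?_))
    show q.2 / C.r i = (C.r i)⁻¹ * q.2
    rw [div_eq_inv_mul]
  have h4 := (Real.hasDerivAt_arcsin h1 h2).comp_hasFDerivAt p h3
  have h5 := (hasFDerivAt_fst (𝕜 := ℝ) (p := p)).add (h4.const_mul 2)
  have h6 := h5.prodMk (hasFDerivAt_snd (𝕜 := ℝ) (p := p)).neg
  refine ⟨_, h6, ?_⟩
  rw [hsq]
  ext
  · simp
    field_simp
    ring
  · simp

theorem centralU_TF (C : Cfg n) (i : Fin n) (φ : ℝ × ℝ → ℝ) (h : TF (C.r i) φ) :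
    TF (C.r i) (fun p => φ (centralU_R C i p)) ∧
      ∀ p : ℝ × ℝ, ¬ |p.2| < C.r i → fderiv ℝ (fun p => φ (centralU_R C i p)) p = 0 := by
  obtain ⟨hφ, hcs, hts⟩ := h
  have hRc := centralU_Rcont C i
  have hcl : IsClosed ((centralU_R C i) ⁻¹' (tsupport φ)) := (isClosed_tsupport φ).preimage hRc
  have hsub : (centralU_R C i) ⁻¹' (tsupport φ) ⊆ {p | |p.2| < C.r i} := by
    intro p hp
    have := hts hp
    simpa [centralU_R] using this
  have hsupp : Function.support (fun p => φ (centralU_R C i p)) ⊆ (centralU_R C i) ⁻¹' (tsupport φ) :=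
    fun p hp => subset_tsupport φ hp
  have hts' : tsupport (fun p => φ (centralU_R C i p)) ⊆ (centralU_R C i) ⁻¹' (tsupport φ) :=
    closure_minimal hsupp hcl
  have hzero : ∀ p, p ∉ (centralU_R C i) ⁻¹' (tsupport φ) →
      (fun p => φ (centralU_R C i p)) =ᶠ[𝓝 p] fun _ => 0 := by
    intro p hp
    filter_upwards [hcl.isOpen_compl.mem_nhds hp] with q hq
    exact image_eq_zero_of_notMem_tsupport hq
  refine ⟨⟨?_, ?_, hts'.trans hsub⟩, ?_⟩
  · rw [contDiff_iff_contDiffAt]
    intro p
    by_cases hp : |p.2| < C.r i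
    · have hr := C.hr i
      have hb := abs_lt.1 hp
      have h1 : p.2 / C.r i ≠ -1 := by
        intro h
        rw [div_eq_iff hr.ne'] at h
        linarith
      have h2 : p.2 / C.r i ≠ 1 := by
        intro h
        rw [div_eq_iff hr.ne'] at h
        linarith
      have hR : ContDiffAt ℝ 1 (centralU_R C i) p := by
        unfold centralU_R
        refine ContDiffAt.prodMk ?_ (contDiffAt_snd.neg)
        refine contDiffAt_fst.add (contDiffAt_const.mul ?_)
        exact ContDiffAt.comp (g := Real.arcsin) (f := fun q : ℝ × ℝ => q.2 / C.r i) p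
          (Real.contDiffAt_arcsin h1 h2) (contDiffAt_snd.div_const _)
      exact hφ.contDiffAt.comp p hR
    · exact contDiffAt_const.congr_of_eventuallyEq (hzero p (fun h => hp (hsub h)))
  · have hcomp : IsCompact ((centralU_R C i) ⁻¹' (tsupport φ)) := by
      have : (centralU_R C i) ⁻¹' (tsupport φ) = (centralU_R C i) '' (tsupport φ) := by
        ext p
        constructor
        · intro hp
          exact ⟨_, hp, centralU_RR C i p⟩
        · rintro ⟨q, hq, rfl⟩
          show centralU_R C i (centralU_R C i q) ∈ tsupport φ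
          rw [centralU_RR]
          exact hq
      rw [this]
      exact hcs.isCompact.image hRc
    exact HasCompactSupport.of_support_subset_isCompact hcomp hsupp
  · intro p hp
    rw [(hzero p (fun h => hp (hsub h))).fderiv_eq]
    simp

theorem centralU_key (C : Cfg n) (i : Fin n) (φ : ℝ × ℝ → ℝ) (h : TF (C.r i) φ) (p : ℝ × ℝ) :
    Cfg.gw true (C.sigInf (i, p)) (C.hc i p.2) *
        fderiv ℝ (fun p => φ (centralU_R C i p)) p (1, -C.sigInf (i, p))
      = - fderiv ℝ φ (centralU_R C i p) (1, -C.sigU (i, centralU_R C i p)) := by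
  by_cases hp : |p.2| < C.r i
  · obtain ⟨D, hD, hDe⟩ := centralU_deriv C i p hp (C.sigInf (i, p))
    have hφd : HasFDerivAt φ (fderiv ℝ φ (centralU_R C i p)) (centralU_R C i p) :=
      (h.1.differentiable one_ne_zero _).hasFDerivAt
    have hcomp := (hφd.comp p hD).fderiv
    have hM : ((i, p) : St n) ∈ C.M := hp
    have hs := (sig_lim C (i, p) hM).1.1
    have hsU : C.sigU (i, centralU_R C i p) = Cfg.gf (C.sigInf (i, p)) (C.hc i p.2) := by
      unfold Cfg.sigU
      rw [centralU_R_eq, centralU_RR]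
      congr 1
      unfold Cfg.hc centralU_R
      simp
    have hc0 : 0 < C.hc i p.2 := by
      have hb := abs_lt.1 hp
      unfold Cfg.hc
      apply Real.sqrt_pos.2
      nlinarith
    rw [hsU]
    generalize C.sigInf (i, p) = s at *
    have hs' : C.hc i p.2 + C.tau ≤ s := hs
    have htau := C.htau
    generalize C.hc i p.2 = c at *
    have h2 : 0 < 2 * s - c := by linarith
    have hcomp' : fderiv ℝ (fun p => φ (centralU_R C i p)) p (1, -s)
        = fderiv ℝ φ (centralU_R C i p) (D (1, -s)) := by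
      have : fderiv ℝ (fun p => φ (centralU_R C i p)) p = (fderiv ℝ φ (centralU_R C i p)).comp D :=
        hcomp
      rw [this]
      rfl
    rw [hcomp', hDe]
    have hcne := hc0.ne'
    have h2ne := h2.ne'
    have hv : ((1 - 2 * s / c, s) : ℝ × ℝ) = (-((2 * s - c) / c)) • ((1, -Cfg.gf s c) : ℝ × ℝ) := by
      unfold Cfg.gf
      ext
      · simp
        field_simp
        ring
      · show s = -((2 * s - c) / c) * -(s * c / (2 * s - c))
        have e9 : -((2 * s - c) / c) * -(s * c / (2 * s - c))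
            = s * ((2 * s - c) / (2 * s - c)) * (c / c) := by ring
        rw [e9, div_self h2ne, div_self hcne, mul_one, mul_one]
    rw [hv, map_smul, smul_eq_mul]
    unfold Cfg.gw
    simp only [if_true]
    field_simp
  · have h1 := (centralU_TF C i φ h).2 p hp
    have h2 : fderiv ℝ φ (centralU_R C i p) = 0 := by
      have hnt : centralU_R C i p ∉ tsupport φ := by
        intro hmem
        apply hp
        have := h.2.2 hmem
        simpa [centralU_R] using this
      have : φ =ᶠ[𝓝 (centralU_R C i p)] fun _ => 0 := by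
        filter_upwards [(isClosed_tsupport φ).isOpen_compl.mem_nhds hnt] with q hq
        exact image_eq_zero_of_notMem_tsupport hq
      rw [this.fderiv_eq]
      simp
    rw [h1, h2]
    simp

theorem centralU_poinc (C : Cfg n) (i : Fin n) :
    ∀ᵐ p : ℝ × ℝ, |p.2| < C.r i → C.Z (i, centralU_R C i p) = C.Z (i, p) := by
  classical
  have hm := meas C
  have hTrap : MeasurableSet C.Trap := hm.2.2.1
  have hMm : MeasurableSet C.M := hm.2.2.2.1
  have hrho : Measurable C.rho := hm.2.2.2.2.2.2.1
  have hbad : MeasurableSet {l : St n | l ∈ C.M ∧ ¬ (l ∈ C.Trap ↔ C.rho l ∈ C.Trap)} := by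
    have h1 : MeasurableSet {l : St n | l ∈ C.Trap} := hTrap
    have h2 : MeasurableSet {l : St n | C.rho l ∈ C.Trap} := hrho hTrap
    exact hMm.inter (MeasurableSet.compl (h1.iff h2))
  have hp := poincare C
  rw [ae_restrict_iff' hMm] at hp
  have h0 : ∫⁻ l, ({l : St n | l ∈ C.M ∧ ¬ (l ∈ C.Trap ↔ C.rho l ∈ C.Trap)}).indicator
      (fun _ => (1 : ENNReal)) l ∂(Cfg.vol n) = 0 := by
    rw [lintegral_indicator_const hbad, one_mul]
    rw [ae_iff] at hp
    convert hp using 2
    ext l
    simp only [Set.mem_ofPred_eq, Classical.not_imp]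
  rw [volSum _ (measurable_const.indicator hbad), Finset.sum_eq_zero_iff] at h0
  have h1 := h0 i (Finset.mem_univ i)
  have hmeas : Measurable (fun p : ℝ × ℝ => ({l : St n | l ∈ C.M ∧
      ¬ (l ∈ C.Trap ↔ C.rho l ∈ C.Trap)}).indicator (fun _ => (1 : ENNReal)) (i, p)) :=
    (measurable_const.indicator hbad).comp measurable_prodMk_left
  rw [lintegral_eq_zero_iff hmeas] at h1
  filter_upwards [h1] with p hp1 hp2
  have h3 : ((i, p) : St n) ∉ {l : St n | l ∈ C.M ∧ ¬ (l ∈ C.Trap ↔ C.rho l ∈ C.Trap)} := by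
    intro hmem
    rw [Set.indicator_of_mem hmem] at hp1
    simp at hp1
  have h4 : ((i, p) : St n) ∈ C.Trap ↔ C.rho (i, p) ∈ C.Trap := by
    by_contra hcon
    exact h3 ⟨hp2, hcon⟩
  rw [centralU_R_eq] at h4
  unfold Cfg.Z
  simp only [h4]

theorem centralU (C : Cfg n) : ∃ A > 0, ∀ (i : Fin n) (φ : ℝ × ℝ → ℝ), TF (C.r i) φ →
      (|∫ p, C.Z (i, p) * fderiv ℝ φ p (1, -C.sigInf (i, p))| ≤
        (∫ p, |φ p| * C.Sr A (i, p)) + ∫ p, |φ p| ∂(C.nui A i)) ∧
      (|∫ p, C.Z (i, p) * fderiv ℝ φ p (1, -C.sigU (i, p))| ≤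
        (∫ p, |φ p| * C.Sr A (C.rho (i, p))) +
          ∫ p, |φ p| ∂(Measure.map (fun p : ℝ × ℝ => (C.rho (i, p)).2) (C.nui A i))) := by
  obtain ⟨A, hA, hInf⟩ := centralInf C
  refine ⟨A, hA, fun i φ hφ => ⟨?_, ?_⟩⟩
  · have := hInf false i φ hφ
    simpa [Cfg.gw] using this
  · have h1 := hInf true i (fun p => φ (centralU_R C i p)) (centralU_TF C i φ hφ).1
    have hL : ∫ p, C.Z (i, p) * Cfg.gw true (C.sigInf (i, p)) (C.hc i p.2) *
          fderiv ℝ (fun p => φ (centralU_R C i p)) p (1, -C.sigInf (i, p))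
        = - ∫ p, C.Z (i, p) * fderiv ℝ φ p (1, -C.sigU (i, p)) := by
      have e1 : ∀ p, C.Z (i, p) * Cfg.gw true (C.sigInf (i, p)) (C.hc i p.2) *
          fderiv ℝ (fun p => φ (centralU_R C i p)) p (1, -C.sigInf (i, p))
          = (fun p => -(C.Z (i, centralU_R C i p) * fderiv ℝ φ p (1, -C.sigU (i, p))))
            (centralU_R C i p) := by
        intro p
        simp only [centralU_RR]
        rw [mul_assoc, centralU_key C i φ hφ p]
        ring
      rw [integral_congr_ae (Filter.Eventually.of_forall e1),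
        centralU_int C i (fun p => -(C.Z (i, centralU_R C i p) * fderiv ℝ φ p (1, -C.sigU (i, p)))),
        integral_neg]
      congr 1
      refine integral_congr_ae ?_
      filter_upwards [centralU_poinc C i] with p hp
      by_cases hb : |p.2| < C.r i
      · simp only [hp hb]
      · have h2 : fderiv ℝ φ p = 0 := by
          have hnt : p ∉ tsupport φ := fun hmem => hb (hφ.2.2 hmem)
          have : φ =ᶠ[𝓝 p] fun _ => 0 := by
            filter_upwards [(isClosed_tsupport φ).isOpen_compl.mem_nhds hnt] with q hq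
            exact image_eq_zero_of_notMem_tsupport hq
          rw [this.fderiv_eq]
          simp
        simp only [h2]
        simp
    rw [hL, abs_neg] at h1
    refine h1.trans (le_of_eq ?_)
    congr 1
    · have e2 : ∀ p, |φ (centralU_R C i p)| * C.Sr A (i, p)
          = (fun p => |φ p| * C.Sr A (C.rho (i, p))) (centralU_R C i p) := by
        intro p
        simp only [centralU_R_eq, centralU_RR]
      rw [integral_congr_ae (Filter.Eventually.of_forall e2),
        centralU_int C i (fun p => |φ p| * C.Sr A (C.rho (i, p)))]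
    · have hR : Measurable (fun p : ℝ × ℝ => (C.rho (i, p)).2) := (centralU_Rcont C i).measurable
      rw [integral_map hR.aemeasurable]
      · rfl
      · exact (hφ.1.continuous.abs).aestronglyMeasurable

end Pool.Light
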