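import Pool.Agent.Helper638.Light.Defs
import Pool.Agent.Helper638.Light.P_gap
import Pool.Agent.Helper638.Light.P_basics
import Pool.Agent.Helper638.Light.P_hits_unique
import Pool.Agent.Helper638.Light.P_T_of_hits
import Pool.Agent.Helper638.Light.P_isOpen_hits
import Pool.Agent.Helper638.Light.P_om_facts
import Pool.Agent.Helper638.Light.P_Tsmooth

set_option autoImplicit false

open MeasureTheory Set Filter Topology

namespace Pool.Light


variable {n : ℕ}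

/-- the functions -/
noncomputable def curvesS_G (C : Cfg n) (i : Fin n) (m : ℕ) (k : Fin n) (s : ℝ) (q : ℝ × ℝ) : ℝ :=
  (-1) ^ m * (C.bp ((C.T^[m]) ((i, q) : St n)).1 k ((C.T^[m]) ((i, q) : St n)).2.1
    ((C.T^[m]) ((i, q) : St n)).2.2 - s * C.r k)

/-- the pointwise condition -/
def curvesS_P (C : Cfg n) (i : Fin n) (m : ℕ) (k : Fin n) (s : ℝ) (q : ℝ × ℝ) : Prop :=
  |q.2| < C.r i ∧ ContDiffAt ℝ 1 (curvesS_G C i m k s) q ∧
  0 < fderiv ℝ (curvesS_G C i m k s) q (0, 1) ∧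
  (C.hc i q.2 + C.tau / 2) * fderiv ℝ (curvesS_G C i m k s) q (0, 1) ≤
    fderiv ℝ (curvesS_G C i m k s) q (1, 0) ∧
  (curvesS_G C i m k s q = 0 → ((i, q) : St n) ∈ C.Om m ∧ (C.T^[m]) ((i, q) : St n) ∈ C.S1)

theorem curvesS_zero (C : Cfg n) (i k : Fin n) (s : ℝ) (hs : s = 1 ∨ s = -1) (q0 : ℝ × ℝ)
    (hq0 : |q0.2| < C.r i) (hk : k ≠ i) (hdv : 0 < C.dv i k q0.1)
    (hb : C.bp i k q0.1 q0.2 = s * C.r k) : ∀ᶠ q in 𝓝 q0, curvesS_P C i 0 k s q := by
  have hG : curvesS_G C i 0 k s = fun q : ℝ × ℝ => q.2 - C.dn i k q.1 - s * C.r k := by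
    funext q
    simp only [curvesS_G, Cfg.bp, pow_zero, one_mul, Function.iterate_zero, id_eq]
  have hder : ∀ q : ℝ × ℝ, HasFDerivAt (curvesS_G C i 0 k s)
      (ContinuousLinearMap.snd ℝ ℝ ℝ - (-C.dv i k q.1) • ContinuousLinearMap.fst ℝ ℝ ℝ) q := by
    intro q
    rw [hG]
    have h1 := (basics C i k q.1 q.2).2.2.2.2.2.2.2.2.2.2.2.1
    have h2 : HasFDerivAt (fun q : ℝ × ℝ => C.dn i k q.1)
        ((-C.dv i k q.1) • ContinuousLinearMap.fst ℝ ℝ ℝ) q :=
      h1.comp_hasFDerivAt q (hasFDerivAt_fst)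
    exact (hasFDerivAt_snd.sub h2).sub_const _
  have hcd : ContDiff ℝ 1 (curvesS_G C i 0 k s) := by
    rw [hG]
    unfold Cfg.dn
    fun_prop
  have habs : |C.bp i k q0.1 q0.2| = C.r k := by
    rw [hb]
    rcases hs with rfl | rfl
    · rw [one_mul, abs_of_pos (C.hr k)]
    · rw [neg_one_mul, abs_neg, abs_of_pos (C.hr k)]
  have hgap := gap C hk hq0.le habs.le
  rw [abs_of_pos hdv] at hgap
  have hc0 : 0 ≤ C.hc k (C.bp i k q0.1 q0.2) := Real.sqrt_nonneg _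
  have hcontdv : Continuous fun q : ℝ × ℝ => C.dv i k q.1 := by
    unfold Cfg.dv
    fun_prop
  have hconthc : Continuous fun q : ℝ × ℝ => C.hc i q.2 := by
    unfold Cfg.hc
    fun_prop
  have e1 : ∀ᶠ q : ℝ × ℝ in 𝓝 q0, |q.2| < C.r i :=
    (continuous_snd.abs.continuousAt.eventually_lt continuousAt_const hq0)
  have e2 : ∀ᶠ q : ℝ × ℝ in 𝓝 q0, 0 < C.dv i k q.1 :=
    continuousAt_const.eventually_lt hcontdv.continuousAt hdv
  have e3 : ∀ᶠ q : ℝ × ℝ in 𝓝 q0, C.hc i q.2 + C.tau / 2 < C.dv i k q.1 := by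
    refine (hconthc.add continuous_const).continuousAt.eventually_lt hcontdv.continuousAt ?_
    have := C.htau
    show C.hc i q0.2 + C.tau / 2 < C.dv i k q0.1
    linarith
  filter_upwards [e1, e2, e3] with q h1 h2 h3
  have hf := (hder q).fderiv
  refine ⟨h1, hcd.contDiffAt, ?_, ?_, ?_⟩
  · rw [hf]; simp
  · rw [hf]; simp; exact h3.le
  · intro h0
    rw [hG] at h0
    have hb' : C.bp i k q.1 q.2 = s * C.r k := by
      simp only [Cfg.bp]
      linarith
    refine ⟨h1, h1, k, hk, h2, ?_⟩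
    show |C.bp i k q.1 q.2| = C.r k
    rw [hb']
    rcases hs with rfl | rfl
    · rw [one_mul, abs_of_pos (C.hr k)]
    · rw [neg_one_mul, abs_neg, abs_of_pos (C.hr k)]

theorem curvesS_main (C : Cfg n) (k : Fin n) (s : ℝ) (hs : s = 1 ∨ s = -1) :
    ∀ (m : ℕ) (i : Fin n) (q0 : ℝ × ℝ), ((i, q0) : St n) ∈ C.Om m →
      k ≠ ((C.T^[m]) ((i, q0) : St n)).1 →
      0 < C.dv ((C.T^[m]) ((i, q0) : St n)).1 k ((C.T^[m]) ((i, q0) : St n)).2.1 →
      C.bp ((C.T^[m]) ((i, q0) : St n)).1 k ((C.T^[m]) ((i, q0) : St n)).2.1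
        ((C.T^[m]) ((i, q0) : St n)).2.2 = s * C.r k →
      ∀ᶠ q in 𝓝 q0, curvesS_P C i m k s q := by
  intro m
  induction m with
  | zero =>
    intro i q0 hq hk hdv hb
    exact curvesS_zero C i k s hs q0 hq hk hdv hb
  | succ m ih =>
    intro i q0 hq hk hdv hb
    obtain ⟨hM, ⟨j, hj⟩, hT⟩ := hq
    have hM' : |q0.2| < C.r i := hM
    have hj' : C.Hits i j q0.1 q0.2 := hj
    have hTq0 : C.T ((i, q0) : St n) = (j, C.Tj i j q0.1 q0.2) := T_of_hits C hj'
    rw [Function.iterate_succ_apply, hTq0] at hk hdv hb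
    rw [hTq0] at hT
    have hev := ih j (C.Tj i j q0.1 q0.2) hT hk hdv hb
    obtain ⟨hloc, hcd0, -⟩ := Tsmooth C hM' hj'
    have hcont : Filter.Tendsto (fun q : ℝ × ℝ => C.Tj i j q.1 q.2) (𝓝 q0)
        (𝓝 (C.Tj i j q0.1 q0.2)) := hcd0.continuousAt
    have hev2 := hcont.eventually hev
    filter_upwards [hloc.eventually_nhds, hev2] with q hq1 hq2
    obtain ⟨hqr, hqh, hqT⟩ := hq1.self_of_nhds
    obtain ⟨-, hcdq, hderq⟩ := Tsmooth C hqr hqh
    have hGeq : curvesS_G C i (m + 1) k s =ᶠ[𝓝 q]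
        fun q' => -(curvesS_G C j m k s (C.Tj i j q'.1 q'.2)) := by
      filter_upwards [hq1] with q' hq'
      simp only [curvesS_G, Function.iterate_succ_apply]
      rw [hq'.2.2, pow_succ]
      ring
    obtain ⟨hP1, hP2, hP3, hP4, hP5⟩ := hq2
    have hcomp : ContDiffAt ℝ 1 (fun q' : ℝ × ℝ => -(curvesS_G C j m k s (C.Tj i j q'.1 q'.2))) q := by
      refine ContDiffAt.neg ?_
      exact ContDiffAt.comp (g := curvesS_G C j m k s)
        (f := fun q' : ℝ × ℝ => C.Tj i j q'.1 q'.2) q hP2 hcdq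
    have hfd : ∀ u, fderiv ℝ (curvesS_G C i (m + 1) k s) q u =
        -(fderiv ℝ (curvesS_G C j m k s) (C.Tj i j q.1 q.2)
          (fderiv ℝ (fun q' : ℝ × ℝ => C.Tj i j q'.1 q'.2) q u)) := by
      intro u
      rw [hGeq.fderiv_eq]
      have h1 : HasFDerivAt (curvesS_G C j m k s)
          (fderiv ℝ (curvesS_G C j m k s) (C.Tj i j q.1 q.2)) (C.Tj i j q.1 q.2) :=
        (hP2.differentiableAt (by norm_num)).hasFDerivAt
      have h2 : HasFDerivAt (fun q' : ℝ × ℝ => C.Tj i j q'.1 q'.2)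
          (fderiv ℝ (fun q' : ℝ × ℝ => C.Tj i j q'.1 q'.2) q) q :=
        (hcdq.differentiableAt (by norm_num)).hasFDerivAt
      have h3 : HasFDerivAt (fun q' : ℝ × ℝ => -(curvesS_G C j m k s (C.Tj i j q'.1 q'.2)))
          (-((fderiv ℝ (curvesS_G C j m k s) (C.Tj i j q.1 q.2)).comp
            (fderiv ℝ (fun q' : ℝ × ℝ => C.Tj i j q'.1 q'.2) q))) q :=
        (HasFDerivAt.comp (g := curvesS_G C j m k s)
          (f := fun q' : ℝ × ℝ => C.Tj i j q'.1 q'.2) q h1 h2).neg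
      rw [h3.fderiv]
      rfl
    set L := fderiv ℝ (curvesS_G C j m k s) (C.Tj i j q.1 q.2) with hL
    have hLdec : ∀ x y : ℝ, L (x, y) = x * L (1, 0) + y * L (0, 1) := by
      intro x y
      have : ((x, y) : ℝ × ℝ) = x • (1, 0) + y • (0, 1) := by
        simp
      rw [this, map_add, map_smul, map_smul, smul_eq_mul, smul_eq_mul]
    have hTj2 : (C.Tj i j q.1 q.2).2 = C.bp i j q.1 q.2 := rfl
    rw [hTj2] at hP4
    set c' := C.hc j (C.bp i j q.1 q.2) with hc'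
    have hbp : |C.bp i j q.1 q.2| < C.r j := hqh.2.2.1
    have hc'pos : 0 < c' := by
      rw [hc']
      unfold Cfg.hc
      apply Real.sqrt_pos.mpr
      have := sq_lt_sq' (by linarith [(abs_lt.mp hbp).1]) (abs_lt.mp hbp).2
      linarith
    have hgap := gap C (Ne.symm hqh.1) hqr.le hbp.le
    rw [abs_of_pos hqh.2.1, ← hc'] at hgap
    have ht := C.htau
    have hfb : fderiv ℝ (curvesS_G C i (m + 1) k s) q (0, 1) = 2 / c' * L (1, 0) - L (0, 1) := by
      rw [hfd, hderq, hLdec]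
      simp only
      ring
    have hft : fderiv ℝ (curvesS_G C i (m + 1) k s) q (1, 0) =
        C.dv i j q.1 * (2 / c' * L (1, 0) - L (0, 1)) - L (1, 0) := by
      rw [hfd, hderq, hLdec]
      simp only
      ring
    have hkey : c' * (2 / c' * L (1, 0) - L (0, 1)) = 2 * L (1, 0) - c' * L (0, 1) := by
      field_simp
    have hge : c' * L (0, 1) + C.tau / 2 * L (0, 1) ≤ L (1, 0) := by linarith
    have hcL : 0 < c' * L (0, 1) := mul_pos hc'pos hP3
    have htL : 0 < C.tau / 2 * L (0, 1) := mul_pos (by linarith) hP3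
    have hfbpos : 0 < 2 / c' * L (1, 0) - L (0, 1) := by
      by_contra hneg
      push Not at hneg
      have := mul_nonpos_of_nonneg_of_nonpos hc'pos.le hneg
      rw [hkey] at this
      linarith
    refine ⟨hqr, hcomp.congr_of_eventuallyEq hGeq, ?_, ?_, ?_⟩
    · rw [hfb]; exact hfbpos
    · rw [hfb, hft]
      have h1 : L (1, 0) ≤ c' * (2 / c' * L (1, 0) - L (0, 1)) := by
        rw [hkey]; linarith
      have h2 := mul_le_mul_of_nonneg_right hgap hfbpos.le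
      have h3 : 0 < C.tau / 2 * (2 / c' * L (1, 0) - L (0, 1)) := mul_pos (by linarith) hfbpos
      nlinarith [h1, h2, h3]
    · intro h0
      have h1 := hGeq.self_of_nhds
      rw [h0] at h1
      have h2 : curvesS_G C j m k s (C.Tj i j q.1 q.2) = 0 := by
        have h3 : (0 : ℝ) = -(curvesS_G C j m k s (C.Tj i j q.1 q.2)) := h1
        linarith
      obtain ⟨h3, h4⟩ := hP5 h2
      refine ⟨⟨hqr, ⟨j, hqh⟩, ?_⟩, ?_⟩
      · rw [hqT]; exact h3
      · rw [Function.iterate_succ_apply, hqT]; exact h4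

theorem curvesS (C : Cfg n) (i : Fin n) :
    ∃ (W : ℕ → Set (ℝ × ℝ)) (F : ℕ → ℝ × ℝ → ℝ),
      (∀ l, IsOpen (W l) ∧ W l ⊆ {p | |p.2| < C.r i} ∧ ContDiffOn ℝ 1 (F l) (W l) ∧
        (∀ q ∈ W l, 0 < fderiv ℝ (F l) q (0, 1) ∧
          (C.hc i q.2 + C.tau / 2) * fderiv ℝ (F l) q (0, 1) ≤ fderiv ℝ (F l) q (1, 0)) ∧
        (∀ q ∈ W l, F l q = 0 → ((i, q) : St n) ∈ C.SS)) ∧
      ∀ q, ((i, q) : St n) ∈ C.SS → ∃ l, q ∈ W l ∧ F l q = 0 := by
  haveI : Nonempty (ℕ × Fin n × Bool) := ⟨(0, i, true)⟩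
  obtain ⟨e, he⟩ := exists_surjective_nat (ℕ × Fin n × Bool)
  let sg : Bool → ℝ := fun b => if b then 1 else -1
  have hsg : ∀ b, sg b = 1 ∨ sg b = -1 := by
    intro b
    cases b
    · right; simp [sg]
    · left; simp [sg]
  refine ⟨fun l => interior {q | curvesS_P C i (e l).1 (e l).2.1 (sg (e l).2.2) q},
    fun l => curvesS_G C i (e l).1 (e l).2.1 (sg (e l).2.2), ?_, ?_⟩
  · intro l
    refine ⟨isOpen_interior, ?_, ?_, ?_, ?_⟩
    · intro q hq
      exact (interior_subset hq).1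
    · intro q hq
      exact ((interior_subset hq).2.1).contDiffWithinAt
    · intro q hq
      exact ⟨(interior_subset hq).2.2.1, (interior_subset hq).2.2.2.1⟩
    · intro q hq h0
      obtain ⟨h1, h2⟩ := (interior_subset hq).2.2.2.2 h0
      exact ⟨_, h1, h2⟩
  · intro q hq
    obtain ⟨m, hm, hS⟩ := hq
    obtain ⟨-, k, hk, hdv, hb⟩ := hS
    obtain ⟨b, hbb⟩ : ∃ b : Bool, C.bp ((C.T^[m]) ((i, q) : St n)).1 k
        ((C.T^[m]) ((i, q) : St n)).2.1 ((C.T^[m]) ((i, q) : St n)).2.2 = sg b * C.r k := by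
      rcases eq_or_eq_neg_of_abs_eq hb with h | h
      · exact ⟨true, by simp [sg, h]⟩
      · exact ⟨false, by simp [sg, h]⟩
    obtain ⟨l, hl⟩ := he (m, k, b)
    refine ⟨l, ?_, ?_⟩
    · rw [mem_interior_iff_mem_nhds]
      simp only [hl]
      exact curvesS_main C k (sg b) (hsg b) m i q hm hk hdv hbb
    · simp only [hl, curvesS_G]
      rw [hbb, sub_self, mul_zero]

end Pool.Light
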