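import Pool.Agent.Helper638.Light.Defs
import Pool.Agent.Helper638.Light.P_gap
import Pool.Agent.Helper638.Light.P_basics
import Pool.Agent.Helper638.Light.P_hits_unique
import Pool.Agent.Helper638.Light.P_T_of_hits
import Pool.Agent.Helper638.Light.P_shift
import Pool.Agent.Helper638.Light.P_curvesS

set_option autoImplicit false

open MeasureTheory Set Filter Topology

namespace Pool.Light


variable {n : ℕ}

/-- the reversal map on one disc -/
noncomputable def curvesU_R (r : ℝ) (q : ℝ × ℝ) : ℝ × ℝ := (q.1 + 2 * Real.arcsin (q.2 / r), -q.2)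

theorem curvesU_cont (r : ℝ) : Continuous (curvesU_R r) := by
  unfold curvesU_R
  exact (continuous_fst.add (continuous_const.mul
    (Real.continuous_arcsin.comp (continuous_snd.div_const r)))).prodMk continuous_snd.neg

theorem curvesU_ne {r b : ℝ} (hr : 0 < r) (hb : |b| < r) : b / r ≠ -1 ∧ b / r ≠ 1 := by
  rw [abs_lt] at hb
  constructor
  · intro h
    rw [div_eq_iff hr.ne'] at h
    linarith [hb.1]
  · intro h
    rw [div_eq_iff hr.ne'] at h
    linarith [hb.2]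

theorem curvesU_smooth {r : ℝ} (hr : 0 < r) {q : ℝ × ℝ} (hq : |q.2| < r) :
    ContDiffAt ℝ 1 (curvesU_R r) q := by
  unfold curvesU_R
  obtain ⟨h1, h2⟩ := curvesU_ne hr hq
  have h3 : ContDiffAt ℝ 1 (fun q : ℝ × ℝ => q.2 / r) q := contDiffAt_snd.div_const r
  have h4 : ContDiffAt ℝ 1 (fun q : ℝ × ℝ => Real.arcsin (q.2 / r)) q :=
    ContDiffAt.comp (g := Real.arcsin) q (Real.contDiffAt_arcsin h1 h2) h3
  exact (contDiffAt_fst.add (contDiffAt_const.mul h4)).prodMk contDiffAt_snd.neg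

theorem curvesU_deriv {r : ℝ} (hr : 0 < r) {q : ℝ × ℝ} (hq : |q.2| < r) :
    HasFDerivAt (curvesU_R r)
      ((ContinuousLinearMap.fst ℝ ℝ ℝ + (2 / Real.sqrt (r ^ 2 - q.2 ^ 2)) •
        ContinuousLinearMap.snd ℝ ℝ ℝ).prod (-ContinuousLinearMap.snd ℝ ℝ ℝ)) q := by
  obtain ⟨h1, h2⟩ := curvesU_ne hr hq
  have h3 := Real.hasDerivAt_arcsin h1 h2
  have h4 : HasDerivAt (fun b : ℝ => b / r) (1 / r) q.2 := (hasDerivAt_id q.2).div_const r
  have h5 := (h3.comp q.2 h4).const_mul 2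
  have h6 : Real.sqrt (r ^ 2 - q.2 ^ 2) = r * Real.sqrt (1 - (q.2 / r) ^ 2) := by
    have : r ^ 2 - q.2 ^ 2 = r ^ 2 * (1 - (q.2 / r) ^ 2) := by
      field_simp
    rw [this, Real.sqrt_mul (sq_nonneg r), Real.sqrt_sq hr.le]
  have h7 : (2 : ℝ) * (1 / Real.sqrt (1 - (q.2 / r) ^ 2) * (1 / r))
      = 2 / Real.sqrt (r ^ 2 - q.2 ^ 2) := by
    rw [h6, div_mul_div_comm, one_mul, mul_one_div, mul_comm r]
  rw [h7] at h5
  have h8 : HasFDerivAt (fun q : ℝ × ℝ => 2 * Real.arcsin (q.2 / r))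
      ((2 / Real.sqrt (r ^ 2 - q.2 ^ 2)) • ContinuousLinearMap.snd ℝ ℝ ℝ) q :=
    h5.comp_hasFDerivAt q hasFDerivAt_snd
  exact (hasFDerivAt_fst.add h8).prodMk hasFDerivAt_snd.neg

theorem curvesU_fderiv {r : ℝ} (hr : 0 < r) {q : ℝ × ℝ} (hq : |q.2| < r) {F : ℝ × ℝ → ℝ}
    (hF : DifferentiableAt ℝ F (curvesU_R r q)) :
    fderiv ℝ (fun q => F (curvesU_R r q)) q (1, 0) = fderiv ℝ F (curvesU_R r q) (1, 0) ∧
    fderiv ℝ (fun q => F (curvesU_R r q)) q (0, 1)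
      = (2 / Real.sqrt (r ^ 2 - q.2 ^ 2)) * fderiv ℝ F (curvesU_R r q) (1, 0)
        - fderiv ℝ F (curvesU_R r q) (0, 1) := by
  have h1 := (hF.hasFDerivAt.comp q (curvesU_deriv hr hq)).fderiv
  have h2 : fderiv ℝ (fun q => F (curvesU_R r q)) q = _ := h1
  rw [h2]
  constructor
  · rw [ContinuousLinearMap.comp_apply]
    congr 1
    simp
  · rw [ContinuousLinearMap.comp_apply]
    have h3 : (((ContinuousLinearMap.fst ℝ ℝ ℝ + (2 / Real.sqrt (r ^ 2 - q.2 ^ 2)) •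
        ContinuousLinearMap.snd ℝ ℝ ℝ).prod (-ContinuousLinearMap.snd ℝ ℝ ℝ)) : ℝ × ℝ →L[ℝ] ℝ × ℝ)
          ((0 : ℝ), (1 : ℝ))
        = (2 / Real.sqrt (r ^ 2 - q.2 ^ 2)) • ((1 : ℝ), (0 : ℝ)) - ((0 : ℝ), (1 : ℝ)) := by
      simp
    rw [h3, map_sub, map_smul, smul_eq_mul]

theorem curvesU (C : Cfg n) (i : Fin n) :
    ∃ (W : ℕ → Set (ℝ × ℝ)) (F : ℕ → ℝ × ℝ → ℝ),
      (∀ l, IsOpen (W l) ∧ W l ⊆ {p | |p.2| < C.r i} ∧ ContDiffOn ℝ 1 (F l) (W l) ∧
        (∀ q ∈ W l, 0 < fderiv ℝ (F l) q (0, 1) ∧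
          fderiv ℝ (F l) q (1, 0) ≤ C.hc i q.2 * fderiv ℝ (F l) q (0, 1)) ∧
        (∀ q ∈ W l, F l q = 0 → C.rho ((i, q) : St n) ∈ C.SS)) ∧
      ∀ q, |q.2| < C.r i → C.rho ((i, q) : St n) ∈ C.SS → ∃ l, q ∈ W l ∧ F l q = 0 := by
  obtain ⟨W, F, hWF, hSS⟩ := curvesS C i
  have hr := C.hr i
  have hU : IsOpen {p : ℝ × ℝ | |p.2| < C.r i} :=
    isOpen_lt (continuous_abs.comp continuous_snd) continuous_const
  refine ⟨fun l => {p | |p.2| < C.r i} ∩ (curvesU_R (C.r i)) ⁻¹' (W l),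
    fun l q => F l (curvesU_R (C.r i) q), ?_, ?_⟩
  · intro l
    obtain ⟨hWo, hWs, hFc, hFd, hFz⟩ := hWF l
    refine ⟨hU.inter (hWo.preimage (curvesU_cont _)), inter_subset_left, ?_, ?_, ?_⟩
    · apply hFc.comp (g := F l)
      · intro q hq
        exact (curvesU_smooth hr hq.1).contDiffWithinAt
      · intro q hq
        exact hq.2
    · intro q hq
      obtain ⟨hq1, hq2⟩ := hq
      have hq1' : |q.2| < C.r i := hq1
      have hd : DifferentiableAt ℝ (F l) (curvesU_R (C.r i) q) :=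
        (hFc.contDiffAt (hWo.mem_nhds hq2)).differentiableAt one_ne_zero
      obtain ⟨e1, e2⟩ := curvesU_fderiv hr hq1' hd
      obtain ⟨hp1, hp2⟩ := hFd _ hq2
      have hc2 : C.hc i (curvesU_R (C.r i) q).2 = C.hc i q.2 := by
        show Real.sqrt (C.r i ^ 2 - (-q.2) ^ 2) = Real.sqrt (C.r i ^ 2 - q.2 ^ 2)
        rw [neg_sq]
      rw [hc2] at hp2
      have hcdef : Real.sqrt (C.r i ^ 2 - q.2 ^ 2) = C.hc i q.2 := rfl
      rw [hcdef] at e2
      have hcpos : 0 < C.hc i q.2 := by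
        unfold Cfg.hc
        apply Real.sqrt_pos.2
        have := sq_lt_sq' (abs_lt.1 hq1').1 (abs_lt.1 hq1').2
        linarith
      have htau := C.htau
      set c := C.hc i q.2 with hc
      set Fb := fderiv ℝ (F l) (curvesU_R (C.r i) q) (0, 1) with hFb
      set Ft := fderiv ℝ (F l) (curvesU_R (C.r i) q) (1, 0) with hFt
      have h1 : c * (2 / c * Ft - Fb) = 2 * Ft - c * Fb := by
        field_simp
      have h2 : c * Fb < Ft := by nlinarith
      have h3 : 0 < c * Fb := mul_pos hcpos hp1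
      show 0 < fderiv ℝ (fun q => F l (curvesU_R (C.r i) q)) q (0, 1) ∧
        fderiv ℝ (fun q => F l (curvesU_R (C.r i) q)) q (1, 0)
          ≤ c * fderiv ℝ (fun q => F l (curvesU_R (C.r i) q)) q (0, 1)
      rw [e1, e2, h1]
      constructor
      · by_contra hcon
        push Not at hcon
        have h4 := mul_le_mul_of_nonneg_left hcon hcpos.le
        rw [h1, mul_zero] at h4
        linarith
      · linarith
    · intro q hq hz
      exact hFz _ hq.2 hz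
  · intro q hq hS
    obtain ⟨l, hl1, hl2⟩ := hSS (curvesU_R (C.r i) q) hS
    exact ⟨l, ⟨hq, hl1⟩, hl2⟩

end Pool.Light
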