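import Pool.Agent.Helper638.Light.Defs
import Pool.Agent.Helper638.Light.P_absThm
import Pool.Agent.Helper638.Light.P_gap
import Pool.Agent.Helper638.Light.P_basics
import Pool.Agent.Helper638.Light.P_hits_unique
import Pool.Agent.Helper638.Light.P_T_of_hits
import Pool.Agent.Helper638.Light.P_shift
import Pool.Agent.Helper638.Light.P_meas
import Pool.Agent.Helper638.Light.P_sig_bounds
import Pool.Agent.Helper638.Light.P_sig_lim
import Pool.Agent.Helper638.Light.P_Sr_locint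
import Pool.Agent.Helper638.Light.P_nu_facts
import Pool.Agent.Helper638.Light.P_centralU
import Pool.Agent.Helper638.Light.P_curvesS
import Pool.Agent.Helper638.Light.P_curvesU

set_option autoImplicit false

open MeasureTheory Set Filter Topology

namespace Pool.Light


variable {n : ℕ}

theorem zfib_gf {s c t : ℝ} (hc : 0 ≤ c) (ht : 0 < t) (h : c + t ≤ s) :
    0 ≤ Cfg.gf s c ∧ Cfg.gf s c ≤ c := by
  have h1 : 0 < 2 * s - c := by linarith
  unfold Cfg.gf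
  constructor
  · apply div_nonneg (mul_nonneg (by linarith) hc) h1.le
  · rw [div_le_iff₀ h1]
    nlinarith

theorem zfib_lin (f : ℝ × ℝ →L[ℝ] ℝ) (a : ℝ) : f (1, -a) = f (1, 0) - a * f (0, 1) := by
  have : ((1, -a) : ℝ × ℝ) = (1, 0) + (-a) • (0, 1) := by
    ext <;> simp
  rw [this, map_add, map_smul, smul_eq_mul]
  ring

theorem zfib_slopes (C : Cfg n) (i : Fin n) (p : ℝ × ℝ) (hp : |p.2| < C.r i) :
    C.hc i p.2 + C.tau ≤ C.sigInf (i, p) ∧ C.sigInf (i, p) ≤ C.K ∧ 0 ≤ C.hc i p.2 ∧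
    0 ≤ C.sigU (i, p) ∧ C.sigU (i, p) ≤ C.hc i p.2 := by
  have hM : ((i, p) : St n) ∈ C.M := hp
  have h1 := (sig_lim C (i, p) hM).1
  have hM2 : C.rho ((i, p) : St n) ∈ C.M := ((shift C 0 (i, p)).2.2.2.2.2.2.2.2.1).1 hM
  have h2 := (sig_lim C _ hM2).1
  have h3 : 0 ≤ C.hc i p.2 := Real.sqrt_nonneg _
  have h4 : C.hc (C.rho ((i, p) : St n)).1 (C.rho ((i, p) : St n)).2.2 = C.hc i p.2 := by
    simp [Cfg.rho, Cfg.hc]
  rw [h4] at h2
  have h5 := zfib_gf h3 C.htau h2.1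
  exact ⟨h1.1, h1.2, h3, h5.1, h5.2⟩

theorem zfib_R (C : Cfg n) (i : Fin n) (p : ℝ × ℝ) :
    ((i, (C.rho ((i, p) : St n)).2) : St n) = C.rho (i, p) := rfl

theorem zfib_Rmeas (C : Cfg n) (i : Fin n) :
    Measurable (fun p : ℝ × ℝ => (C.rho ((i, p) : St n)).2) :=
  measurable_snd.comp ((meas C).2.2.2.2.2.2.1.comp measurable_prodMk_left)

theorem zfib_fin (C : Cfg n) (i : Fin n) (ν : Measure (ℝ × ℝ)) [IsFiniteMeasureOnCompacts ν] :
    IsFiniteMeasureOnCompacts (Measure.map (fun p : ℝ × ℝ => (C.rho ((i, p) : St n)).2) ν) := by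
  refine ⟨fun S hS => ?_⟩
  rw [Measure.map_apply (zfib_Rmeas C i) hS.measurableSet]
  obtain ⟨L, hL⟩ := hS.isBounded.exists_norm_le
  have hsub : (fun p : ℝ × ℝ => (C.rho ((i, p) : St n)).2) ⁻¹' S ⊆
      Icc (-(L + Real.pi)) (L + Real.pi) ×ˢ Icc (-L) L := by
    intro p hp
    have h1 := hL _ hp
    have h2 := (norm_prod_le_iff.1 h1)
    simp only [Cfg.rho, Real.norm_eq_abs, abs_neg] at h2
    obtain ⟨h3, h4⟩ := h2
    rw [abs_le] at h3 h4
    have h5 := Real.arcsin_le_pi_div_two (p.2 / C.r i)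
    have h6 := Real.neg_pi_div_two_le_arcsin (p.2 / C.r i)
    refine ⟨⟨?_, ?_⟩, h4⟩ <;> linarith [h3.1, h3.2]
  refine lt_of_le_of_lt (measure_mono hsub) ?_
  exact (isCompact_Icc.prod isCompact_Icc).measure_lt_top

theorem zfib (C : Cfg n) (i : Fin n) :
    ∀ᵐ θ : ℝ, ∃ z, ∀ᵐ b ∂(volume.restrict (Ioo (-C.r i) (C.r i))), C.Z (i, θ, b) = z := by
  obtain ⟨A, hA, hcen⟩ := centralU C
  obtain ⟨hSm, hS0, hSL, hSR, -⟩ := Sr_locint C A hA i
  obtain ⟨hfin, hnS, hnU⟩ := nu_facts C A hA i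
  obtain ⟨WS, FS, hW1, hW2⟩ := curvesS C i
  obtain ⟨WU, FU, hV1, hV2⟩ := curvesU C i
  have hms := meas C
  obtain ⟨-, -, -, -, -, hSSm, hrho, -, -, hsI, hsU, -, hZm⟩ := hms
  have hmk : Measurable (fun p : ℝ × ℝ => ((i, p) : St n)) := measurable_prodMk_left
  have _hfin := hfin
  have _hfin2 := zfib_fin C i (C.nui A i)
  have hνU1 : Measure.map (fun p : ℝ × ℝ => (C.rho ((i, p) : St n)).2) (C.nui A i)
      {q | ((i, q) : St n) ∈ C.SS} = 0 := by
    have hm1 : MeasurableSet {q : ℝ × ℝ | ((i, q) : St n) ∈ C.SS} := hmk hSSm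
    rw [Measure.map_apply (zfib_Rmeas C i) hm1]
    exact hnU
  have hνU2 : Measure.map (fun p : ℝ × ℝ => (C.rho ((i, p) : St n)).2) (C.nui A i)
      {q | C.rho ((i, q) : St n) ∉ C.SS} = 0 := by
    have hm2 : MeasurableSet {q : ℝ × ℝ | C.rho ((i, q) : St n) ∉ C.SS} :=
      ((hrho.comp hmk) hSSm).compl
    rw [Measure.map_apply (zfib_Rmeas C i) hm2]
    refine measure_mono_null ?_ hnS
    intro p hp
    have h1 : C.rho ((i, (C.rho ((i, p) : St n)).2) : St n) ∉ C.SS := hp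
    rw [zfib_R, (shift C 0 (i, p)).2.2.2.2.2.2.2.1] at h1
    exact h1
  have key := absThm (C.r i) (C.tau / 2) C.K (C.hr i) (half_pos C.htau)
    (fun p => C.Z (i, p)) (hZm.comp hmk) (fun p => by
      unfold Cfg.Z
      split_ifs
      · exact Or.inr rfl
      · exact Or.inl rfl)
    (fun p => C.sigInf (i, p)) (fun p => C.sigU (i, p)) (hsI.comp hmk) (hsU.comp hmk)
    (fun p hp => by
      obtain ⟨h1, h2, h3, h4, h5⟩ := zfib_slopes C i p hp
      have := C.htau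
      refine ⟨abs_le.2 ⟨by linarith, h2⟩, abs_le.2 ⟨by linarith, by linarith⟩, by linarith⟩)
    (fun p => C.Sr A (i, p)) (fun p => C.Sr A (C.rho (i, p)))
    (fun p => hS0 _) (hSm.comp hmk) hSL (fun p => hS0 _) (hSm.comp (hrho.comp hmk)) hSR
    (C.nui A i) (Measure.map (fun p : ℝ × ℝ => (C.rho ((i, p) : St n)).2) (C.nui A i))
    (fun φ hφ => (hcen i φ hφ).1) (fun φ hφ => (hcen i φ hφ).2)
    WS WU FS FU
    (fun l => by
      obtain ⟨h1, h2, h3, h4, h5⟩ := hW1 l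
      refine ⟨h1, h2, h3, fun q hq => ?_, ?_⟩
      · obtain ⟨h6, h7⟩ := h4 q hq
        refine ⟨h6, ?_⟩
        rw [zfib_lin]
        obtain ⟨k1, k2, k3, k4, k5⟩ := zfib_slopes C i q (h2 hq)
        nlinarith
      · refine measure_mono_null ?_ hνU1
        rintro q ⟨hq1, hq2⟩
        exact h5 q hq1 hq2)
    (fun l => by
      obtain ⟨h1, h2, h3, h4, h5⟩ := hV1 l
      refine ⟨h1, h2, h3, fun q hq => ?_, ?_⟩
      · obtain ⟨h6, h7⟩ := h4 q hq
        refine ⟨h6, ?_⟩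
        rw [zfib_lin]
        obtain ⟨k1, k2, k3, k4, k5⟩ := zfib_slopes C i q (h2 hq)
        have := C.htau
        nlinarith
      · refine measure_mono_null ?_ hnU
        rintro q ⟨hq1, hq2⟩
        exact h5 q hq1 hq2)
    (by
      refine measure_mono_null ?_ hnS
      rintro q ⟨hq1, hq2⟩ hq3
      obtain ⟨l, hl1, hl2⟩ := hW2 q hq3
      exact hq2 (mem_iUnion.2 ⟨l, hl1, hl2⟩))
    (by
      refine measure_mono_null ?_ hνU2
      rintro q ⟨hq1, hq2⟩ hq3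
      obtain ⟨l, hl1, hl2⟩ := hV2 q hq1 hq3
      exact hq2 (mem_iUnion.2 ⟨l, hl1, hl2⟩))
  exact key

end Pool.Light
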