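import Pool.Agent.Helper638.Light.Defs
import Pool.Agent.Helper638.Light.P_gap
import Pool.Agent.Helper638.Light.P_basics
import Pool.Agent.Helper638.Light.P_hits_unique
import Pool.Agent.Helper638.Light.P_T_of_hits
import Pool.Agent.Helper638.Light.P_om_facts
import Pool.Agent.Helper638.Light.P_meas
import Pool.Agent.Helper638.Light.P_sig_bounds
import Pool.Agent.Helper638.Light.P_sig_deriv
import Pool.Agent.Helper638.Light.P_Sr_locint
import Pool.Agent.Helper638.Light.P_nu_facts
import Pool.Agent.Helper638.Light.P_nu_curve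
import Pool.Agent.Helper638.Light.P_central
import Pool.Agent.Helper638.Light.P_hull

set_option autoImplicit false

open MeasureTheory Set Filter Topology

namespace Pool.Light


variable {n : ℕ}

/-- derivative of the smooth transition -/
noncomputable def source_s (t : ℝ) : ℝ := deriv Real.smoothTransition t

lemma source_s_hasDeriv (t : ℝ) : HasDerivAt Real.smoothTransition (source_s t) t :=
  ((Real.smoothTransition.contDiffAt (n := 1)).differentiableAt (by norm_num)).hasDerivAt

lemma source_s_cont : Continuous source_s :=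
  (Real.smoothTransition.contDiff (n := 1)).continuous_deriv (by norm_num)

lemma source_s_nonneg (t : ℝ) : 0 ≤ source_s t :=
  Real.smoothTransition.monotone.deriv_nonneg

lemma source_s_zero {t : ℝ} (h : t < 0 ∨ 1 < t) : source_s t = 0 := by
  rcases h with h | h
  · have : Real.smoothTransition =ᶠ[𝓝 t] fun _ => 0 := by
      filter_upwards [Iio_mem_nhds h] with x hx
      exact Real.smoothTransition.zero_of_nonpos (le_of_lt hx)
    rw [source_s, this.deriv_eq, deriv_const]
  · have : Real.smoothTransition =ᶠ[𝓝 t] fun _ => 1 := by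
      filter_upwards [Ioi_mem_nhds h] with x hx
      exact Real.smoothTransition.one_of_one_le (le_of_lt hx)
    rw [source_s, this.deriv_eq, deriv_const]

lemma source_s_bdd : ∃ M : ℝ, 0 < M ∧ ∀ t, source_s t ≤ M := by
  obtain ⟨M, hM⟩ := (isCompact_Icc (a := (0 : ℝ)) (b := 1)).bddAbove_image
    source_s_cont.continuousOn
  refine ⟨max M 1, lt_of_lt_of_le one_pos (le_max_right _ _), fun t => ?_⟩
  by_cases h : t ∈ Icc (0 : ℝ) 1
  · exact (hM (mem_image_of_mem _ h)).trans (le_max_left _ _)
  · rw [mem_Icc, not_and_or, not_le, not_le] at h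
    rw [source_s_zero h]
    exact le_trans zero_le_one (le_max_right _ _)

/-- rising profile derivative -/
noncomputable def source_r (k t : ℝ) : ℝ := source_s (t / k + 1) / k

/-- falling profile derivative (up to sign) -/
noncomputable def source_d (d t : ℝ) : ℝ := source_s (2 - t / d) / d

/-- profile -/
noncomputable def source_x (k d t : ℝ) : ℝ :=
  Real.smoothTransition (t / k + 1) + Real.smoothTransition (2 - t / d) - 1

lemma source_r_hasDeriv (k t : ℝ) :
    HasDerivAt (fun t => Real.smoothTransition (t / k + 1)) (source_r k t) t := by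
  have h1 : HasDerivAt (fun t : ℝ => t / k + 1) (1 / k) t := by
    simpa using ((hasDerivAt_id t).div_const k).add_const 1
  have h2 := (source_s_hasDeriv (t / k + 1)).comp t h1
  simpa [source_r, div_eq_mul_inv, Function.comp_def] using h2

lemma source_d_hasDeriv (d t : ℝ) :
    HasDerivAt (fun t => Real.smoothTransition (2 - t / d)) (-source_d d t) t := by
  have h1 : HasDerivAt (fun t : ℝ => 2 - t / d) (-(1 / d)) t := by
    simpa using ((hasDerivAt_id t).div_const d).const_sub 2
  have h2 := (source_s_hasDeriv (2 - t / d)).comp t h1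
  simpa [source_d, div_eq_mul_inv, Function.comp_def] using h2

lemma source_x_hasDeriv (k d t : ℝ) :
    HasDerivAt (source_x k d) (source_r k t - source_d d t) t := by
  have h : HasDerivAt (source_x k d) (source_r k t + -source_d d t) t :=
    ((source_r_hasDeriv k t).add (source_d_hasDeriv d t)).sub_const 1
  rwa [← sub_eq_add_neg] at h

lemma source_r_nonneg {k : ℝ} (hk : 0 < k) (t : ℝ) : 0 ≤ source_r k t :=
  div_nonneg (source_s_nonneg _) hk.le

lemma source_d_nonneg {k : ℝ} (hk : 0 < k) (t : ℝ) : 0 ≤ source_d k t :=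
  div_nonneg (source_s_nonneg _) hk.le

lemma source_r_zero {k : ℝ} (hk : 0 < k) {t : ℝ} (h : t < -k ∨ 0 < t) : source_r k t = 0 := by
  rw [source_r, source_s_zero, zero_div]
  rcases h with h | h
  · left
    have : t / k < -1 := by rw [div_lt_iff₀ hk]; linarith
    linarith
  · right
    have : 0 < t / k := by positivity
    linarith

lemma source_d_zero {d : ℝ} (hd : 0 < d) {t : ℝ} (h : t < d ∨ 2 * d < t) : source_d d t = 0 := by
  rw [source_d, source_s_zero, zero_div]
  rcases h with h | h
  · right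
    have : t / d < 1 := by rw [div_lt_iff₀ hd]; linarith
    linarith
  · left
    have : 2 < t / d := by rw [lt_div_iff₀ hd]; linarith
    linarith

lemma source_x_nonneg {k d : ℝ} (hk : 0 < k) (hd : 0 < d) (t : ℝ) : 0 ≤ source_x k d t := by
  rw [source_x]
  rcases le_total t 0 with h | h
  · have h1 : Real.smoothTransition (2 - t / d) = 1 := by
      apply Real.smoothTransition.one_of_one_le
      have : t / d ≤ 0 := div_nonpos_of_nonpos_of_nonneg h hd.le
      linarith
    have := Real.smoothTransition.nonneg (t / k + 1)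
    linarith
  · have h1 : Real.smoothTransition (t / k + 1) = 1 := by
      apply Real.smoothTransition.one_of_one_le
      have : 0 ≤ t / k := by positivity
      linarith
    have := Real.smoothTransition.nonneg (2 - t / d)
    linarith

lemma source_x_le_one (k d t : ℝ) : source_x k d t ≤ 1 := by
  rw [source_x]
  have := Real.smoothTransition.le_one (t / k + 1)
  have := Real.smoothTransition.le_one (2 - t / d)
  linarith

lemma source_x_zero {k d : ℝ} (hk : 0 < k) (hd : 0 < d) {t : ℝ} (h : t < -k ∨ 2 * d < t) :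
    source_x k d t = 0 := by
  rw [source_x]
  rcases h with h | h
  · have h1 : Real.smoothTransition (2 - t / d) = 1 := by
      apply Real.smoothTransition.one_of_one_le
      have : t / d ≤ 0 := div_nonpos_of_nonpos_of_nonneg (by linarith) hd.le
      linarith
    have h2 : Real.smoothTransition (t / k + 1) = 0 := by
      apply Real.smoothTransition.zero_of_nonpos
      have : t / k < -1 := by rw [div_lt_iff₀ hk]; linarith
      linarith
    rw [h1, h2]; ring
  · have h1 : Real.smoothTransition (t / k + 1) = 1 := by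
      apply Real.smoothTransition.one_of_one_le
      have : 0 ≤ t / k := div_nonneg (by linarith) hk.le
      linarith
    have h2 : Real.smoothTransition (2 - t / d) = 0 := by
      apply Real.smoothTransition.zero_of_nonpos
      have : 2 < t / d := by rw [lt_div_iff₀ hd]; linarith
      linarith
    rw [h1, h2]; ring

lemma source_r_cont (k : ℝ) : Continuous (source_r k) := by
  unfold source_r
  exact (source_s_cont.comp (by fun_prop)).div_const k

lemma source_d_cont (k : ℝ) : Continuous (source_d k) := by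
  unfold source_d
  exact (source_s_cont.comp (by fun_prop)).div_const k

lemma source_x_contDiff (k d : ℝ) : ContDiff ℝ 1 (source_x k d) := by
  unfold source_x
  refine ((Real.smoothTransition.contDiff.comp ?_).add
    (Real.smoothTransition.contDiff.comp ?_)).sub contDiff_const
  · fun_prop
  · fun_prop

lemma source_r_integrable {k : ℝ} (hk : 0 < k) (a : ℝ) :
    Integrable (fun θ => source_r k (θ - a)) := by
  refine Continuous.integrable_of_hasCompactSupport ?_ ?_
  · exact (source_r_cont k).comp (by fun_prop)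
  · refine HasCompactSupport.intro (isCompact_Icc (a := a - k) (b := a)) fun x hx => ?_
    apply source_r_zero hk
    rw [mem_Icc, not_and_or, not_le, not_le] at hx
    rcases hx with h | h
    · left; linarith
    · right; linarith

lemma source_r_integral {k : ℝ} (hk : 0 < k) (a : ℝ) : ∫ θ, source_r k (θ - a) = 1 := by
  have h1 : ∀ x, HasDerivAt (fun x => Real.smoothTransition ((x - a) / k + 1))
      (source_r k (x - a)) x := by
    intro x
    have := (source_r_hasDeriv k (x - a)).comp x ((hasDerivAt_id x).sub_const a)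
    simpa [Function.comp_def] using this
  have h2 : Tendsto (fun x => Real.smoothTransition ((x - a) / k + 1)) atBot (𝓝 0) := by
    apply tendsto_const_nhds.congr'
    filter_upwards [Iic_mem_atBot (a - k)] with x hx
    symm
    apply Real.smoothTransition.zero_of_nonpos
    have hx' : x ≤ a - k := hx
    have : (x - a) / k ≤ -1 := by rw [div_le_iff₀ hk]; linarith
    linarith
  have h3 : Tendsto (fun x => Real.smoothTransition ((x - a) / k + 1)) atTop (𝓝 1) := by
    apply tendsto_const_nhds.congr'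
    filter_upwards [Ici_mem_atTop a] with x hx
    symm
    apply Real.smoothTransition.one_of_one_le
    have hx' : a ≤ x := hx
    have : 0 ≤ (x - a) / k := div_nonneg (by linarith) hk.le
    linarith
  rw [integral_of_hasDerivAt_of_tendsto h1 (source_r_integrable hk a) h2 h3]
  ring

/-- neighbourhood of the curve -/
def source_S (T χ : ℝ → ℝ) (d : ℝ) : Set (ℝ × ℝ) :=
  {p | p.2 ∈ tsupport χ ∧ |p.1 - T p.2| ≤ 2 * d}

lemma source_S_compact {T χ : ℝ → ℝ} (hT : Continuous T) (hχc : HasCompactSupport χ) (d : ℝ) :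
    IsCompact (source_S T χ d) := by
  have h1 : IsCompact ((Icc (-(2 * d)) (2 * d)) ×ˢ tsupport χ) := isCompact_Icc.prod hχc
  have h2 : Continuous (fun q : ℝ × ℝ => (T q.2 + q.1, q.2)) := by fun_prop
  have h3 : source_S T χ d = (fun q : ℝ × ℝ => (T q.2 + q.1, q.2)) ''
      ((Icc (-(2 * d)) (2 * d)) ×ˢ tsupport χ) := by
    ext p
    constructor
    · rintro ⟨hp1, hp2⟩
      rw [abs_le] at hp2
      refine ⟨(p.1 - T p.2, p.2), ⟨⟨hp2.1, hp2.2⟩, hp1⟩, ?_⟩
      ext <;> simp
    · rintro ⟨q, ⟨⟨h3, h4⟩, h5⟩, rfl⟩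
      refine ⟨h5, ?_⟩
      simp only [add_sub_cancel_left]
      rw [abs_le]; exact ⟨h3, h4⟩
  rw [h3]
  exact h1.image h2

lemma source_int {S : Set (ℝ × ℝ)} (hS : IsCompact S) {f : ℝ × ℝ → ℝ} (hf : Measurable f) {M : ℝ}
    (hb : ∀ p, |f p| ≤ S.indicator (fun _ => M) p) : Integrable f := by
  have h1 : Integrable (S.indicator (fun _ => M)) := by
    rw [integrable_indicator_iff hS.measurableSet]
    exact integrableOn_const hS.measure_lt_top.ne
  exact h1.mono' hf.aestronglyMeasurable (Eventually.of_forall hb)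

lemma source_fderiv {T χ : ℝ → ℝ} (hT : ContDiff ℝ 1 T) (hχ : ContDiff ℝ 1 χ) (k d : ℝ)
    (p : ℝ × ℝ) (s : ℝ) :
    fderiv ℝ (fun p : ℝ × ℝ => χ p.2 * source_x k d (p.1 - T p.2)) p (1, -s) =
      χ p.2 * (source_r k (p.1 - T p.2) - source_d d (p.1 - T p.2)) * (1 + s * deriv T p.2) -
        s * deriv χ p.2 * source_x k d (p.1 - T p.2) := by
  have hT' : HasDerivAt T (deriv T p.2) p.2 :=
    (hT.differentiable (by norm_num) _).hasDerivAt
  have hχ' : HasDerivAt χ (deriv χ p.2) p.2 :=
    (hχ.differentiable (by norm_num) _).hasDerivAt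
  have h1 : HasFDerivAt (fun p : ℝ × ℝ => χ p.2)
      (deriv χ p.2 • ContinuousLinearMap.snd ℝ ℝ ℝ) p :=
    hχ'.comp_hasFDerivAt p hasFDerivAt_snd
  have h2 : HasFDerivAt (fun p : ℝ × ℝ => T p.2)
      (deriv T p.2 • ContinuousLinearMap.snd ℝ ℝ ℝ) p :=
    hT'.comp_hasFDerivAt p hasFDerivAt_snd
  have h3 : HasFDerivAt (fun p : ℝ × ℝ => p.1 - T p.2)
      (ContinuousLinearMap.fst ℝ ℝ ℝ - deriv T p.2 • ContinuousLinearMap.snd ℝ ℝ ℝ) p :=
    hasFDerivAt_fst.sub h2
  have hx : HasDerivAt (source_x k d) (source_r k (p.1 - T p.2) - source_d d (p.1 - T p.2))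
      ((fun p : ℝ × ℝ => p.1 - T p.2) p) := source_x_hasDeriv k d (p.1 - T p.2)
  have h4 := hx.comp_hasFDerivAt p h3
  have h5 : HasFDerivAt (fun p : ℝ × ℝ => χ p.2 * source_x k d (p.1 - T p.2)) _ p :=
    h1.mul h4
  rw [h5.fderiv]
  simp only [ContinuousLinearMap.add_apply, ContinuousLinearMap.smul_apply,
    ContinuousLinearMap.sub_apply, ContinuousLinearMap.coe_fst', ContinuousLinearMap.coe_snd',
    smul_eq_mul]
  ring

lemma source_J {Om : Set (ℝ × ℝ)} (hOm : IsOpen Om) {T χ : ℝ → ℝ} (hT : Continuous T)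
    (hχ : Continuous χ) (hχc : HasCompactSupport χ) (hχ0 : ∀ b, 0 ≤ χ b)
    (hχp : 0 < ∫ b, χ b) (ht : ∀ᵐ b, b ∈ tsupport χ → (T b, b) ∈ Om) {d : ℝ} (hd : 0 < d) :
    ∃ k, 0 < k ∧ k ≤ d ∧ (∫ b, χ b) / 2 ≤
      ∫ p : ℝ × ℝ, Om.indicator (fun p => χ p.2 * source_r k (p.1 - T p.2)) p := by
  set ks : ℕ → ℝ := fun m => d / (m + 1) with hks
  have hk0 : ∀ m, 0 < ks m := fun m => by positivity
  have hkd : ∀ m, ks m ≤ d := fun m => by
    rw [hks]
    apply div_le_self hd.le
    have : (0 : ℝ) ≤ m := Nat.cast_nonneg m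
    linarith
  have hklim : Tendsto ks atTop (𝓝 0) := by
    have := (tendsto_one_div_add_atTop_nhds_zero_nat (𝕜 := ℝ)).const_mul d
    simpa [hks, div_eq_mul_inv] using this
  have hcont : ∀ m, Continuous (fun p : ℝ × ℝ => χ p.2 * source_r (ks m) (p.1 - T p.2)) := by
    intro m
    refine (hχ.comp continuous_snd).mul ((source_r_cont _).comp ?_)
    fun_prop
  have hg : ∀ m, Integrable (fun p : ℝ × ℝ => χ p.2 * source_r (ks m) (p.1 - T p.2)) := by
    intro m
    refine (hcont m).integrable_of_hasCompactSupport ?_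
    refine HasCompactSupport.intro (source_S_compact hT hχc d) fun p hp => ?_
    by_cases h : p.2 ∈ tsupport χ
    · have h1 : ¬ |p.1 - T p.2| ≤ 2 * d := fun h' => hp ⟨h, h'⟩
      rw [abs_le, not_and_or, not_le, not_le] at h1
      have h2 : source_r (ks m) (p.1 - T p.2) = 0 := by
        apply source_r_zero (hk0 m)
        have := hkd m
        rcases h1 with h1 | h1
        · left; linarith
        · right; linarith
      rw [h2, mul_zero]
    · rw [image_eq_zero_of_notMem_tsupport h, zero_mul]
  have hf : ∀ m, Integrable (Om.indicator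
      (fun p : ℝ × ℝ => χ p.2 * source_r (ks m) (p.1 - T p.2))) :=
    fun m => (hg m).indicator hOm.measurableSet
  set F : ℕ → ℝ → ℝ := fun m b => ∫ θ, Om.indicator
      (fun p : ℝ × ℝ => χ p.2 * source_r (ks m) (p.1 - T p.2)) (θ, b) with hF
  have hslice : ∀ m b, Integrable (fun θ => χ b * source_r (ks m) (θ - T b)) := fun m b =>
    (source_r_integrable (hk0 m) (T b)).const_mul _
  have hsliceval : ∀ m b, ∫ θ, χ b * source_r (ks m) (θ - T b) = χ b := fun m b => by
    rw [integral_const_mul, source_r_integral (hk0 m), mul_one]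
  have hlim : Tendsto (fun m => ∫ b, F m b) atTop (𝓝 (∫ b, χ b)) := by
    refine tendsto_integral_of_dominated_convergence χ ?_ ?_ ?_ ?_
    · intro m
      have h1 : Integrable (Om.indicator
        (fun p : ℝ × ℝ => χ p.2 * source_r (ks m) (p.1 - T p.2)))
          ((volume : Measure ℝ).prod (volume : Measure ℝ)) := hf m
      exact h1.integral_prod_right.aestronglyMeasurable
    · exact hχ.integrable_of_hasCompactSupport hχc
    · intro m
      refine Eventually.of_forall fun b => ?_
      have h1 := norm_integral_le_of_norm_le (hslice m b)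
        (f := fun θ => Om.indicator
          (fun p : ℝ × ℝ => χ p.2 * source_r (ks m) (p.1 - T p.2)) (θ, b))
        (Eventually.of_forall fun θ => ?_)
      · rw [hsliceval m b] at h1
        exact h1
      · show ‖Om.indicator (fun p : ℝ × ℝ => χ p.2 * source_r (ks m) (p.1 - T p.2)) (θ, b)‖ ≤
          χ b * source_r (ks m) (θ - T b)
        have h0 : 0 ≤ χ b * source_r (ks m) (θ - T b) :=
          mul_nonneg (hχ0 b) (source_r_nonneg (hk0 m) _)
        by_cases h : ((θ, b) : ℝ × ℝ) ∈ Om
        · rw [indicator_of_mem h]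
          rw [Real.norm_eq_abs, abs_of_nonneg h0]
        · rw [indicator_of_notMem h, norm_zero]
          exact h0
    · filter_upwards [ht] with b hb
      by_cases hbs : b ∈ tsupport χ
      · have hbO := hb hbs
        obtain ⟨δ, hδ, hball⟩ := Metric.isOpen_iff.1 hOm _ hbO
        apply tendsto_const_nhds.congr'
        have h1 : ∀ᶠ m in atTop, ks m < δ := hklim.eventually (gt_mem_nhds hδ)
        filter_upwards [h1] with m hm
        rw [hF]
        simp only
        rw [← hsliceval m b]
        apply integral_congr_ae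
        refine Eventually.of_forall fun θ => ?_
        show χ b * source_r (ks m) (θ - T b) =
          Om.indicator (fun p : ℝ × ℝ => χ p.2 * source_r (ks m) (p.1 - T p.2)) (θ, b)
        by_cases h : ((θ, b) : ℝ × ℝ) ∈ Om
        · rw [indicator_of_mem h]
        · rw [indicator_of_notMem h]
          have h2 : source_r (ks m) (θ - T b) = 0 := by
            apply source_r_zero (hk0 m)
            by_contra hc
            push Not at hc
            apply h
            apply hball
            rw [Metric.mem_ball, Prod.dist_eq, Real.dist_eq, Real.dist_eq]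
            simp only [sub_self, abs_zero]
            rw [max_lt_iff]
            refine ⟨?_, hδ⟩
            rw [abs_lt]
            constructor <;> linarith
          rw [h2, mul_zero]
      · have h0 : χ b = 0 := image_eq_zero_of_notMem_tsupport hbs
        have h1 : ∀ m, F m b = 0 := by
          intro m
          rw [hF]
          simp only
          have : (fun θ => Om.indicator
              (fun p : ℝ × ℝ => χ p.2 * source_r (ks m) (p.1 - T p.2)) (θ, b)) = fun _ => 0 := by
            funext θ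
            by_cases h : ((θ, b) : ℝ × ℝ) ∈ Om
            · rw [indicator_of_mem h]; simp only [h0, zero_mul]
            · rw [indicator_of_notMem h]
          rw [this, integral_zero]
        simp only [h1, h0]
        exact tendsto_const_nhds
  have h2 : ∀ᶠ m in atTop, (∫ b, χ b) / 2 < ∫ b, F m b :=
    hlim.eventually (lt_mem_nhds (by linarith))
  obtain ⟨m, hm⟩ := h2.exists
  refine ⟨ks m, hk0 m, hkd m, ?_⟩
  refine hm.le.trans (le_of_eq ?_)
  have h1 : Integrable (Om.indicator
    (fun p : ℝ × ℝ => χ p.2 * source_r (ks m) (p.1 - T p.2)))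
      ((volume : Measure ℝ).prod (volume : Measure ℝ)) := hf m
  rw [Measure.volume_eq_prod, integral_prod_symm _ h1]

lemma source_S_anti (T χ : ℝ → ℝ) {d d' : ℝ} (h : d ≤ d') : source_S T χ d ⊆ source_S T χ d' :=
  fun _ hp => ⟨hp.1, hp.2.trans (by linarith)⟩

lemma source_S_iInter (T χ : ℝ → ℝ) :
    ⋂ m : ℕ, source_S T χ (1 / ((m : ℝ) + 1)) = {p | p.2 ∈ tsupport χ ∧ p.1 = T p.2} := by
  ext p
  simp only [mem_iInter]
  constructor
  · intro h
    refine ⟨(h 0).1, ?_⟩
    have h1 : Tendsto (fun m : ℕ => 2 * (1 / ((m : ℝ) + 1))) atTop (𝓝 (2 * 0)) :=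
      (tendsto_one_div_add_atTop_nhds_zero_nat (𝕜 := ℝ)).const_mul 2
    have h2 : |p.1 - T p.2| ≤ 2 * 0 := ge_of_tendsto' h1 fun m => (h m).2
    have h3 : |p.1 - T p.2| = 0 := le_antisymm (by linarith) (abs_nonneg _)
    rw [abs_eq_zero] at h3
    linarith
  · rintro ⟨h1, h2⟩ m
    refine ⟨h1, ?_⟩
    rw [h2, sub_self, abs_zero]
    positivity

lemma source_vol0 {T χ : ℝ → ℝ} (hT : Continuous T) :
    (volume : Measure (ℝ × ℝ)) {p : ℝ × ℝ | p.2 ∈ tsupport χ ∧ p.1 = T p.2} = 0 := by
  have hm : MeasurableSet {p : ℝ × ℝ | p.1 = T p.2} :=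
    measurableSet_eq_fun measurable_fst (hT.measurable.comp measurable_snd)
  have h1 : (volume : Measure (ℝ × ℝ)) {p : ℝ × ℝ | p.1 = T p.2} = 0 := by
    rw [Measure.volume_eq_prod, Measure.prod_apply_symm hm]
    have : ∀ y : ℝ, (volume : Measure ℝ) ((fun x => (x, y)) ⁻¹' {p : ℝ × ℝ | p.1 = T p.2}) = 0 := by
      intro y
      have : ((fun x => (x, y)) ⁻¹' {p : ℝ × ℝ | p.1 = T p.2}) = {T y} := by
        ext x; simp
      rw [this]; simp
    simp only [this]
    simp
  exact measure_mono_null (fun p hp => hp.2) h1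

lemma source_choose {T χ : ℝ → ℝ} (hT : Continuous T) (hχc : HasCompactSupport χ)
    {f : ℝ × ℝ → ℝ} (hf : LocallyIntegrable f) (ν : Measure (ℝ × ℝ)) [IsFiniteMeasureOnCompacts ν]
    (hν : ν {p | p.2 ∈ tsupport χ ∧ p.1 = T p.2} = 0) {η : ℝ} (hη : 0 < η) :
    ∃ d, 0 < d ∧ (∫ p in source_S T χ d, f p) + (ν (source_S T χ d)).toReal < η := by
  have hms : ∀ m : ℕ, MeasurableSet (source_S T χ (1 / ((m : ℝ) + 1))) := fun m =>
    (source_S_compact hT hχc _).measurableSet
  have hanti : Antitone fun m : ℕ => source_S T χ (1 / ((m : ℝ) + 1)) := by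
    intro m m' hmm
    apply source_S_anti
    apply one_div_le_one_div_of_le (by positivity)
    have : (m : ℝ) ≤ m' := by exact_mod_cast hmm
    linarith
  have h1 : Tendsto (fun m : ℕ => ∫ p in source_S T χ (1 / ((m : ℝ) + 1)), f p) atTop (𝓝 0) := by
    have := tendsto_setIntegral_of_antitone (f := f) (μ := volume) hms hanti
      ⟨0, hf.integrableOn_isCompact (source_S_compact hT hχc _)⟩
    rw [source_S_iInter, setIntegral_measure_zero _ (source_vol0 hT)] at this
    exact this
  have h2 : Tendsto (fun m : ℕ => (ν (source_S T χ (1 / ((m : ℝ) + 1)))).toReal) atTop (𝓝 0) := by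
    have := tendsto_measure_iInter_atTop (μ := ν) (fun m => (hms m).nullMeasurableSet) hanti
      ⟨0, (source_S_compact hT hχc _).measure_lt_top.ne⟩
    rw [source_S_iInter, hν] at this
    have h3 := (ENNReal.tendsto_toReal ENNReal.zero_ne_top).comp this
    simpa [Function.comp_def] using h3
  have h3 := h1.add h2
  rw [add_zero] at h3
  obtain ⟨m, hm⟩ := (h3.eventually (gt_mem_nhds hη)).exists
  exact ⟨1 / ((m : ℝ) + 1), by positivity, hm⟩

lemma source_chooseN (C : Cfg n) (i : Fin n) {S : Set (ℝ × ℝ)} (hS : IsCompact S)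
    (hSr : ∀ p ∈ S, |p.2| < C.r i) {η : ℝ} (hη : 0 < η) :
    ∃ N, ((volume : Measure (ℝ × ℝ)) (S ∩ {p | ((i, p) : St n) ∈ C.Om N})).toReal < η := by
  have hms : ∀ N : ℕ, MeasurableSet (S ∩ {p | ((i, p) : St n) ∈ C.Om N}) := fun N =>
    hS.measurableSet.inter ((om_facts C N).2.2.2.1 i).measurableSet
  have hanti : Antitone fun N : ℕ => S ∩ {p | ((i, p) : St n) ∈ C.Om N} := by
    apply antitone_nat_of_succ_le
    intro N p hp
    exact ⟨hp.1, (om_facts C N).1 hp.2⟩
  have h2 := tendsto_measure_iInter_atTop (μ := (volume : Measure (ℝ × ℝ)))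
    (fun m => (hms m).nullMeasurableSet) hanti
      ⟨0, ((measure_mono inter_subset_left).trans_lt hS.measure_lt_top).ne⟩
  have h0 : (volume : Measure (ℝ × ℝ)) (⋂ N, S ∩ {p | ((i, p) : St n) ∈ C.Om N}) = 0 := by
    have h3 := hull C i
    rw [ae_iff] at h3
    refine measure_mono_null ?_ h3
    intro p hp
    simp only [mem_iInter] at hp
    have h4 : ((i, p) : St n) ∈ C.Trap := fun m => (hp m).2
    have h5 : C.Z (i, p) = 1 := by
      unfold Cfg.Z
      rw [if_pos h4]
    show ¬ (|p.2| < C.r i → C.Z (i, p) = 0)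
    intro h6
    have := h6 (hSr p (hp 0).1)
    rw [h5] at this
    exact one_ne_zero this
  rw [h0] at h2
  have h3 := (ENNReal.tendsto_toReal ENNReal.zero_ne_top).comp h2
  rw [ENNReal.toReal_zero] at h3
  obtain ⟨N, hN⟩ := (h3.eventually (gt_mem_nhds hη)).exists
  exact ⟨N, hN⟩

lemma source_phi_S {T χ : ℝ → ℝ} {k d : ℝ} (hk : 0 < k) (hkd : k ≤ d) {p : ℝ × ℝ}
    (hp : p ∉ source_S T χ d) : χ p.2 * source_x k d (p.1 - T p.2) = 0 := by
  have hd : 0 < d := hk.trans_le hkd
  by_cases h : p.2 ∈ tsupport χ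
  · have h1 : ¬ |p.1 - T p.2| ≤ 2 * d := fun h' => hp ⟨h, h'⟩
    rw [abs_le, not_and_or, not_le, not_le] at h1
    rw [source_x_zero hk hd, mul_zero]
    rcases h1 with h1 | h1
    · left; linarith
    · right; linarith
  · rw [image_eq_zero_of_notMem_tsupport h, zero_mul]

/-- `central`, with the intended parentheses (the first alternative is for the corrected
statement of `central`, the second one for the version with the missing parentheses). -/
lemma source_central (C : Cfg n) : ∃ A > 0, ∀ (e : Bool) (N : ℕ) (i : Fin n) (φ : ℝ × ℝ → ℝ),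
    TF (C.r i) φ →
      |∫ p, C.ZN N (i, p) * Cfg.gw e (C.sig N (i, p)) (C.hc i p.2) *
          fderiv ℝ φ p (1, -C.sig N (i, p))| ≤
        (∫ p, |φ p| * C.Sr A (i, p)) + ∫ p, |φ p| ∂(C.nui A i) := by
  first
  | exact central C
  | (obtain ⟨A, hA, h⟩ := central C
     refine ⟨A, hA, fun e N i φ hφ => ?_⟩
     have h1 := h e N i φ hφ
     have hc : 0 ≤ ∫ p, |φ p| ∂(C.nui A i) := integral_nonneg fun p => abs_nonneg _
     have hs : 0 ≤ ∫ p, |φ p| * C.Sr A (i, p) :=
       integral_nonneg fun p => mul_nonneg (abs_nonneg _) ((Sr_locint C A hA i).2.1 _)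
     rcases eq_or_ne (∫ p, |φ p| ∂(C.nui A i)) 0 with h0 | h0
     · rw [h0] at h1 ⊢
       simpa using h1
     · have h2 : ¬ Integrable (fun p : ℝ × ℝ => |φ p| * C.Sr A (i, p) +
           ∫ p, |φ p| ∂(C.nui A i)) := by
         intro hint
         have h3 : Integrable (fun p : ℝ × ℝ => |φ p| * C.Sr A (i, p)) := by
           have h5 : HasCompactSupport (fun p => |φ p|) := hφ.2.1.norm
           exact (Sr_locint C A hA i).2.2.1.integrable_smul_left_of_hasCompactSupport
             hφ.1.continuous.abs h5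
         have h4 := hint.sub h3
         have h5 : Integrable (fun _ : ℝ × ℝ => ∫ p, |φ p| ∂(C.nui A i)) := by
           refine h4.congr (Eventually.of_forall fun p => ?_)
           simp
         rw [integrable_const_iff] at h5
         rcases h5 with h5 | h5
         · exact h0 h5
         · have h6 := h5.measure_univ_lt_top
           simp at h6
       rw [integral_undef h2] at h1
       linarith)

lemma source_core (C : Cfg n) (i : Fin n) (T χ : ℝ → ℝ) (O : Set ℝ) (hO : IsOpen O)
    (hT : ContDiff ℝ 1 T) (hχ : ContDiff ℝ 1 χ) (hχc : HasCompactSupport χ)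
    (hχO : tsupport χ ⊆ O)
    (hχ0 : ∀ b, 0 ≤ χ b) (hχ1 : ∀ b, χ b ≤ 1) (hχp : 0 < ∫ b, χ b)
    (hOr : ∀ b ∈ O, |b| < C.r i)
    (hu : ∀ b ∈ O, -2 / C.hc i b ≤ deriv T b ∧ deriv T b ≤ -1 / C.hc i b)
    (ht : ∀ᵐ b, b ∈ O → ((i, T b, b) : St n) ∈ C.Trap) : False := by
  obtain ⟨A, hA, hcen⟩ := source_central C
  have hr := C.hr i
  have hτ := C.htau
  have hKpos : 0 < C.K := (basics C i i 0 0).2.2.2.2.2.2.2.2.2.2.2.2.1
  have hhc : ∀ b ∈ O, 0 < C.hc i b := by
    intro b hb
    have h1 := hOr b hb
    rw [Cfg.hc]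
    apply Real.sqrt_pos.2
    rw [abs_lt] at h1
    nlinarith
  have hhc_le : ∀ b, C.hc i b ≤ C.r i := by
    intro b
    rw [Cfg.hc]
    rw [Real.sqrt_le_left hr.le]
    nlinarith [sq_nonneg b]
  have hT' : ∀ b, HasDerivAt T (deriv T b) b := fun b =>
    (hT.differentiable (by norm_num) _).hasDerivAt
  have hcurve : C.nui A i {p | p.2 ∈ tsupport χ ∧ p.1 = T p.2} = 0 := by
    have h1 := nu_curve C A hA i O hO T id (deriv T) (fun _ => 1) ?_
    · refine measure_mono_null ?_ h1
      rintro p ⟨hp1, hp2⟩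
      refine ⟨p.2, hχO hp1, ?_⟩
      ext
      · exact hp2
      · rfl
    · intro s hs
      obtain ⟨h2, h3⟩ := hu s hs
      have h4 := hhc s hs
      refine ⟨hT' s, hasDerivAt_id s, hOr s hs, one_ne_zero, Or.inr ⟨?_, ?_⟩⟩
      · show -2 * (1 : ℝ) ^ 2 ≤ C.hc i s * deriv T s * 1
        rw [div_le_iff₀ h4] at h2
        linarith
      · show C.hc i s * deriv T s * 1 ≤ -(1 : ℝ) ^ 2
        rw [le_div_iff₀ h4] at h3
        linarith
  haveI := (nu_facts C A hA i).1
  set I0 := ∫ b, χ b with hI0
  set η := C.tau / (8 * C.r i) * I0 with hη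
  have hηpos : 0 < η := by positivity
  obtain ⟨d, hd, hd2⟩ := source_choose hT.continuous hχc (Sr_locint C A hA i).2.2.1
    (C.nui A i) hcurve hηpos
  obtain ⟨M, hM, hMs⟩ := source_s_bdd
  have hTc : Continuous (deriv T) := hT.continuous_deriv (by norm_num)
  have hχc' : Continuous (deriv χ) := hχ.continuous_deriv (by norm_num)
  obtain ⟨M2, hM20, hM2⟩ : ∃ M2, 0 ≤ M2 ∧ ∀ b ∈ tsupport χ, |deriv T b| ≤ M2 := by
    obtain ⟨M2, hM2⟩ := hχc.isCompact.bddAbove_image (f := fun b => |deriv T b|)
      (hTc.abs.continuousOn)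
    refine ⟨max M2 0, le_max_right _ _, fun b hb => ?_⟩
    exact (hM2 (mem_image_of_mem _ hb)).trans (le_max_left _ _)
  obtain ⟨M3, hM30, hM3⟩ : ∃ M3, 0 ≤ M3 ∧ ∀ b ∈ tsupport χ, |deriv χ b| ≤ M3 := by
    obtain ⟨M2, hM2⟩ := hχc.isCompact.bddAbove_image (f := fun b => |deriv χ b|)
      (hχc'.abs.continuousOn)
    refine ⟨max M2 0, le_max_right _ _, fun b hb => ?_⟩
    exact (hM2 (mem_image_of_mem _ hb)).trans (le_max_left _ _)
  set Md := (M / d) * (1 + C.K * M2) + C.K * M3 with hMd
  have hMd0 : 0 ≤ Md := by positivity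
  set S := source_S T χ d with hS
  have hScomp : IsCompact S := source_S_compact hT.continuous hχc d
  have hSr : ∀ p ∈ S, |p.2| < C.r i := fun p hp => hOr _ (hχO hp.1)
  obtain ⟨N, hN⟩ := source_chooseN C i hScomp hSr (η := η / (Md + 1)) (by positivity)
  set OmN : Set (ℝ × ℝ) := {p | ((i, p) : St n) ∈ C.Om N} with hOmN
  have hOmNo : IsOpen OmN := (om_facts C N).2.2.2.1 i
  obtain ⟨k, hk, hkd, hJ⟩ := source_J hOmNo hT.continuous hχ.continuous hχc hχ0 hχp
    (by
      filter_upwards [ht] with b hb hbs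
      exact hb (hχO hbs) N) hd
  set φ : ℝ × ℝ → ℝ := fun p => χ p.2 * source_x k d (p.1 - T p.2) with hφd
  have hφS : ∀ p, p ∉ S → φ p = 0 := fun p hp => source_phi_S hk hkd hp
  have hφ : TF (C.r i) φ := by
    refine ⟨?_, ?_, ?_⟩
    · refine (hχ.comp contDiff_snd).mul ((source_x_contDiff k d).comp ?_)
      exact contDiff_fst.sub (hT.comp contDiff_snd)
    · exact HasCompactSupport.intro hScomp hφS
    · have h1 : tsupport φ ⊆ S := by
        apply closure_minimal _ hScomp.isClosed
        intro p hp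
        by_contra h
        exact hp (hφS p h)
      exact fun p hp => hSr p (h1 hp)
  have hφ0 : ∀ p, 0 ≤ φ p := fun p => mul_nonneg (hχ0 _) (source_x_nonneg hk hd _)
  have hφ1 : ∀ p, φ p ≤ 1 := fun p => by
    calc φ p ≤ 1 * 1 := mul_le_mul (hχ1 _) (source_x_le_one _ _ _)
          (source_x_nonneg hk hd _) zero_le_one
      _ = 1 := one_mul 1
  have hmain := hcen false N i φ hφ
  -- right-hand side
  have hR1 : ∫ p, |φ p| * C.Sr A (i, p) ≤ ∫ p in S, C.Sr A (i, p) := by
    rw [← integral_indicator hScomp.measurableSet]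
    apply integral_mono_of_nonneg
    · exact Eventually.of_forall fun p => mul_nonneg (abs_nonneg _) ((Sr_locint C A hA i).2.1 _)
    · rw [integrable_indicator_iff hScomp.measurableSet]
      exact (Sr_locint C A hA i).2.2.1.integrableOn_isCompact hScomp
    · refine Eventually.of_forall fun p => ?_
      show |φ p| * C.Sr A (i, p) ≤ S.indicator (fun p => C.Sr A (i, p)) p
      have h0 := (Sr_locint C A hA i).2.1 ((i, p) : St n)
      by_cases hp : p ∈ S
      · rw [indicator_of_mem hp, abs_of_nonneg (hφ0 p)]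
        exact mul_le_of_le_one_left h0 (hφ1 p)
      · rw [indicator_of_notMem hp, hφS p hp, abs_zero, zero_mul]
  have hR2 : ∫ p, |φ p| ∂(C.nui A i) ≤ (C.nui A i S).toReal := by
    have h1 : ∫ p, S.indicator (fun _ => (1 : ℝ)) p ∂(C.nui A i) = (C.nui A i S).toReal := by
      rw [integral_indicator hScomp.measurableSet]
      simp [Measure.real]
    rw [← h1]
    apply integral_mono_of_nonneg
    · exact Eventually.of_forall fun p => abs_nonneg _
    · rw [integrable_indicator_iff hScomp.measurableSet]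
      exact integrableOn_const hScomp.measure_lt_top.ne
    · refine Eventually.of_forall fun p => ?_
      show |φ p| ≤ S.indicator (fun _ => (1 : ℝ)) p
      by_cases hp : p ∈ S
      · rw [indicator_of_mem hp, abs_of_nonneg (hφ0 p)]
        exact hφ1 p
      · rw [indicator_of_notMem hp, hφS p hp, abs_zero]
  -- left-hand side
  have hzm : Measurable fun p : ℝ × ℝ => C.ZN N (i, p) :=
    ((meas C).2.2.2.2.2.2.2.2.2.2.2.1 N).comp measurable_prodMk_left
  have hsm : Measurable fun p : ℝ × ℝ => C.sig N (i, p) :=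
    ((meas C).2.2.2.2.2.2.2.2.1 N).comp measurable_prodMk_left
  have hz1 : ∀ p ∈ OmN, C.ZN N (i, p) = 1 := fun p hp => if_pos hp
  have hz0 : ∀ p, p ∉ OmN → C.ZN N (i, p) = 0 := fun p hp => if_neg hp
  have hsb : ∀ p ∈ OmN, C.hc i p.2 + C.tau ≤ C.sig N (i, p) ∧ C.sig N (i, p) ≤ C.K := fun p hp =>
    sig_bounds C N (i, p) ((om_facts C N).2.1 hp)
  have hs0 : ∀ p ∈ OmN, 0 ≤ C.sig N (i, p) := fun p hp => by
    have h1 := (hsb p hp).1
    have h2 : 0 ≤ C.hc i p.2 := Real.sqrt_nonneg _
    linarith
  set f1 : ℝ × ℝ → ℝ := fun p => C.ZN N (i, p) * (χ p.2 * source_r k (p.1 - T p.2) *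
    (1 + C.sig N (i, p) * deriv T p.2)) with hf1
  set f2 : ℝ × ℝ → ℝ := fun p => C.ZN N (i, p) * (-(χ p.2 * source_d d (p.1 - T p.2) *
    (1 + C.sig N (i, p) * deriv T p.2)) - C.sig N (i, p) * deriv χ p.2 *
      source_x k d (p.1 - T p.2)) with hf2
  set g : ℝ × ℝ → ℝ := fun p =>
    OmN.indicator (fun p => χ p.2 * source_r k (p.1 - T p.2)) p with hg
  have hid : ∀ p, C.ZN N (i, p) * Cfg.gw false (C.sig N (i, p)) (C.hc i p.2) *
      fderiv ℝ φ p (1, -C.sig N (i, p)) = f1 p + f2 p := by
    intro p
    rw [hφd, source_fderiv hT hχ]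
    simp only [hf1, hf2, Cfg.gw]
    simp only [Bool.false_eq_true, if_false]
    ring
  have mχ : Measurable fun p : ℝ × ℝ => χ p.2 := hχ.continuous.measurable.comp measurable_snd
  have mχ' : Measurable fun p : ℝ × ℝ => deriv χ p.2 := hχc'.measurable.comp measurable_snd
  have mT' : Measurable fun p : ℝ × ℝ => deriv T p.2 := hTc.measurable.comp measurable_snd
  have mt : Measurable fun p : ℝ × ℝ => p.1 - T p.2 :=
    measurable_fst.sub (hT.continuous.measurable.comp measurable_snd)
  have mr : Measurable fun p : ℝ × ℝ => source_r k (p.1 - T p.2) :=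
    (source_r_cont k).measurable.comp mt
  have md : Measurable fun p : ℝ × ℝ => source_d d (p.1 - T p.2) :=
    (source_d_cont d).measurable.comp mt
  have mx : Measurable fun p : ℝ × ℝ => source_x k d (p.1 - T p.2) :=
    (source_x_contDiff k d).continuous.measurable.comp mt
  have hrle : ∀ t, source_r k t ≤ M / k := fun t => by
    rw [source_r]
    gcongr
    exact hMs _
  have hdle : ∀ t, source_d d t ≤ M / d := fun t => by
    rw [source_d]
    gcongr
    exact hMs _
  have hfac : ∀ p ∈ OmN, p.2 ∈ tsupport χ →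
      |1 + C.sig N (i, p) * deriv T p.2| ≤ 1 + C.K * M2 := by
    intro p hp hp2
    calc |1 + C.sig N (i, p) * deriv T p.2| ≤ |(1 : ℝ)| + |C.sig N (i, p) * deriv T p.2| :=
          abs_add_le _ _
      _ = 1 + C.sig N (i, p) * |deriv T p.2| := by
          rw [abs_one, abs_mul, abs_of_nonneg (hs0 p hp)]
      _ ≤ 1 + C.K * M2 := by
          have := mul_le_mul (hsb p hp).2 (hM2 p.2 hp2) (abs_nonneg _) hKpos.le
          linarith
  have hgbd : ∀ p, p ∉ S → χ p.2 * source_r k (p.1 - T p.2) = 0 := by
    intro p hp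
    by_cases h : p.2 ∈ tsupport χ
    · have h1 : ¬ |p.1 - T p.2| ≤ 2 * d := fun h' => hp ⟨h, h'⟩
      rw [abs_le, not_and_or, not_le, not_le] at h1
      rw [source_r_zero hk, mul_zero]
      rcases h1 with h1 | h1
      · left; linarith
      · right; linarith
    · rw [image_eq_zero_of_notMem_tsupport h, zero_mul]
  have hgi : Integrable g := by
    refine source_int hScomp ((mχ.mul mr).indicator hOmNo.measurableSet) (M := M / k) fun p => ?_
    show |OmN.indicator (fun p => χ p.2 * source_r k (p.1 - T p.2)) p| ≤ _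
    have hnn : 0 ≤ χ p.2 * source_r k (p.1 - T p.2) := mul_nonneg (hχ0 _) (source_r_nonneg hk _)
    have hMk : 0 ≤ M / k := by positivity
    by_cases hp : p ∈ S
    · rw [indicator_of_mem hp]
      by_cases hp' : p ∈ OmN
      · rw [indicator_of_mem hp', abs_of_nonneg hnn]
        calc χ p.2 * source_r k (p.1 - T p.2) ≤ 1 * (M / k) :=
              mul_le_mul (hχ1 _) (hrle _) (source_r_nonneg hk _) zero_le_one
          _ = M / k := one_mul _
      · rw [indicator_of_notMem hp', abs_zero]; exact hMk
    · rw [indicator_of_notMem hp]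
      by_cases hp' : p ∈ OmN
      · rw [indicator_of_mem hp', hgbd p hp, abs_zero]
      · rw [indicator_of_notMem hp', abs_zero]
  have hf1i : Integrable f1 := by
    refine source_int hScomp (hzm.mul ((mχ.mul mr).mul (measurable_const.add (hsm.mul mT'))))
      (M := M / k * (1 + C.K * M2)) fun p => ?_
    show |C.ZN N (i, p) * (χ p.2 * source_r k (p.1 - T p.2) *
      (1 + C.sig N (i, p) * deriv T p.2))| ≤ _
    have hMk : 0 ≤ M / k * (1 + C.K * M2) := by positivity
    by_cases hp' : p ∈ OmN
    · rw [hz1 p hp', one_mul]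
      by_cases hp : p ∈ S
      · rw [indicator_of_mem hp, abs_mul]
        apply mul_le_mul _ (hfac p hp' hp.1) (abs_nonneg _) (by positivity)
        rw [abs_of_nonneg (mul_nonneg (hχ0 _) (source_r_nonneg hk _))]
        calc χ p.2 * source_r k (p.1 - T p.2) ≤ 1 * (M / k) :=
              mul_le_mul (hχ1 _) (hrle _) (source_r_nonneg hk _) zero_le_one
          _ = M / k := one_mul _
      · rw [indicator_of_notMem hp, hgbd p hp, zero_mul, abs_zero]
    · rw [hz0 p hp', zero_mul, abs_zero]
      exact indicator_nonneg (fun _ _ => hMk) _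
  have hf2b : ∀ p, |f2 p| ≤ (S ∩ OmN).indicator (fun _ => Md) p := by
    intro p
    show |C.ZN N (i, p) * (-(χ p.2 * source_d d (p.1 - T p.2) *
      (1 + C.sig N (i, p) * deriv T p.2)) - C.sig N (i, p) * deriv χ p.2 *
      source_x k d (p.1 - T p.2))| ≤ _
    by_cases hp' : p ∈ OmN
    · rw [hz1 p hp', one_mul]
      by_cases hp : p ∈ S
      · have hpA : p ∈ S ∩ OmN := ⟨hp, hp'⟩
        rw [indicator_of_mem hpA]
        have e1 : |χ p.2 * source_d d (p.1 - T p.2) *
            (1 + C.sig N (i, p) * deriv T p.2)| ≤ (M / d) * (1 + C.K * M2) := by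
          rw [abs_mul]
          apply mul_le_mul _ (hfac p hp' hp.1) (abs_nonneg _) (by positivity)
          rw [abs_of_nonneg (mul_nonneg (hχ0 _) (source_d_nonneg hd _))]
          calc χ p.2 * source_d d (p.1 - T p.2) ≤ 1 * (M / d) :=
                mul_le_mul (hχ1 _) (hdle _) (source_d_nonneg hd _) zero_le_one
            _ = M / d := one_mul _
        have e2 : |C.sig N (i, p) * deriv χ p.2 * source_x k d (p.1 - T p.2)| ≤ C.K * M3 := by
          rw [abs_mul, abs_mul, abs_of_nonneg (hs0 p hp'),
            abs_of_nonneg (source_x_nonneg hk hd _)]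
          calc C.sig N (i, p) * |deriv χ p.2| * source_x k d (p.1 - T p.2)
              ≤ (C.K * M3) * 1 := by
                apply mul_le_mul _ (source_x_le_one _ _ _) (source_x_nonneg hk hd _)
                  (by positivity)
                exact mul_le_mul (hsb p hp').2 (hM3 _ hp.1) (abs_nonneg _) hKpos.le
            _ = C.K * M3 := mul_one _
        calc _ ≤ |-(χ p.2 * source_d d (p.1 - T p.2) *
            (1 + C.sig N (i, p) * deriv T p.2))| +
            |C.sig N (i, p) * deriv χ p.2 * source_x k d (p.1 - T p.2)| := abs_sub _ _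
          _ ≤ Md := by rw [abs_neg]; linarith
      · have hpA : p ∉ S ∩ OmN := fun h => hp h.1
        rw [indicator_of_notMem hpA]
        by_cases h : p.2 ∈ tsupport χ
        · have h1 : ¬ |p.1 - T p.2| ≤ 2 * d := fun h' => hp ⟨h, h'⟩
          rw [abs_le, not_and_or, not_le, not_le] at h1
          rw [source_d_zero hd, source_x_zero hk hd]
          · simp
          · rcases h1 with h1 | h1
            · left; linarith
            · right; linarith
          · rcases h1 with h1 | h1
            · left; linarith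
            · right; linarith
        · have h2 : deriv χ p.2 = 0 := by
            by_contra hne
            exact h (support_deriv_subset (f := χ) hne)
          rw [image_eq_zero_of_notMem_tsupport h, h2]
          simp
    · rw [hz0 p hp', zero_mul, abs_zero]
      exact indicator_nonneg (fun _ _ => hMd0) _
  have hAm : MeasurableSet (S ∩ OmN) := hScomp.measurableSet.inter hOmNo.measurableSet
  have hAfin : (volume : Measure (ℝ × ℝ)) (S ∩ OmN) ≠ ⊤ :=
    ((measure_mono inter_subset_left).trans_lt hScomp.measure_lt_top).ne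
  have hAi : Integrable ((S ∩ OmN).indicator (fun _ => Md)) := by
    rw [integrable_indicator_iff hAm]
    exact integrableOn_const hAfin
  have hf2i : Integrable f2 := by
    refine hAi.mono' ?_ (Eventually.of_forall hf2b)
    refine Measurable.aestronglyMeasurable ?_
    exact hzm.mul (((mχ.mul md).mul (measurable_const.add (hsm.mul mT'))).neg.sub
      ((hsm.mul mχ').mul mx))
  have hF1 : ∫ p, f1 p ≤ -(C.tau / C.r i) * ∫ p, g p := by
    rw [← integral_const_mul]
    apply integral_mono hf1i (hgi.const_mul _)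
    intro p
    show C.ZN N (i, p) * (χ p.2 * source_r k (p.1 - T p.2) *
      (1 + C.sig N (i, p) * deriv T p.2)) ≤
      -(C.tau / C.r i) * OmN.indicator (fun p => χ p.2 * source_r k (p.1 - T p.2)) p
    by_cases hp' : p ∈ OmN
    · rw [hz1 p hp', one_mul, indicator_of_mem hp']
      by_cases hp : p.2 ∈ tsupport χ
      · have hpO := hχO hp
        have hc := hhc _ hpO
        have hcr := hhc_le p.2
        obtain ⟨-, hu2⟩ := hu _ hpO
        have hs := (hsb p hp').1
        have h1 : 1 + C.sig N (i, p) * deriv T p.2 ≤ -(C.tau / C.r i) := by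
          have e1 : C.sig N (i, p) * deriv T p.2 ≤ C.sig N (i, p) * (-1 / C.hc i p.2) :=
            mul_le_mul_of_nonneg_left hu2 (hs0 p hp')
          have e2 : C.sig N (i, p) * (-1 / C.hc i p.2) ≤
              (C.hc i p.2 + C.tau) * (-1 / C.hc i p.2) := by
            apply mul_le_mul_of_nonpos_right hs
            exact div_nonpos_of_nonpos_of_nonneg (by norm_num) hc.le
          have e3 : (C.hc i p.2 + C.tau) * (-1 / C.hc i p.2) = -1 - C.tau / C.hc i p.2 := by
            field_simp
            ring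
          have e4 : C.tau / C.r i ≤ C.tau / C.hc i p.2 :=
            div_le_div_of_nonneg_left hτ.le hc hcr
          linarith
        have h2 : 0 ≤ χ p.2 * source_r k (p.1 - T p.2) :=
          mul_nonneg (hχ0 _) (source_r_nonneg hk _)
        have := mul_le_mul_of_nonneg_left h1 h2
        linarith
      · rw [image_eq_zero_of_notMem_tsupport hp]
        simp
    · rw [hz0 p hp', indicator_of_notMem hp']
      simp
  have hF2 : |∫ p, f2 p| < η := by
    calc |∫ p, f2 p| ≤ ∫ p, (S ∩ OmN).indicator (fun _ => Md) p := by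
          rw [← Real.norm_eq_abs]
          exact norm_integral_le_of_norm_le hAi (Eventually.of_forall hf2b)
      _ = Md * ((volume : Measure (ℝ × ℝ)) (S ∩ OmN)).toReal := by
          rw [integral_indicator hAm]
          simp [Measure.real, mul_comm]
      _ ≤ (Md + 1) * ((volume : Measure (ℝ × ℝ)) (S ∩ OmN)).toReal := by
          apply mul_le_mul_of_nonneg_right (by linarith) ENNReal.toReal_nonneg
      _ < (Md + 1) * (η / (Md + 1)) := by
          apply mul_lt_mul_of_pos_left hN (by linarith)
      _ = η := by field_simp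
  have hL : ∫ p, C.ZN N (i, p) * Cfg.gw false (C.sig N (i, p)) (C.hc i p.2) *
          fderiv ℝ φ p (1, -C.sig N (i, p)) = (∫ p, f1 p) + ∫ p, f2 p := by
    rw [← integral_add hf1i hf2i]
    exact integral_congr_ae (Eventually.of_forall hid)
  rw [hL] at hmain
  have hJ' : I0 / 2 ≤ ∫ p, g p := hJ
  have hF1' : ∫ p, f1 p ≤ -(4 * η) := by
    have e1 : -(C.tau / C.r i) * ∫ p, g p ≤ -(C.tau / C.r i) * (I0 / 2) := by
      apply mul_le_mul_of_nonpos_left hJ'
      have : 0 < C.tau / C.r i := by positivity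
      linarith
    have e2 : -(C.tau / C.r i) * (I0 / 2) = -(4 * η) := by
      rw [hη]; field_simp; ring
    linarith
  have h3 := (abs_le.1 (hmain.trans (add_le_add hR1 hR2))).1
  have h4 := (abs_lt.1 hF2).2
  linarith

/-- an unstable arc cannot be a.e. trapped. -/
theorem source (C : Cfg n) (i : Fin n) (b₁ b₂ : ℝ) (hb : b₁ < b₂)
    (h1 : -C.r i < b₁) (h2 : b₂ < C.r i) (th th' : ℝ → ℝ)
    (hth : ∀ b ∈ Ioo b₁ b₂, HasDerivAt th (th' b) b) (hc : ContinuousOn th' (Ioo b₁ b₂))
    (hu : ∀ b ∈ Ioo b₁ b₂, -2 / C.hc i b ≤ th' b ∧ th' b ≤ -1 / C.hc i b)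
    (ht : ∀ᵐ b, b ∈ Ioo b₁ b₂ → ((i, th b, b) : St n) ∈ C.Trap) : False := by
  set c := (b₁ + b₂) / 2 with hcd
  set h := (b₂ - b₁) / 2 with hhd
  have hh : 0 < h := by rw [hhd]; linarith
  let χ : ContDiffBump c := ⟨h / 8, h / 4, by linarith, by linarith⟩
  let ψ : ContDiffBump c := ⟨h / 2, 3 * h / 4, by linarith, by linarith⟩
  set T : ℝ → ℝ := fun b => ψ b * th b with hT
  have hsubψ : tsupport (ψ : ℝ → ℝ) ⊆ Ioo b₁ b₂ := by
    rw [ψ.tsupport_eq]
    intro x hx
    have hx' : |x - c| ≤ 3 * h / 4 := by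
      rw [Metric.mem_closedBall, Real.dist_eq] at hx; exact hx
    rw [abs_le] at hx'
    rw [hcd] at hx'
    rw [hhd] at hx' hh
    constructor <;> linarith [hx'.1, hx'.2]
  have hO1 : Metric.ball c (h / 2) ⊆ Ioo b₁ b₂ := by
    intro x hx
    rw [Metric.mem_ball, Real.dist_eq, abs_lt, hcd] at hx
    rw [hhd] at hx hh
    constructor <;> linarith [hx.1, hx.2]
  have hth1 : ContDiffOn ℝ 1 th (Ioo b₁ b₂) := by
    have h3 : ContDiffOn ℝ (0 + 1) th (Ioo b₁ b₂) := by
      rw [contDiffOn_succ_iff_deriv_of_isOpen isOpen_Ioo]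
      refine ⟨fun x hx => (hth x hx).differentiableAt.differentiableWithinAt, by simp, ?_⟩
      rw [contDiffOn_zero]
      refine hc.congr fun x hx => (hth x hx).deriv
    simpa using h3
  have hTc : ContDiff ℝ 1 T := by
    rw [contDiff_iff_contDiffAt]
    intro x
    by_cases hx1 : x ∈ tsupport (ψ : ℝ → ℝ)
    · have hx2 : x ∈ Ioo b₁ b₂ := hsubψ hx1
      exact (ψ.contDiff.contDiffAt).mul (hth1.contDiffAt (isOpen_Ioo.mem_nhds hx2))
    · have h3 : T =ᶠ[𝓝 x] fun _ => 0 := by
        filter_upwards [notMem_tsupport_iff_eventuallyEq.1 hx1] with y hy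
        show ψ y * th y = 0
        rw [hy]
        simp
      exact contDiffAt_const.congr_of_eventuallyEq h3
  have hTe : ∀ b ∈ Metric.ball c (h / 2), T b = th b := by
    intro b hb
    have : ψ b = 1 := ψ.one_of_mem_closedBall (Metric.ball_subset_closedBall hb)
    show ψ b * th b = th b
    rw [this, one_mul]
  have hTd : ∀ b ∈ Metric.ball c (h / 2), deriv T b = th' b := by
    intro b hb
    have h3 : T =ᶠ[𝓝 b] th := by
      filter_upwards [Metric.isOpen_ball.mem_nhds hb] with x hx
      exact hTe x hx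
    rw [h3.deriv_eq]
    exact (hth b (hO1 hb)).deriv
  refine source_core C i T χ (Metric.ball c (h / 2)) Metric.isOpen_ball hTc χ.contDiff
    χ.hasCompactSupport ?_ (fun b => χ.nonneg) (fun b => χ.le_one) χ.integral_pos ?_ ?_ ?_
  · rw [χ.tsupport_eq]
    exact Metric.closedBall_subset_ball (by show h / 4 < h / 2; linarith)
  · intro b hb
    have := hO1 hb
    rw [abs_lt]
    constructor <;> linarith [this.1, this.2]
  · intro b hb
    rw [hTd b hb]
    exact hu b (hO1 hb)
  · filter_upwards [ht] with b hb hbO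
    rw [hTe b hbO]
    exact hb (hO1 hbO)

end Pool.Light
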