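import Pool.Agent.Helper638.Light.Defs

set_option autoImplicit false

open MeasureTheory Set Filter Topology

namespace Pool.Light

variable {n : ℕ}

/-- `(C_j - x) · v(θ)` -/
noncomputable def dvx (C : Cfg n) (x₁ x₂ : ℝ) (j : Fin n) (θ : ℝ) : ℝ :=
  (C.cx j - x₁) * Real.cos θ + (C.cy j - x₂) * Real.sin θ

/-- impact parameter about `C_j` of the line through `x` in direction `θ` -/
noncomputable def bx (C : Cfg n) (x₁ x₂ : ℝ) (j : Fin n) (θ : ℝ) : ℝ :=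
  (C.cx j - x₁) * Real.sin θ - (C.cy j - x₂) * Real.cos θ

/-- the ray from `x` in direction `θ` hits disc `j` first, transversally -/
def HitsX (C : Cfg n) (x₁ x₂ : ℝ) (j : Fin n) (θ : ℝ) : Prop :=
  0 < dvx C x₁ x₂ j θ ∧ |bx C x₁ x₂ j θ| < C.r j ∧
    ∀ k, k ≠ j → 0 < dvx C x₁ x₂ k θ → |bx C x₁ x₂ k θ| ≤ C.r k →
      dvx C x₁ x₂ j θ < dvx C x₁ x₂ k θ

/-- state after the first reflection of the ray from `x` -/
noncomputable def stX (C : Cfg n) (x₁ x₂ : ℝ) (j : Fin n) (θ : ℝ) : St n :=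
  (j, θ + Real.pi - 2 * Real.arcsin (bx C x₁ x₂ j θ / C.r j), bx C x₁ x₂ j θ)

/-- starting point (on circle `i`) of the ray with state `l` -/
noncomputable def PP (C : Cfg n) (l : St n) : ℝ × ℝ :=
  (C.cx l.1 - l.2.2 * Real.sin l.2.1 + C.hc l.1 l.2.2 * Real.cos l.2.1,
   C.cy l.1 + l.2.2 * Real.cos l.2.1 + C.hc l.1 l.2.2 * Real.sin l.2.1)

/-- squared distance of the point `p + t v(θ)` to the centre of disc `k` -/
noncomputable def d2 (C : Cfg n) (p : ℝ × ℝ) (θ t : ℝ) (k : Fin n) : ℝ :=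
  (p.1 + t * Real.cos θ - C.cx k) ^ 2 + (p.2 + t * Real.sin θ - C.cy k) ^ 2

/-- direction `θ'` is the reflection of direction `θ` at the point `p` of the circle `j` -/
def Refl (C : Cfg n) (j : Fin n) (p : ℝ × ℝ) (θ θ' : ℝ) : Prop :=
  Real.cos θ' = Real.cos θ - 2 * (Real.cos θ * (p.1 - C.cx j) + Real.sin θ * (p.2 - C.cy j)) /
      (C.r j) ^ 2 * (p.1 - C.cx j) ∧
  Real.sin θ' = Real.sin θ - 2 * (Real.cos θ * (p.1 - C.cx j) + Real.sin θ * (p.2 - C.cy j)) /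
      (C.r j) ^ 2 * (p.2 - C.cy j)


end Pool.Light
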