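import Pool.Agent.Helper638.Light.Defs
import Pool.Agent.Helper638.Light.P_gap
import Pool.Agent.Helper638.Light.P_basics
import Pool.Agent.Helper638.Light.P_hits_unique
import Pool.Agent.Helper638.Light.P_T_of_hits
import Pool.Agent.Helper638.Light.XDefs

set_option autoImplicit false

open MeasureTheory Set Filter Topology

namespace Pool.Light


variable {n : ℕ}

theorem physE_d2 (C : Cfg n) (i k : Fin n) (θ b t : ℝ) :
    d2 C (PP C (i, θ, b)) θ t k =
      (C.hc i b + t - C.dv i k θ) ^ 2 + (C.bp i k θ b) ^ 2 := by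
  simp only [d2, PP, Cfg.dv, Cfg.bp, Cfg.dn]
  linear_combination (b ^ 2 + (C.hc i b + t) ^ 2 - (C.cx i - C.cx k) ^ 2 - (C.cy i - C.cy k) ^ 2) *
    (Real.sin_sq_add_cos_sq θ)

theorem physE_hc (C : Cfg n) {k : Fin n} {b : ℝ} (h : |b| ≤ C.r k) :
    0 ≤ C.hc k b ∧ C.hc k b ^ 2 = C.r k ^ 2 - b ^ 2 := by
  refine ⟨Real.sqrt_nonneg _, Real.sq_sqrt ?_⟩
  have h1 := abs_nonneg b
  have h2 := sq_abs b
  nlinarith

theorem physE (C : Cfg n) {l : St n} (h : l ∈ C.E0) :
    d2 C (PP C l) l.2.1 0 l.1 = (C.r l.1) ^ 2 ∧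
    ∀ k, ∀ t, 0 < t → (C.r k) ^ 2 < d2 C (PP C l) l.2.1 t k := by
  obtain ⟨i, θ, b⟩ := l
  obtain ⟨hM, hE⟩ := h
  have hM' : |b| < C.r i := hM
  obtain ⟨hc0, hc2⟩ := physE_hc C hM'.le
  have hdv : C.dv i i θ = 0 := by simp [Cfg.dv]
  have hbp : C.bp i i θ b = b := by simp [Cfg.bp, Cfg.dn]
  refine ⟨?_, fun k t ht => ?_⟩
  · show d2 C (PP C (i, θ, b)) θ 0 i = (C.r i) ^ 2
    rw [physE_d2, hdv, hbp]
    linarith
  · show (C.r k) ^ 2 < d2 C (PP C (i, θ, b)) θ t k
    rw [physE_d2]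
    by_cases hki : k = i
    · subst hki
      rw [hdv, hbp]
      nlinarith
    · by_cases hb : |C.bp i k θ b| ≤ C.r k
      · have hle : C.dv i k θ ≤ 0 := by
          by_contra hcon
          have h1 : C.r k < |C.bp i k θ b| := hE k hki (not_le.1 hcon)
          exact absurd hb (not_le.2 h1)
        have hg := gap C hki hM'.le hb
        rw [abs_of_nonpos hle] at hg
        obtain ⟨hk0, hk2⟩ := physE_hc C hb
        have htau := C.htau
        have h3 : C.hc k (C.bp i k θ b) < C.hc i b + t - C.dv i k θ := by linarith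
        nlinarith
      · have h1 := not_le.1 hb
        have h2 := C.hr k
        have h3 := sq_abs (C.bp i k θ b)
        nlinarith [sq_nonneg (C.hc i b + t - C.dv i k θ)]

end Pool.Light
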