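import Pool.Agent.Helper638.Light.Defs
import Pool.Agent.Helper638.Light.P_gap
import Pool.Agent.Helper638.Light.P_basics
import Pool.Agent.Helper638.Light.P_hits_unique
import Pool.Agent.Helper638.Light.P_T_of_hits
import Pool.Agent.Helper638.Light.XDefs

set_option autoImplicit false

open MeasureTheory Set Filter Topology

namespace Pool.Light


variable {n : ℕ}

theorem physHit_d2 (C : Cfg n) (i k : Fin n) (θ b t : ℝ) :
    d2 C (PP C (i, θ, b)) θ t k =
      (C.hc i b + t - C.dv i k θ) ^ 2 + (C.bp i k θ b) ^ 2 := by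
  simp only [d2, PP, Cfg.dv, Cfg.bp, Cfg.dn]
  have hsc := Real.sin_sq_add_cos_sq θ
  have h1 : Real.sin θ ^ 2 = 1 - Real.cos θ ^ 2 := by linarith
  have h3 : Real.sin θ ^ 2 * (C.hc i b) ^ 2 + Real.cos θ ^ 2 * (C.hc i b) ^ 2 =
      (C.hc i b) ^ 2 := by
    rw [← add_mul, hsc, one_mul]
  ring_nf
  rw [h1]
  ring

theorem physHit_hc (C : Cfg n) (k : Fin n) {b : ℝ} (hb : |b| ≤ C.r k) :
    (C.hc k b) ^ 2 + b ^ 2 = (C.r k) ^ 2 := by
  have hr := C.hr k
  have h0 : 0 ≤ (C.r k) ^ 2 - b ^ 2 := by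
    have := sq_le_sq' (by linarith [(abs_le.mp hb).1]) (abs_le.mp hb).2
    linarith
  unfold Cfg.hc
  rw [Real.sq_sqrt h0]
  ring

theorem physHit_hc_nonneg (C : Cfg n) (k : Fin n) (b : ℝ) : 0 ≤ C.hc k b := Real.sqrt_nonneg _

theorem physHit_hc_pos (C : Cfg n) (k : Fin n) {b : ℝ} (hb : |b| < C.r k) : 0 < C.hc k b := by
  apply Real.sqrt_pos.mpr
  have := sq_lt_sq' (by linarith [(abs_lt.mp hb).1]) (abs_lt.mp hb).2
  linarith

theorem physHit_trig (C : Cfg n) (j : Fin n) {θ b : ℝ} (hb : |b| < C.r j) :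
    Real.cos (θ + Real.pi - 2 * Real.arcsin (b / C.r j)) =
      -(Real.cos θ * (((C.hc j b) ^ 2 - b ^ 2) / (C.r j) ^ 2) +
        Real.sin θ * (2 * b * C.hc j b / (C.r j) ^ 2)) ∧
    Real.sin (θ + Real.pi - 2 * Real.arcsin (b / C.r j)) =
      -(Real.sin θ * (((C.hc j b) ^ 2 - b ^ 2) / (C.r j) ^ 2) -
        Real.cos θ * (2 * b * C.hc j b / (C.r j) ^ 2)) := by
  have hr := C.hr j
  have hr0 : C.r j ≠ 0 := ne_of_gt hr
  obtain ⟨hb1, hb2⟩ := abs_lt.mp hb
  have hs : Real.sin (Real.arcsin (b / C.r j)) = b / C.r j := by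
    apply Real.sin_arcsin
    · rw [le_div_iff₀ hr]; linarith
    · rw [div_le_one hr]; linarith
  have hc : Real.cos (Real.arcsin (b / C.r j)) = C.hc j b / C.r j := by
    rw [Real.cos_arcsin]
    have : 1 - (b / C.r j) ^ 2 = (C.r j ^ 2 - b ^ 2) / (C.r j) ^ 2 := by
      field_simp
    rw [this, Real.sqrt_div' _ (by positivity), Real.sqrt_sq hr.le]
    rfl
  have h2c : Real.cos (2 * Real.arcsin (b / C.r j)) =
      ((C.hc j b) ^ 2 - b ^ 2) / (C.r j) ^ 2 := by
    rw [Real.cos_two_mul', hs, hc]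
    field_simp
  have h2s : Real.sin (2 * Real.arcsin (b / C.r j)) = 2 * b * C.hc j b / (C.r j) ^ 2 := by
    rw [Real.sin_two_mul, hs, hc]
    field_simp
  constructor
  · have : θ + Real.pi - 2 * Real.arcsin (b / C.r j) =
        (θ - 2 * Real.arcsin (b / C.r j)) + Real.pi := by ring
    rw [this, Real.cos_add_pi, Real.cos_sub, h2c, h2s]
  · have : θ + Real.pi - 2 * Real.arcsin (b / C.r j) =
        (θ - 2 * Real.arcsin (b / C.r j)) + Real.pi := by ring
    rw [this, Real.sin_add_pi, Real.sin_sub, h2c, h2s]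

theorem physHit_PP (C : Cfg n) (j : Fin n) {θ b : ℝ} (hb : |b| < C.r j) :
    PP C (j, θ + Real.pi - 2 * Real.arcsin (b / C.r j), b) =
      (C.cx j - b * Real.sin θ - C.hc j b * Real.cos θ,
       C.cy j + b * Real.cos θ - C.hc j b * Real.sin θ) := by
  obtain ⟨h1, h2⟩ := physHit_trig C j (θ := θ) hb
  have hr0 : C.r j ≠ 0 := ne_of_gt (C.hr j)
  have hcc := physHit_hc C j hb.le
  simp only [PP]
  rw [h1, h2]
  have e1 : (C.r j) ^ 2 ≠ 0 := by positivity
  have k1 : b * (((C.hc j b) ^ 2 - b ^ 2) / (C.r j) ^ 2) -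
      C.hc j b * (2 * b * C.hc j b / (C.r j) ^ 2) = -b := by
    rw [← hcc] at e1 ⊢
    field_simp
    ring
  have k2 : b * (2 * b * C.hc j b / (C.r j) ^ 2) +
      C.hc j b * (((C.hc j b) ^ 2 - b ^ 2) / (C.r j) ^ 2) = C.hc j b := by
    rw [← hcc] at e1 ⊢
    field_simp
    ring
  refine Prod.ext ?_ ?_
  · simp only
    linear_combination (Real.sin θ) * k1 - (Real.cos θ) * k2
  · simp only
    linear_combination (-Real.cos θ) * k1 - (Real.sin θ) * k2

theorem physHit_clear (C : Cfg n) {i j : Fin n} {θ b : ℝ} (hb : |b| < C.r i)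
    (h : C.Hits i j θ b) (k : Fin n) (t : ℝ) (ht0 : 0 ≤ t)
    (hts : t ≤ C.dv i j θ - C.hc j (C.bp i j θ b) - C.hc i b)
    (hki : k = i → 0 < t)
    (hkj : k = j → t < C.dv i j θ - C.hc j (C.bp i j θ b) - C.hc i b) :
    (C.r k) ^ 2 < (C.hc i b + t - C.dv i k θ) ^ 2 + (C.bp i k θ b) ^ 2 := by
  obtain ⟨hij, hdv, hbp, hfirst⟩ := h
  have hc0 := physHit_hc_nonneg C i b
  have hcj0 := physHit_hc_nonneg C j (C.bp i j θ b)
  by_cases h1 : k = i
  · subst h1
    have e1 : C.dv k k θ = 0 := by simp [Cfg.dv]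
    have e2 : C.bp k k θ b = b := by simp [Cfg.bp, Cfg.dn]
    have := physHit_hc C k hb.le
    have ht := hki rfl
    rw [e1, e2]
    nlinarith
  by_cases h2 : k = j
  · subst h2
    have := physHit_hc C k hbp.le
    have ht := hkj rfl
    nlinarith
  by_cases h3 : |C.bp i k θ b| ≤ C.r k
  · have hck := physHit_hc C k h3
    have hck0 := physHit_hc_nonneg C k (C.bp i k θ b)
    have hg := gap C h1 hb.le h3
    have htau := C.htau
    by_cases h4 : 0 < C.dv i k θ
    · have h5 := hfirst k h1 h2 h4 h3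
      have hb' : C.bp j k θ (C.bp i j θ b) = C.bp i k θ b := by
        simp only [Cfg.bp, Cfg.dn]; ring
      have hg2 := gap C (i := j) (k := k) h2 (θ := θ) (b := C.bp i j θ b) hbp.le
        (by rw [hb']; exact h3)
      rw [hb'] at hg2
      have e3 : C.dv j k θ = C.dv i k θ - C.dv i j θ := by
        simp only [Cfg.dv]; ring
      rw [e3, abs_of_pos (by linarith)] at hg2
      nlinarith
    · rw [abs_of_nonpos (not_lt.mp h4)] at hg
      nlinarith
  · have h5 : C.r k < |C.bp i k θ b| := not_le.mp h3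
    have hr := C.hr k
    have h6 : (C.r k) ^ 2 < |C.bp i k θ b| ^ 2 := by
      apply pow_lt_pow_left₀ h5 hr.le (by norm_num)
    rw [sq_abs] at h6
    nlinarith [sq_nonneg (C.hc i b + t - C.dv i k θ)]

/-- physical meaning of one step of `T`. -/
theorem physHit (C : Cfg n) {i j : Fin n} {θ b : ℝ} (hb : |b| < C.r i) (h : C.Hits i j θ b) :
    ∃ s > 0,
      PP C (C.T (i, θ, b)) = ((PP C (i, θ, b)).1 + s * Real.cos θ,
        (PP C (i, θ, b)).2 + s * Real.sin θ) ∧
      Refl C j (PP C (C.T (i, θ, b))) θ (C.T (i, θ, b)).2.1 ∧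
      d2 C (PP C (i, θ, b)) θ 0 i = (C.r i) ^ 2 ∧
      d2 C (PP C (i, θ, b)) θ s j = (C.r j) ^ 2 ∧
      (∀ k, ∀ t, 0 < t → t < s → (C.r k) ^ 2 < d2 C (PP C (i, θ, b)) θ t k) ∧
      (∀ k, k ≠ j → (C.r k) ^ 2 < d2 C (PP C (i, θ, b)) θ s k) ∧
      (∀ k, k ≠ i → (C.r k) ^ 2 < d2 C (PP C (i, θ, b)) θ 0 k) := by
  have hT := T_of_hits C h
  have hh := h
  obtain ⟨hij, hdv, hbp, hfirst⟩ := hh
  have hg := gap C (k := j) (i := i) (Ne.symm hij) hb.le hbp.le
  rw [abs_of_pos hdv] at hg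
  have htau := C.htau
  have hc0 := physHit_hc_nonneg C i b
  have hcj0 := physHit_hc_nonneg C j (C.bp i j θ b)
  have hci := physHit_hc C i hb.le
  have hcj := physHit_hc C j hbp.le
  have hPP := physHit_PP C j (θ := θ) hbp
  obtain ⟨ht1, ht2⟩ := physHit_trig C j (θ := θ) hbp
  have hr0 : C.r j ≠ 0 := ne_of_gt (C.hr j)
  refine ⟨C.dv i j θ - C.hc j (C.bp i j θ b) - C.hc i b, by linarith, ?_, ?_, ?_, ?_, ?_, ?_, ?_⟩
  · rw [hT]
    simp only [Cfg.Tj]
    rw [hPP]
    have hsc := Real.sin_sq_add_cos_sq θ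
    refine Prod.ext ?_ ?_
    · simp only [PP, Cfg.dv]
      have : C.bp i j θ b = b + (C.cx j - C.cx i) * Real.sin θ - (C.cy j - C.cy i) * Real.cos θ := by
        simp only [Cfg.bp, Cfg.dn]; ring
      linear_combination (-(C.cx j - C.cx i)) * hsc - Real.sin θ * this
    · simp only [PP, Cfg.dv]
      have : C.bp i j θ b = b + (C.cx j - C.cx i) * Real.sin θ - (C.cy j - C.cy i) * Real.cos θ := by
        simp only [Cfg.bp, Cfg.dn]; ring
      linear_combination (-(C.cy j - C.cy i)) * hsc + Real.cos θ * this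
  · rw [hT]
    simp only [Cfg.Tj]
    unfold Refl
    rw [hPP, ht1, ht2]
    simp only
    have hsc := Real.sin_sq_add_cos_sq θ
    have hin : Real.cos θ * (C.cx j - C.bp i j θ b * Real.sin θ -
        C.hc j (C.bp i j θ b) * Real.cos θ - C.cx j) +
        Real.sin θ * (C.cy j + C.bp i j θ b * Real.cos θ -
        C.hc j (C.bp i j θ b) * Real.sin θ - C.cy j) = - C.hc j (C.bp i j θ b) := by
      linear_combination (-C.hc j (C.bp i j θ b)) * hsc
    rw [hin]
    have e1 : (C.r j) ^ 2 ≠ 0 := by positivity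
    constructor
    · rw [← hcj] at e1 ⊢
      field_simp
      ring
    · rw [← hcj] at e1 ⊢
      field_simp
      ring
  · rw [physHit_d2]
    have e1 : C.dv i i θ = 0 := by simp [Cfg.dv]
    have e2 : C.bp i i θ b = b := by simp [Cfg.bp, Cfg.dn]
    rw [e1, e2]
    linarith
  · rw [physHit_d2]
    rw [← hcj]
    ring
  · intro k t ht0 hts
    rw [physHit_d2]
    exact physHit_clear C hb h k t ht0.le hts.le (fun _ => ht0) (fun _ => hts)
  · intro k hkj
    rw [physHit_d2]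
    exact physHit_clear C hb h k _ (by linarith) le_rfl (fun _ => by linarith)
      (fun hk => absurd hk hkj)
  · intro k hki
    rw [physHit_d2]
    exact physHit_clear C hb h k 0 le_rfl (by linarith) (fun hk => absurd hk hki)
      (fun _ => by linarith)

end Pool.Light
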