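import Pool.Agent.Helper638.Light.Defs
import Pool.Agent.Helper638.Light.P_gap
import Pool.Agent.Helper638.Light.P_basics
import Pool.Agent.Helper638.Light.P_hits_unique
import Pool.Agent.Helper638.Light.P_T_of_hits
import Pool.Agent.Helper638.Light.XDefs

set_option autoImplicit false

open MeasureTheory Set Filter Topology

namespace Pool.Light


variable {n : ℕ}

theorem physX (C : Cfg n) (x₁ x₂ : ℝ)
    (hx : ∀ k, (C.r k) ^ 2 < (C.cx k - x₁) ^ 2 + (C.cy k - x₂) ^ 2) {j : Fin n} {θ : ℝ}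
    (h : HitsX C x₁ x₂ j θ) :
    ∃ s > 0, PP C (stX C x₁ x₂ j θ) = (x₁ + s * Real.cos θ, x₂ + s * Real.sin θ) ∧
      Refl C j (PP C (stX C x₁ x₂ j θ)) θ (stX C x₁ x₂ j θ).2.1 ∧
      stX C x₁ x₂ j θ ∈ C.M ∧
      d2 C (x₁, x₂) θ s j = (C.r j) ^ 2 ∧
      (∀ k, ∀ t, 0 ≤ t → t < s → (C.r k) ^ 2 < d2 C (x₁, x₂) θ t k) ∧
      (∀ k, k ≠ j → (C.r k) ^ 2 < d2 C (x₁, x₂) θ s k) := by
  obtain ⟨hpos, hb, hfirst⟩ := h
  have hsc := Real.sin_sq_add_cos_sq θ
  set b := bx C x₁ x₂ j θ with hbdef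
  set D := dvx C x₁ x₂ j θ with hDdef
  have hr := C.hr j
  obtain ⟨hb1, hb2⟩ := abs_lt.1 hb
  have hc0 : 0 < (C.r j) ^ 2 - b ^ 2 := by nlinarith
  set c := C.hc j b with hcdef
  have hcpos : 0 < c := Real.sqrt_pos.2 hc0
  have hc2 : c ^ 2 = (C.r j) ^ 2 - b ^ 2 := Real.sq_sqrt hc0.le
  have hnorm : ∀ k, (C.cx k - x₁) ^ 2 + (C.cy k - x₂) ^ 2 =
      (dvx C x₁ x₂ k θ) ^ 2 + (bx C x₁ x₂ k θ) ^ 2 := by
    intro k
    simp only [dvx, bx]
    linear_combination (-((C.cx k - x₁) ^ 2 + (C.cy k - x₂) ^ 2)) * hsc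
  have hDc : c < D := by
    have h1 := hx j
    rw [hnorm j] at h1
    by_contra hle
    push Not at hle
    nlinarith
  have hd2 : ∀ t k, d2 C (x₁, x₂) θ t k = (t - dvx C x₁ x₂ k θ) ^ 2 + (bx C x₁ x₂ k θ) ^ 2 := by
    intro t k
    have h1 := hnorm k
    simp only [d2]
    have h2 : (x₁ + t * Real.cos θ - C.cx k) ^ 2 + (x₂ + t * Real.sin θ - C.cy k) ^ 2 =
        ((C.cx k - x₁) ^ 2 + (C.cy k - x₂) ^ 2) - 2 * t * dvx C x₁ x₂ k θ + t ^ 2 := by
      simp only [dvx]
      linear_combination t ^ 2 * hsc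
    rw [h2, h1]
    ring
  -- clearance of the other discs
  have hclear : ∀ k, k ≠ j → ∀ t, 0 ≤ t → t ≤ D - c → (C.r k) ^ 2 < d2 C (x₁, x₂) θ t k := by
    intro k hkj t ht0 hts
    rw [hd2]
    have hrk := C.hr k
    by_cases hbk : |bx C x₁ x₂ k θ| ≤ C.r k
    · have hbk2 : (bx C x₁ x₂ k θ) ^ 2 ≤ (C.r k) ^ 2 := by
        rw [← sq_abs]
        exact pow_le_pow_left₀ (abs_nonneg _) hbk 2
      have hkn : 0 ≤ C.hc k (bx C x₁ x₂ k θ) := Real.sqrt_nonneg _
      have hk2 : (C.hc k (bx C x₁ x₂ k θ)) ^ 2 = (C.r k) ^ 2 - (bx C x₁ x₂ k θ) ^ 2 :=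
        Real.sq_sqrt (by linarith)
      have hxk := hx k
      rw [hnorm k] at hxk
      by_cases hdk : 0 < dvx C x₁ x₂ k θ
      · have hlt := hfirst k hkj hdk hbk
        have e1 : C.bp j k θ b = bx C x₁ x₂ k θ := by
          rw [hbdef]
          simp only [Cfg.bp, Cfg.dn, bx]
          ring
        have e2 : C.dv j k θ = dvx C x₁ x₂ k θ - D := by
          rw [hDdef]
          simp only [Cfg.dv, dvx]
          ring
        have hg := gap C hkj (θ := θ) (b := b) hb.le (by rw [e1]; exact hbk)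
        rw [e1, e2, abs_of_pos (by linarith)] at hg
        have htau := C.htau
        have hq : C.hc k (bx C x₁ x₂ k θ) < dvx C x₁ x₂ k θ - t := by
          have : C.hc j b = c := rfl
          rw [this] at hg
          linarith
        nlinarith
      · push Not at hdk
        have hq : C.hc k (bx C x₁ x₂ k θ) < t - dvx C x₁ x₂ k θ := by
          by_contra hle
          push Not at hle
          nlinarith
        nlinarith
    · push Not at hbk
      have : (C.r k) ^ 2 < (bx C x₁ x₂ k θ) ^ 2 := by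
        rw [← sq_abs (bx C x₁ x₂ k θ)]
        exact pow_lt_pow_left₀ hbk hrk.le (by norm_num)
      nlinarith [sq_nonneg (t - dvx C x₁ x₂ k θ)]
  -- the reflected direction
  have hsin : Real.sin (Real.arcsin (b / C.r j)) = b / C.r j := by
    apply Real.sin_arcsin
    · rw [le_div_iff₀ hr]
      linarith
    · rw [div_le_iff₀ hr]
      linarith
  have hcos : Real.cos (Real.arcsin (b / C.r j)) = c / C.r j := by
    rw [Real.cos_arcsin]
    have e : 1 - (b / C.r j) ^ 2 = (c / C.r j) ^ 2 := by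
      rw [div_pow, div_pow, hc2]
      field_simp
    rw [e, Real.sqrt_sq (div_nonneg hcpos.le hr.le)]
  have hrne : C.r j ≠ 0 := hr.ne'
  have hcos' : Real.cos (θ + Real.pi - 2 * Real.arcsin (b / C.r j)) =
      -((c ^ 2 - b ^ 2) / (C.r j) ^ 2) * Real.cos θ - (2 * b * c / (C.r j) ^ 2) * Real.sin θ := by
    have e : θ + Real.pi - 2 * Real.arcsin (b / C.r j) =
        (θ - 2 * Real.arcsin (b / C.r j)) + Real.pi := by ring
    rw [e, Real.cos_add_pi, Real.cos_sub, Real.cos_two_mul, Real.sin_two_mul, hsin, hcos]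
    have h3 : (C.r j) ^ 2 = c ^ 2 + b ^ 2 := by linarith
    field_simp
    rw [h3]
    ring
  have hsin' : Real.sin (θ + Real.pi - 2 * Real.arcsin (b / C.r j)) =
      -((c ^ 2 - b ^ 2) / (C.r j) ^ 2) * Real.sin θ + (2 * b * c / (C.r j) ^ 2) * Real.cos θ := by
    have e : θ + Real.pi - 2 * Real.arcsin (b / C.r j) =
        (θ - 2 * Real.arcsin (b / C.r j)) + Real.pi := by ring
    rw [e, Real.sin_add_pi, Real.sin_sub, Real.cos_two_mul, Real.sin_two_mul, hsin, hcos]
    have h3 : (C.r j) ^ 2 = c ^ 2 + b ^ 2 := by linarith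
    field_simp
    rw [h3]
    ring
  have h3 : (C.r j) ^ 2 = c ^ 2 + b ^ 2 := by linarith
  have hcbne : c ^ 2 + b ^ 2 ≠ 0 := by
    rw [← h3]
    positivity
  have hP1 : (PP C (stX C x₁ x₂ j θ)).1 = C.cx j - b * Real.sin θ - c * Real.cos θ := by
    show C.cx j - b * Real.sin (θ + Real.pi - 2 * Real.arcsin (b / C.r j)) +
      c * Real.cos (θ + Real.pi - 2 * Real.arcsin (b / C.r j)) = _
    rw [hcos', hsin', h3]
    field_simp
    ring
  have hP2 : (PP C (stX C x₁ x₂ j θ)).2 = C.cy j + b * Real.cos θ - c * Real.sin θ := by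
    show C.cy j + b * Real.cos (θ + Real.pi - 2 * Real.arcsin (b / C.r j)) +
      c * Real.sin (θ + Real.pi - 2 * Real.arcsin (b / C.r j)) = _
    rw [hcos', hsin', h3]
    field_simp
    ring
  refine ⟨D - c, by linarith, ?_, ⟨?_, ?_⟩, ?_, ?_, ?_, ?_⟩
  · refine Prod.ext ?_ ?_
    · rw [hP1]
      show _ = x₁ + (D - c) * Real.cos θ
      rw [hbdef, hDdef]
      simp only [bx, dvx]
      linear_combination (-(C.cx j - x₁)) * hsc
    · rw [hP2]
      show _ = x₂ + (D - c) * Real.sin θ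
      rw [hbdef, hDdef]
      simp only [bx, dvx]
      linear_combination (-(C.cy j - x₂)) * hsc
  · rw [hP1, hP2]
    show Real.cos (θ + Real.pi - 2 * Real.arcsin (b / C.r j)) = _
    rw [hcos', h3]
    have e : Real.cos θ * (C.cx j - b * Real.sin θ - c * Real.cos θ - C.cx j) +
        Real.sin θ * (C.cy j + b * Real.cos θ - c * Real.sin θ - C.cy j) = -c := by
      linear_combination (-c) * hsc
    rw [e]
    field_simp
    ring
  · rw [hP1, hP2]
    show Real.sin (θ + Real.pi - 2 * Real.arcsin (b / C.r j)) = _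
    rw [hsin', h3]
    have e : Real.cos θ * (C.cx j - b * Real.sin θ - c * Real.cos θ - C.cx j) +
        Real.sin θ * (C.cy j + b * Real.cos θ - c * Real.sin θ - C.cy j) = -c := by
      linear_combination (-c) * hsc
    rw [e]
    field_simp
    ring
  · exact hb
  · rw [hd2]
    show (D - c - D) ^ 2 + b ^ 2 = _
    linarith [hc2, show (D - c - D) ^ 2 = c ^ 2 by ring]
  · intro k t ht0 hts
    by_cases hkj : k = j
    · subst hkj
      rw [hd2]
      show _ < (t - D) ^ 2 + b ^ 2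
      have : c < D - t := by linarith
      nlinarith
    · exact hclear k hkj t ht0 hts.le
  · intro k hkj
    exact hclear k hkj (D - c) (by linarith) le_rfl

end Pool.Light
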