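import Pool.Agent.Helper638.Light.Defs
import Pool.Agent.Helper638.Light.P_gap
import Pool.Agent.Helper638.Light.P_basics
import Pool.Agent.Helper638.Light.P_hits_unique
import Pool.Agent.Helper638.Light.P_T_of_hits
import Pool.Agent.Helper638.Light.P_om_facts
import Pool.Agent.Helper638.Light.P_physHit
import Pool.Agent.Helper638.Light.P_physE
import Pool.Agent.Helper638.Light.P_physX
import Pool.Agent.Helper638.Light.P_physXE
import Pool.Agent.Helper638.Light.P_core
import Pool.Agent.Helper638.Light.P_mkCfg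
import Pool.Agent.Helper638.Light.XDefs

set_option autoImplicit false

open MeasureTheory Set Filter Topology

namespace Pool.Light


variable {n : ℕ}

/-- point of the Euclidean plane with given coordinates -/
noncomputable def final1_toE (q : ℝ × ℝ) : EuclideanSpace ℝ (Fin 2) := !₂[q.1, q.2]

theorem final1_toE0 (q : ℝ × ℝ) : (final1_toE q) 0 = q.1 := rfl
theorem final1_toE1 (q : ℝ × ℝ) : (final1_toE q) 1 = q.2 := rfl

theorem final1_dist (y z : EuclideanSpace ℝ (Fin 2)) :
    dist y z ^ 2 = (y 0 - z 0) ^ 2 + (y 1 - z 1) ^ 2 := by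
  rw [EuclideanSpace.dist_eq, Real.sq_sqrt (Finset.sum_nonneg fun i _ => sq_nonneg _),
    Fin.sum_univ_two, Real.dist_eq, Real.dist_eq, sq_abs, sq_abs]

theorem final1_inner (y z : EuclideanSpace ℝ (Fin 2)) :
    inner ℝ y z = y 0 * z 0 + y 1 * z 1 := by
  rw [PiLp.inner_apply, Fin.sum_univ_two]
  simp only [RCLike.inner_apply, conj_trivial]
  ring

theorem final1_gen (C : Cfg n) (c : Fin n → EuclideanSpace ℝ (Fin 2)) (r : Fin n → ℝ)
    (hCr : C.r = r) (hcx : ∀ i, C.cx i = c i 0) (hcy : ∀ i, C.cy i = c i 1)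
    (x : EuclideanSpace ℝ (Fin 2)) (m : ℕ) (Q : ℕ → ℝ × ℝ) (Θ S : ℕ → ℝ)
    (h0 : Q 0 = (x 0, x 1)) (hS : ∀ k, k ≤ m → 0 < S k)
    (hQ : ∀ k, k ≤ m → Q (k + 1) =
      ((Q k).1 + S k * Real.cos (Θ k), (Q k).2 + S k * Real.sin (Θ k)))
    (hseg : ∀ k, k < m → ∀ i t, 0 ≤ t → t ≤ S k → (C.r i) ^ 2 ≤ d2 C (Q k) (Θ k) t i)
    (hray : ∀ i t, 0 ≤ t → (C.r i) ^ 2 ≤ d2 C (Q m) (Θ m) t i)
    (hrefl : ∀ k, k < m → ∃ i, ((Q (k + 1)).1 - C.cx i) ^ 2 + ((Q (k + 1)).2 - C.cy i) ^ 2 =
      (C.r i) ^ 2 ∧ Refl C i (Q (k + 1)) (Θ k) (Θ (k + 1))) :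
    ∃ (m : ℕ) (p : ℕ → EuclideanSpace ℝ (Fin 2)),
          p 0 = x ∧
          (∀ k, k ≤ m → p k ≠ p (k + 1)) ∧
          (∀ k, k < m → ∀ i, ∀ t : ℝ, 0 ≤ t → t ≤ 1 →
              r i ≤ dist (p k + t • (p (k + 1) - p k)) (c i)) ∧
          (∀ i, ∀ t : ℝ, 0 ≤ t →
              r i ≤ dist (p m + t • (p (m + 1) - p m)) (c i)) ∧
          (∀ k, 1 ≤ k → k ≤ m → ∃ i, dist (p k) (c i) = r i ∧
              ∃ s : ℝ, 0 < s ∧
                p (k + 1) - p k =
                  s • ((p k - p (k - 1)) -
                    (2 * inner ℝ (p k - p (k - 1)) (p k - c i) /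
                        inner ℝ (p k - c i) (p k - c i)) • (p k - c i))) := by
  have hrpos : ∀ i, 0 < r i := fun i => by rw [← hCr]; exact C.hr i
  -- coordinates of points on the segments
  have hpt : ∀ k, k ≤ m → ∀ i t, (dist (final1_toE (Q k) + t •
      (final1_toE (Q (k + 1)) - final1_toE (Q k))) (c i)) ^ 2 =
      d2 C (Q k) (Θ k) (t * S k) i := by
    intro k hk i t
    rw [final1_dist]
    unfold d2
    rw [hcx, hcy]
    have e0 : (final1_toE (Q k) + t • (final1_toE (Q (k + 1)) - final1_toE (Q k))) 0 =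
        (Q k).1 + t * ((Q (k + 1)).1 - (Q k).1) := rfl
    have e1 : (final1_toE (Q k) + t • (final1_toE (Q (k + 1)) - final1_toE (Q k))) 1 =
        (Q k).2 + t * ((Q (k + 1)).2 - (Q k).2) := rfl
    rw [e0, e1, hQ k hk]
    simp only
    ring
  have hle : ∀ i (y : EuclideanSpace ℝ (Fin 2)), (C.r i) ^ 2 ≤ dist y (c i) ^ 2 →
      r i ≤ dist y (c i) := by
    intro i y h
    rw [hCr] at h
    exact (pow_le_pow_iff_left₀ (hrpos i).le dist_nonneg two_ne_zero).mp h
  refine ⟨m, fun k => final1_toE (Q k), ?_, ?_, ?_, ?_, ?_⟩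
  · show final1_toE (Q 0) = x
    rw [h0]
    ext i
    fin_cases i <;> rfl
  · intro k hk heq
    have e0 : (Q k).1 = (Q (k + 1)).1 := congrArg (fun y : EuclideanSpace ℝ (Fin 2) => y 0) heq
    have e1 : (Q k).2 = (Q (k + 1)).2 := congrArg (fun y : EuclideanSpace ℝ (Fin 2) => y 1) heq
    rw [hQ k hk] at e0 e1
    simp only at e0 e1
    have hs := hS k hk
    have c0 : Real.cos (Θ k) = 0 := by
      have : S k * Real.cos (Θ k) = 0 := by linarith
      rcases mul_eq_zero.mp this with h | h
      · exact absurd h hs.ne'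
      · exact h
    have c1 : Real.sin (Θ k) = 0 := by
      have : S k * Real.sin (Θ k) = 0 := by linarith
      rcases mul_eq_zero.mp this with h | h
      · exact absurd h hs.ne'
      · exact h
    have := Real.sin_sq_add_cos_sq (Θ k)
    rw [c0, c1] at this
    norm_num at this
  · intro k hk i t ht0 ht1
    apply hle
    rw [hpt k hk.le i t]
    have hs := hS k hk.le
    exact hseg k hk i (t * S k) (by positivity) (by nlinarith)
  · intro i t ht0
    apply hle
    rw [hpt m le_rfl i t]
    have hs := hS m le_rfl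
    exact hray i (t * S m) (by positivity)
  · intro k hk1 hkm
    obtain ⟨k', rfl⟩ : ∃ k', k = k' + 1 := ⟨k - 1, by omega⟩
    obtain ⟨i, hi, hR0, hR1⟩ := hrefl k' (by omega)
    have hs := hS k' (by omega)
    have hs' := hS (k' + 1) hkm
    refine ⟨i, ?_, S (k' + 1) / S k', by positivity, ?_⟩
    · have h1 : dist (final1_toE (Q (k' + 1))) (c i) ^ 2 = (r i) ^ 2 := by
        rw [final1_dist, final1_toE0, final1_toE1, ← hcx, ← hcy, hi, hCr]
      exact (pow_left_inj₀ dist_nonneg (hrpos i).le two_ne_zero).mp h1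
    · have hk'1 : k' + 1 - 1 = k' := by omega
      rw [hk'1]
      have hN : inner ℝ (final1_toE (Q (k' + 1)) - c i) (final1_toE (Q (k' + 1)) - c i) =
          (C.r i) ^ 2 := by
        rw [final1_inner]
        have e0 : (final1_toE (Q (k' + 1)) - c i) 0 = (Q (k' + 1)).1 - C.cx i := by
          rw [hcx]; rfl
        have e1 : (final1_toE (Q (k' + 1)) - c i) 1 = (Q (k' + 1)).2 - C.cy i := by
          rw [hcy]; rfl
        rw [e0, e1, ← hi]
        ring
      have hq1 : (Q (k' + 1)).1 - (Q k').1 = S k' * Real.cos (Θ k') := by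
        rw [hQ k' (by omega)]; ring
      have hq2 : (Q (k' + 1)).2 - (Q k').2 = S k' * Real.sin (Θ k') := by
        rw [hQ k' (by omega)]; ring
      have hD : inner ℝ (final1_toE (Q (k' + 1)) - final1_toE (Q k'))
          (final1_toE (Q (k' + 1)) - c i) =
          S k' * (Real.cos (Θ k') * ((Q (k' + 1)).1 - C.cx i) +
            Real.sin (Θ k') * ((Q (k' + 1)).2 - C.cy i)) := by
        rw [final1_inner]
        have e0 : (final1_toE (Q (k' + 1)) - c i) 0 = (Q (k' + 1)).1 - C.cx i := by
          rw [hcx]; rfl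
        have e1 : (final1_toE (Q (k' + 1)) - c i) 1 = (Q (k' + 1)).2 - C.cy i := by
          rw [hcy]; rfl
        have e2 : (final1_toE (Q (k' + 1)) - final1_toE (Q k')) 0 =
            (Q (k' + 1)).1 - (Q k').1 := rfl
        have e3 : (final1_toE (Q (k' + 1)) - final1_toE (Q k')) 1 =
            (Q (k' + 1)).2 - (Q k').2 := rfl
        rw [e0, e1, e2, e3, hq1, hq2]
        ring
      rw [hN, hD]
      have hr2 : (C.r i) ^ 2 ≠ 0 := (pow_pos (C.hr i) 2).ne'
      have hQ' := hQ (k' + 1) hkm
      ext j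
      fin_cases j
      · show (Q (k' + 1 + 1)).1 - (Q (k' + 1)).1 = S (k' + 1) / S k' *
          (((Q (k' + 1)).1 - (Q k').1) - (2 * (S k' * (Real.cos (Θ k') * ((Q (k' + 1)).1 - C.cx i) +
            Real.sin (Θ k') * ((Q (k' + 1)).2 - C.cy i))) / (C.r i) ^ 2) *
              ((Q (k' + 1)).1 - c i 0))
        rw [hq1, hQ', ← hcx]
        simp only
        rw [hR0]
        field_simp
        ring
      · show (Q (k' + 1 + 1)).2 - (Q (k' + 1)).2 = S (k' + 1) / S k' *
          (((Q (k' + 1)).2 - (Q k').2) - (2 * (S k' * (Real.cos (Θ k') * ((Q (k' + 1)).1 - C.cx i) +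
            Real.sin (Θ k') * ((Q (k' + 1)).2 - C.cy i))) / (C.r i) ^ 2) *
              ((Q (k' + 1)).2 - c i 1))
        rw [hq2, hQ', ← hcy]
        simp only
        rw [hR1]
        field_simp
        ring

theorem final1 :
    ∀ (n : ℕ) (c : Fin n → EuclideanSpace ℝ (Fin 2)) (r : Fin n → ℝ),
      (∀ i, 0 < r i) →
      (∀ i j, i ≠ j → r i + r j < dist (c i) (c j)) →
      ∀ x : EuclideanSpace ℝ (Fin 2), (∀ i, r i < dist x (c i)) →
        ∃ (m : ℕ) (p : ℕ → EuclideanSpace ℝ (Fin 2)),
          p 0 = x ∧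
          (∀ k, k ≤ m → p k ≠ p (k + 1)) ∧
          (∀ k, k < m → ∀ i, ∀ t : ℝ, 0 ≤ t → t ≤ 1 →
              r i ≤ dist (p k + t • (p (k + 1) - p k)) (c i)) ∧
          (∀ i, ∀ t : ℝ, 0 ≤ t →
              r i ≤ dist (p m + t • (p (m + 1) - p m)) (c i)) ∧
          (∀ k, 1 ≤ k → k ≤ m → ∃ i, dist (p k) (c i) = r i ∧
              ∃ s : ℝ, 0 < s ∧
                p (k + 1) - p k =
                  s • ((p k - p (k - 1)) -
                    (2 * inner ℝ (p k - p (k - 1)) (p k - c i) /
                        inner ℝ (p k - c i) (p k - c i)) • (p k - c i))) := by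
  intro n c r hr hd x hx
  obtain ⟨C, hCr, hcx, hcy⟩ := mkCfg c r hr hd
  have hxC : ∀ k, (C.r k) ^ 2 < (C.cx k - x 0) ^ 2 + (C.cy k - x 1) ^ 2 := by
    intro k
    have h1 := final1_dist x (c k)
    have h2 : (r k) ^ 2 < dist x (c k) ^ 2 := pow_lt_pow_left₀ (hx k) (hr k).le two_ne_zero
    rw [h1] at h2
    rw [hCr, hcx, hcy]
    nlinarith
  obtain ⟨θ, hcase⟩ := core C (x 0) (x 1) hxC
  rcases hcase with hA | ⟨j, hj, m', hOm, hE⟩
  · -- direct escape
    have hcl := physXE C (x 0) (x 1) hxC hA
    refine final1_gen C c r hCr hcx hcy x 0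
      (fun k => if k = 0 then (x 0, x 1) else (x 0 + 1 * Real.cos θ, x 1 + 1 * Real.sin θ))
      (fun _ => θ) (fun _ => 1) ?_ ?_ ?_ ?_ ?_ ?_
    · simp
    · intro k _; exact one_pos
    · intro k hk
      have : k = 0 := by omega
      subst this
      simp
    · intro k hk; omega
    · intro i t ht
      simp only [if_true]
      exact (hcl i t ht).le
    · intro k hk; omega
  · -- reflections
    obtain ⟨s0, hs0, hP0, hRefl0, hM0, hd0, hcl0, hcl0'⟩ := physX C (x 0) (x 1) hxC hj
    set l : ℕ → St n := fun k => (C.T^[k]) (stX C (x 0) (x 1) j θ) with hl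
    have hlsucc : ∀ k, l (k + 1) = C.T (l k) := by
      intro k
      show (C.T^[k + 1]) _ = C.T ((C.T^[k]) _)
      rw [Function.iterate_succ_apply']
    have hstep : ∀ k, k < m' → ∃ s : ℝ, 0 < s ∧
        PP C (l (k + 1)) = ((PP C (l k)).1 + s * Real.cos (l k).2.1,
          (PP C (l k)).2 + s * Real.sin (l k).2.1) ∧
        (∃ i, ((PP C (l (k + 1))).1 - C.cx i) ^ 2 + ((PP C (l (k + 1))).2 - C.cy i) ^ 2 =
          (C.r i) ^ 2 ∧ Refl C i (PP C (l (k + 1))) (l k).2.1 (l (k + 1)).2.1) ∧
        ∀ i t, 0 ≤ t → t ≤ s → (C.r i) ^ 2 ≤ d2 C (PP C (l k)) (l k).2.1 t i := by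
      intro k hk
      have hmem : l k ∈ C.Om (m' - k) := by
        have h1 := ((om_facts C k).2.2.1 (m' - k) (stX C (x 0) (x 1) j θ)).mp
          (by rw [show k + (m' - k) = m' by omega]; exact hOm)
        exact h1.2
      rw [show m' - k = (m' - k - 1) + 1 by omega] at hmem
      obtain ⟨hM, ⟨i', hi'⟩, -⟩ := hmem
      have hb : |(l k).2.2| < C.r (l k).1 := hM
      obtain ⟨s, hs, e1, e2, e3, e4, e5, e6, e7⟩ := physHit C hb hi'
      refine ⟨s, hs, ?_, ?_, ?_⟩
      · rw [hlsucc]; exact e1
      · refine ⟨i', ?_, ?_⟩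
        · rw [hlsucc]
          have e1' : PP C (C.T (l k)) = ((PP C (l k)).1 + s * Real.cos (l k).2.1,
            (PP C (l k)).2 + s * Real.sin (l k).2.1) := e1
          rw [e1']
          exact e4
        · rw [hlsucc]; exact e2
      · intro i t ht0 ht1
        rcases eq_or_lt_of_le ht0 with h0 | h0
        · subst h0
          by_cases hi : i = (l k).1
          · subst hi; exact e3.ge
          · exact (e7 i hi).le
        · rcases eq_or_lt_of_le ht1 with h1 | h1
          · subst h1
            by_cases hi : i = i'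
            · subst hi; exact e4.ge
            · exact (e6 i hi).le
          · exact (e5 i t h0 h1).le
    choose! s hs e1 e2 e3 using hstep
    obtain ⟨hE0, hE1⟩ := physE C hE
    refine final1_gen C c r hCr hcx hcy x (m' + 1)
      (fun k => Nat.casesOn k (x 0, x 1) (fun k => if k ≤ m' then PP C (l k) else
        ((PP C (l m')).1 + 1 * Real.cos (l m').2.1, (PP C (l m')).2 + 1 * Real.sin (l m').2.1)))
      (fun k => Nat.casesOn k θ (fun k => (l k).2.1))
      (fun k => Nat.casesOn k s0 (fun k => if k < m' then s k else 1)) ?_ ?_ ?_ ?_ ?_ ?_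
    · rfl
    · intro k hk
      cases k with
      | zero => exact hs0
      | succ k =>
        show 0 < (if k < m' then s k else 1)
        split_ifs with h
        · exact hs k h
        · exact one_pos
    · intro k hk
      cases k with
      | zero =>
        show (if 0 ≤ m' then PP C (l 0) else _) = _
        rw [if_pos (Nat.zero_le _)]
        exact hP0
      | succ k =>
        show (if k + 1 ≤ m' then PP C (l (k + 1)) else _) =
          ((if k ≤ m' then PP C (l k) else _).1 + (if k < m' then s k else 1) * Real.cos (l k).2.1,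
          (if k ≤ m' then PP C (l k) else _).2 + (if k < m' then s k else 1) * Real.sin (l k).2.1)
        have hk' : k ≤ m' := by omega
        rw [if_pos hk']
        by_cases h : k < m'
        · rw [if_pos (by omega : k + 1 ≤ m'), if_pos h]
          exact e1 k h
        · have hkm : k = m' := by omega
          subst hkm
          rw [if_neg (by omega), if_neg h]
    · intro k hk i t ht0 ht1
      cases k with
      | zero =>
        show (C.r i) ^ 2 ≤ d2 C (x 0, x 1) θ t i
        have ht1' : t ≤ s0 := ht1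
        rcases eq_or_lt_of_le ht1' with h1 | h1
        · subst h1
          by_cases hi : i = j
          · subst hi; exact hd0.ge
          · exact (hcl0' i hi).le
        · exact (hcl0 i t ht0 h1).le
      | succ k =>
        have hk' : k < m' := by omega
        have ht1' : t ≤ (if k < m' then s k else 1) := ht1
        rw [if_pos hk'] at ht1'
        show (C.r i) ^ 2 ≤ d2 C (if k ≤ m' then PP C (l k) else _) (l k).2.1 t i
        rw [if_pos hk'.le]
        exact e3 k hk' i t ht0 ht1'
    · intro i t ht0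
      show (C.r i) ^ 2 ≤ d2 C (if m' ≤ m' then PP C (l m') else _) (l m').2.1 t i
      rw [if_pos le_rfl]
      rcases eq_or_lt_of_le ht0 with h0 | h0
      · subst h0
        by_cases hi : i = (l m').1
        · subst hi; exact hE0.ge
        · -- continuity: limit of t → 0+
          by_contra hcon
          push Not at hcon
          have hcont : Continuous (fun t : ℝ => d2 C (PP C (l m')) (l m').2.1 t i) := by
            unfold d2
            fun_prop
          have hev : ∀ᶠ t in 𝓝 (0 : ℝ), d2 C (PP C (l m')) (l m').2.1 t i < (C.r i) ^ 2 :=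
            hcont.continuousAt.eventually_lt continuousAt_const hcon
          obtain ⟨ε, hε, hball⟩ := Metric.eventually_nhds_iff.mp hev
          have h1 := hball (y := ε / 2) (by
            rw [Real.dist_eq, sub_zero, abs_of_pos (by positivity)]; linarith)
          have h2 := hE1 i (ε / 2) (by positivity)
          exact absurd h1 (not_lt.mpr h2.le)
      · exact (hE1 i t h0).le
    · intro k hk
      cases k with
      | zero =>
        refine ⟨j, ?_, ?_⟩
        · show ((if 0 ≤ m' then PP C (l 0) else _).1 - C.cx j) ^ 2 +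
            ((if 0 ≤ m' then PP C (l 0) else _).2 - C.cy j) ^ 2 = (C.r j) ^ 2
          rw [if_pos (Nat.zero_le _)]
          have hP0' : PP C (l 0) = (x 0 + s0 * Real.cos θ, x 1 + s0 * Real.sin θ) := hP0
          rw [hP0']
          exact hd0
        · show Refl C j (if 0 ≤ m' then PP C (l 0) else _) θ (l 0).2.1
          rw [if_pos (Nat.zero_le _)]
          exact hRefl0
      | succ k =>
        have hk' : k < m' := by omega
        obtain ⟨i, hi1, hi2⟩ := e2 k hk'
        refine ⟨i, ?_, ?_⟩
        · show ((if k + 1 ≤ m' then PP C (l (k + 1)) else _).1 - C.cx i) ^ 2 +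
            ((if k + 1 ≤ m' then PP C (l (k + 1)) else _).2 - C.cy i) ^ 2 = (C.r i) ^ 2
          rw [if_pos (by omega : k + 1 ≤ m')]
          exact hi1
        · show Refl C i (if k + 1 ≤ m' then PP C (l (k + 1)) else _) (l k).2.1 (l (k + 1)).2.1
          rw [if_pos (by omega : k + 1 ≤ m')]
          exact hi2

end Pool.Light
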