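import Pool.Agent.Helper638.Light.Defs
import Pool.Agent.Helper638.Light.P_gap
import Pool.Agent.Helper638.Light.P_basics
import Pool.Agent.Helper638.Light.P_hits_unique
import Pool.Agent.Helper638.Light.P_T_of_hits
import Pool.Agent.Helper638.Light.P_om_facts
import Pool.Agent.Helper638.Light.P_physHit
import Pool.Agent.Helper638.Light.P_physE
import Pool.Agent.Helper638.Light.P_physX
import Pool.Agent.Helper638.Light.P_physXE
import Pool.Agent.Helper638.Light.P_core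
import Pool.Agent.Helper638.Light.P_mkCfg
import Pool.Agent.Helper638.Light.XDefs

set_option autoImplicit false

open MeasureTheory Set Filter Topology

namespace Pool.Light


variable {n : ℕ}

theorem final2_dist (C : Cfg n) (c : Fin n → EuclideanSpace ℝ (Fin 2))
    (hcx : ∀ i, C.cx i = c i 0) (hcy : ∀ i, C.cy i = c i 1)
    {q d : EuclideanSpace ℝ (Fin 2)} {P : ℝ × ℝ} {θ : ℝ} (hq : q 0 = P.1 ∧ q 1 = P.2)
    (hd : d 0 = Real.cos θ ∧ d 1 = Real.sin θ) (t : ℝ) (j : Fin n) :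
    dist (q + t • d) (c j) ^ 2 = d2 C P θ t j := by
  rw [EuclideanSpace.dist_eq, Real.sq_sqrt (Finset.sum_nonneg fun _ _ => sq_nonneg _),
    Fin.sum_univ_two, Real.dist_eq, Real.dist_eq, sq_abs, sq_abs]
  unfold d2
  rw [hcx, hcy]
  simp only [PiLp.add_apply, PiLp.smul_apply, smul_eq_mul, hq.1, hq.2, hd.1, hd.2]

theorem final2_step (C : Cfg n) (c : Fin n → EuclideanSpace ℝ (Fin 2)) (r : Fin n → ℝ)
    (hr : ∀ i, 0 < r i) (hCr : C.r = r)
    (hcx : ∀ i, C.cx i = c i 0) (hcy : ∀ i, C.cy i = c i 1)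
    {q d q' d' : EuclideanSpace ℝ (Fin 2)} {P : ℝ × ℝ} {θ : ℝ} (hq : q 0 = P.1 ∧ q 1 = P.2)
    (hd : d 0 = Real.cos θ ∧ d 1 = Real.sin θ)
    {i : Fin n} {t : ℝ} (ht : 0 < t) (hq' : q' = q + t • d) (hdist : dist q' (c i) = r i)
    (hfree : ∀ s : ℝ, 0 < s → s < t → ∀ j : Fin n, r j < dist (q + s • d) (c j))
    (hd' : d' = d - (2 * inner ℝ d (q' - c i) / r i ^ 2) • (q' - c i))
    {s : ℝ} (hs : 0 < s) {j : Fin n} (h1 : d2 C P θ s j = (C.r j) ^ 2)
    (h2 : ∀ k, ∀ t, 0 < t → t < s → (C.r k) ^ 2 < d2 C P θ t k)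
    (h3 : ∀ k, k ≠ j → (C.r k) ^ 2 < d2 C P θ s k)
    {θ' : ℝ} (href : Refl C j (P.1 + s * Real.cos θ, P.2 + s * Real.sin θ) θ θ') :
    (q' 0 = P.1 + s * Real.cos θ ∧ q' 1 = P.2 + s * Real.sin θ) ∧
      (d' 0 = Real.cos θ' ∧ d' 1 = Real.sin θ') := by
  have hdd := fun u k => final2_dist C c hcx hcy hq hd u k
  have e1 : d2 C P θ t i = (C.r i) ^ 2 := by
    rw [← hdd, ← hq', hdist, hCr]
  have hts : t = s := by
    rcases lt_trichotomy t s with h | h | h
    · have := h2 i t ht h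
      rw [e1] at this
      exact absurd this (lt_irrefl _)
    · exact h
    · have h4 := hfree s hs h j
      have h5 : r j ^ 2 < dist (q + s • d) (c j) ^ 2 :=
        pow_lt_pow_left₀ h4 (hr j).le two_ne_zero
      rw [hdd, h1, hCr] at h5
      exact absurd h5 (lt_irrefl _)
  subst hts
  have hij : i = j := by
    by_contra hne
    have := h3 i hne
    rw [e1] at this
    exact absurd this (lt_irrefl _)
  subst hij
  have hq0 : q' 0 = P.1 + t * Real.cos θ := by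
    rw [hq']
    simp only [PiLp.add_apply, PiLp.smul_apply, smul_eq_mul, hq.1, hd.1]
  have hq1 : q' 1 = P.2 + t * Real.sin θ := by
    rw [hq']
    simp only [PiLp.add_apply, PiLp.smul_apply, smul_eq_mul, hq.2, hd.2]
  refine ⟨⟨hq0, hq1⟩, ?_, ?_⟩
  · rw [hd', href.1, PiLp.sub_apply, PiLp.smul_apply, PiLp.inner_apply, Fin.sum_univ_two]
    simp only [PiLp.sub_apply, smul_eq_mul, hd.1, hd.2, hq0, hq1, hcx, hcy, hCr,
      real_inner_eq_re_inner, RCLike.inner_apply, conj_trivial, RCLike.re_to_real]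
    ring
  · rw [hd', href.2, PiLp.sub_apply, PiLp.smul_apply, PiLp.inner_apply, Fin.sum_univ_two]
    simp only [PiLp.sub_apply, smul_eq_mul, hd.1, hd.2, hq0, hq1, hcx, hcy, hCr,
      real_inner_eq_re_inner, RCLike.inner_apply, conj_trivial, RCLike.re_to_real]
    ring

theorem final2 :
    ¬ (∃ (k : ℕ) (c : Fin k → EuclideanSpace ℝ (Fin 2)) (r : Fin k → ℝ)
      (p : EuclideanSpace ℝ (Fin 2)),
      (∀ i, 0 < r i) ∧
      (∀ i j, i ≠ j → r i + r j < dist (c i) (c j)) ∧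
      (∀ i, r i < dist p (c i)) ∧
      ∀ v : EuclideanSpace ℝ (Fin 2), v ≠ 0 →
        ∃ (q : ℕ → EuclideanSpace ℝ (Fin 2)) (d : ℕ → EuclideanSpace ℝ (Fin 2)),
          q 0 = p ∧ d 0 = v ∧
          ∀ n : ℕ, ∃ i : Fin k, ∃ t : ℝ, 0 < t ∧
            q (n + 1) = q n + t • d n ∧
            dist (q (n + 1)) (c i) = r i ∧
            (∀ s : ℝ, 0 < s → s < t → ∀ j : Fin k,
              r j < dist (q n + s • d n) (c j)) ∧
            d (n + 1) = d n - (2 * inner ℝ (d n) (q (n + 1) - c i) / r i ^ 2) • (q (n + 1) - c i)) := by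
  rintro ⟨k, c, r, p, hr, hd, hp, H⟩
  obtain ⟨C, hCr, hcx, hcy⟩ := mkCfg c r hr hd
  have hx : ∀ k, (C.r k) ^ 2 < (C.cx k - p 0) ^ 2 + (C.cy k - p 1) ^ 2 := by
    intro i
    have h1 := pow_lt_pow_left₀ (hp i) (hr i).le two_ne_zero
    rw [EuclideanSpace.dist_eq, Real.sq_sqrt (Finset.sum_nonneg fun _ _ => sq_nonneg _),
      Fin.sum_univ_two, Real.dist_eq, Real.dist_eq, sq_abs, sq_abs] at h1
    rw [hCr, hcx, hcy]
    have e1 : (c i 0 - p 0) ^ 2 = (p 0 - c i 0) ^ 2 := by ring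
    have e2 : (c i 1 - p 1) ^ 2 = (p 1 - c i 1) ^ 2 := by ring
    rw [e1, e2]
    exact h1
  obtain ⟨θ, hθ⟩ := core C (p 0) (p 1) hx
  set v : EuclideanSpace ℝ (Fin 2) := !₂[Real.cos θ, Real.sin θ] with hv
  have hv0 : v 0 = Real.cos θ := rfl
  have hv1 : v 1 = Real.sin θ := rfl
  have hvne : v ≠ 0 := by
    intro h
    have e0 : Real.cos θ = 0 := by rw [← hv0, h]; rfl
    have e1 : Real.sin θ = 0 := by rw [← hv1, h]; rfl
    have := Real.sin_sq_add_cos_sq θ
    rw [e0, e1] at this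
    norm_num at this
  obtain ⟨q, d, hq0, hd0, hseq⟩ := H v hvne
  have hq0' : q 0 0 = ((p 0, p 1) : ℝ × ℝ).1 ∧ q 0 1 = ((p 0, p 1) : ℝ × ℝ).2 := by
    rw [hq0]; exact ⟨rfl, rfl⟩
  have hd0' : d 0 0 = Real.cos θ ∧ d 0 1 = Real.sin θ := by
    rw [hd0]; exact ⟨hv0, hv1⟩
  rcases hθ with hesc | ⟨j, hj, m, hOm, hE⟩
  · -- direct escape
    have hfree := physXE C (p 0) (p 1) hx hesc
    obtain ⟨i, t, ht, h1, h2, _, _⟩ := hseq 0
    have h3 := hfree i t ht.le
    rw [← final2_dist C c hcx hcy hq0' hd0' t i, ← h1, h2, hCr] at h3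
    exact absurd h3 (lt_irrefl _)
  · set l := stX C (p 0) (p 1) j θ with hl
    have hinv : ∀ k, k ≤ m → (q (k + 1) 0 = (PP C ((C.T^[k]) l)).1 ∧
        q (k + 1) 1 = (PP C ((C.T^[k]) l)).2) ∧
        (d (k + 1) 0 = Real.cos ((C.T^[k]) l).2.1 ∧ d (k + 1) 1 = Real.sin ((C.T^[k]) l).2.1) := by
      intro k
      induction k with
      | zero =>
        intro _
        obtain ⟨s, hs, hPP, href, _, g1, g2, g3⟩ := physX C (p 0) (p 1) hx hj
        obtain ⟨i, t, ht, h1, h2, h3, h4⟩ := hseq 0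
        rw [hPP] at href
        have := final2_step C c r hr hCr hcx hcy hq0' hd0' ht h1 h2 h3 h4 hs g1
          (fun k t ht hts => g2 k t ht.le hts) g3 href
        show (q 1 0 = (PP C l).1 ∧ q 1 1 = (PP C l).2) ∧
          (d 1 0 = Real.cos l.2.1 ∧ d 1 1 = Real.sin l.2.1)
        rw [hl, hPP]
        exact this
      | succ k ih =>
        intro hk
        obtain ⟨ih1, ih2⟩ := ih (by omega)
        obtain ⟨e, he⟩ : ∃ e, m = k + (e + 1) := ⟨m - k - 1, by omega⟩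
        have hOm2 := (((om_facts C k).2.2.1 (e + 1) l).1 (by rw [← he]; exact hOm)).2
        obtain ⟨hM, ⟨j', hj'⟩, _⟩ := hOm2
        rw [Function.iterate_succ_apply']
        set l' := (C.T^[k]) l with hl'
        obtain ⟨s, hs, hPP, href, _, g1, g2, g3, _⟩ := physHit C (i := l'.1) (θ := l'.2.1)
          (b := l'.2.2) hM hj'
        obtain ⟨i, t, ht, h1, h2, h3, h4⟩ := hseq (k + 1)
        have hPP' : PP C (C.T l') = ((PP C l').1 + s * Real.cos l'.2.1,
          (PP C l').2 + s * Real.sin l'.2.1) := hPP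
        have href' : Refl C j' (PP C (C.T l')) l'.2.1 (C.T l').2.1 := href
        rw [hPP'] at href'
        have := final2_step C c r hr hCr hcx hcy ih1 ih2 ht h1 h2 h3 h4 hs g1 g2 g3 href'
        rw [hPP']
        exact this
    obtain ⟨hq1, hd1⟩ := hinv m le_rfl
    obtain ⟨_, hfree⟩ := physE C hE
    obtain ⟨i, t, ht, h1, h2, _, _⟩ := hseq (m + 1)
    have h3 := hfree i t ht
    rw [← final2_dist C c hcx hcy hq1 hd1 t i, ← h1, h2, hCr] at h3
    exact absurd h3 (lt_irrefl _)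

end Pool.Light
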